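import Mathlib

/-!
Project LT, task LT-BL (helper75): the local form of the theorem of de Moivre and Laplace.
-/

namespace Pool.Agent.H499R2.LT

open Filter Topology Nat

/-- Stirling's sequence in exponential form -/
theorem BL_fact (n : ℕ) (hn : 1 ≤ n) : (n ! : ℝ) =
    Stirling.stirlingSeq n * Real.sqrt (2 * n) * Real.exp (n * (Real.log n - 1)) := by
  have hn0 : (0 : ℝ) < n := by exact_mod_cast hn
  have h1 : Real.exp (n * (Real.log n - 1)) = ((n : ℝ) / Real.exp 1) ^ n := by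
    rw [Real.exp_nat_mul, Real.exp_sub, Real.exp_log hn0]
  rw [h1, Stirling.stirlingSeq]
  have h2 : Real.sqrt (2 * n) * ((n : ℝ) / Real.exp 1) ^ n ≠ 0 := by positivity
  rw [mul_assoc, div_mul_cancel₀ _ h2]

/-- exact form of the binomial coefficient -/
theorem BL_exact (k o m : ℕ) (hk : o + m = k) (ho : 1 ≤ o) (hm : 1 ≤ m) :
    Real.sqrt (Real.pi * k / 2) * (k.choose o : ℝ) / 2 ^ k =
      (Real.sqrt Real.pi * Stirling.stirlingSeq k /
        (Stirling.stirlingSeq o * Stirling.stirlingSeq m)) *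
      (k / (2 * Real.sqrt (o * m))) *
      Real.exp (-(o * Real.log (2 * o / k) + m * Real.log (2 * m / k))) := by
  have hk1 : 1 ≤ k := by omega
  have hk0 : (0 : ℝ) < k := by exact_mod_cast hk1
  have ho0 : (0 : ℝ) < o := by exact_mod_cast ho
  have hm0 : (0 : ℝ) < m := by exact_mod_cast hm
  have hkR : (o : ℝ) + m = k := by exact_mod_cast hk
  have hso : 0 < Stirling.stirlingSeq o := by
    obtain ⟨n, rfl⟩ : ∃ n, o = n + 1 := ⟨o - 1, by omega⟩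
    exact Stirling.stirlingSeq'_pos n
  have hsm : 0 < Stirling.stirlingSeq m := by
    obtain ⟨n, rfl⟩ : ∃ n, m = n + 1 := ⟨m - 1, by omega⟩
    exact Stirling.stirlingSeq'_pos n
  have hch : (k.choose o : ℝ) = (k ! : ℝ) / ((o ! : ℝ) * (m ! : ℝ)) := by
    have h1 := Nat.choose_mul_factorial_mul_factorial (show o ≤ k by omega)
    rw [show k - o = m by omega] at h1
    rw [eq_div_iff (by positivity), ← mul_assoc]
    exact_mod_cast h1
  have hlog : Real.exp (k * (Real.log k - 1)) =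
      Real.exp (-(o * Real.log (2 * o / k) + m * Real.log (2 * m / k))) * 2 ^ k *
        (Real.exp (o * (Real.log o - 1)) * Real.exp (m * (Real.log m - 1))) := by
    have h2 : (2 : ℝ) ^ k = Real.exp (k * Real.log 2) := by
      rw [Real.exp_nat_mul, Real.exp_log (by norm_num)]
    rw [h2, ← Real.exp_add, ← Real.exp_add, ← Real.exp_add]
    congr 1
    rw [Real.log_div (by positivity) hk0.ne', Real.log_div (by positivity) hk0.ne',
      Real.log_mul (by norm_num) ho0.ne', Real.log_mul (by norm_num) hm0.ne', ← hkR]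
    ring
  have hs1 : Real.sqrt (Real.pi * k / 2) * Real.sqrt (2 * k) = Real.sqrt Real.pi * k := by
    rw [← Real.sqrt_mul (by positivity)]
    have : Real.pi * k / 2 * (2 * k) = Real.pi * (k : ℝ) ^ 2 := by ring
    rw [this, Real.sqrt_mul Real.pi_pos.le, Real.sqrt_sq hk0.le]
  have hs2 : Real.sqrt (2 * o) * Real.sqrt (2 * m) = 2 * Real.sqrt (o * m) := by
    rw [← Real.sqrt_mul (by positivity)]
    have : (2 : ℝ) * o * (2 * m) = 2 ^ 2 * (o * m) := by ring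
    rw [this, Real.sqrt_mul (by positivity), Real.sqrt_sq (by norm_num)]
  have hsom : 0 < Real.sqrt (o * m) := Real.sqrt_pos.mpr (by positivity)
  rw [hch, BL_fact k hk1, BL_fact o ho, BL_fact m hm, hlog]
  set E := Real.exp (-(o * Real.log (2 * o / k) + m * Real.log (2 * m / k))) with hE
  set A := Real.exp (o * (Real.log o - 1)) with hA
  set B := Real.exp (m * (Real.log m - 1)) with hB
  have hA0 : 0 < A := Real.exp_pos _
  have hB0 : 0 < B := Real.exp_pos _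
  have hden : Stirling.stirlingSeq o * Real.sqrt (2 * o) * A *
      (Stirling.stirlingSeq m * Real.sqrt (2 * m) * B) =
      (Stirling.stirlingSeq o * Stirling.stirlingSeq m) * (2 * Real.sqrt (o * m)) * (A * B) := by
    rw [← hs2]; ring
  rw [hden]
  have hnum : Real.sqrt (Real.pi * k / 2) * (Stirling.stirlingSeq k * Real.sqrt (2 * k) *
      (E * 2 ^ k * (A * B)) / ((Stirling.stirlingSeq o * Stirling.stirlingSeq m) *
        (2 * Real.sqrt (o * m)) * (A * B))) / 2 ^ k =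
      (Real.sqrt (Real.pi * k / 2) * Real.sqrt (2 * k)) * Stirling.stirlingSeq k * E /
        ((Stirling.stirlingSeq o * Stirling.stirlingSeq m) * (2 * Real.sqrt (o * m))) := by
    field_simp
  rw [hnum, hs1]
  field_simp

/-- the entropy near one half -/
theorem BL_entropy (u : ℝ) (hu : |u| ≤ 1 / 2) :
    |(1 + u) * Real.log (1 + u) + (1 - u) * Real.log (1 - u) - u ^ 2| ≤ 5 * u ^ 4 := by
  have hu1 : |u| < 1 := by linarith
  have h1 := Real.abs_log_sub_add_sum_range_le hu1 3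
  have hu2 : |-u| < 1 := by rw [abs_neg]; exact hu1
  have h2 := Real.abs_log_sub_add_sum_range_le hu2 3
  rw [abs_neg] at h2
  simp only [Finset.sum_range_succ, Finset.sum_range_zero, zero_add, pow_one, Nat.cast_zero,
    Nat.cast_one, Nat.cast_ofNat, sub_neg_eq_add] at h1 h2
  have h4 : |u| ^ (3 + 1) / (1 - |u|) ≤ 2 * u ^ 4 := by
    have e : |u| ^ (3 + 1) = u ^ 4 := by
      have : |u| ^ 4 = u ^ 4 := by
        rw [show (4 : ℕ) = 2 * 2 from rfl, pow_mul, pow_mul, sq_abs]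
      exact this
    rw [e, div_le_iff₀ (by linarith)]
    have h0 : 0 ≤ u ^ 4 := by positivity
    nlinarith
  have h5 := h1.trans h4
  have h6 := h2.trans h4
  set R1 := u / 1 + u ^ (1 + 1) / (1 + 1) + u ^ (2 + 1) / (2 + 1) + Real.log (1 - u) with hR1
  set R2 := -u / 1 + (-u) ^ (1 + 1) / (1 + 1) + (-u) ^ (2 + 1) / (2 + 1) + Real.log (1 + u) with hR2
  have e1 : Real.log (1 - u) = R1 - (u + u ^ 2 / 2 + u ^ 3 / 3) := by rw [hR1]; ring
  have e2 : Real.log (1 + u) = R2 - (-u + u ^ 2 / 2 - u ^ 3 / 3) := by rw [hR2]; ring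
  have e3 : (1 + u) * Real.log (1 + u) + (1 - u) * Real.log (1 - u) - u ^ 2 =
      (1 + u) * R2 + (1 - u) * R1 + 2 / 3 * u ^ 4 := by
    rw [e1, e2]; ring
  rw [e3]
  have hul := abs_le.mp hu
  have h7 := abs_le.mp h5
  have h8 := abs_le.mp h6
  have h0 : 0 ≤ u ^ 4 := by positivity
  rw [abs_le]
  constructor
  · nlinarith [mul_nonneg (by linarith [hul.1] : (0 : ℝ) ≤ 1 + u) (by linarith [h8.1] : (0 : ℝ) ≤ R2 + 2 * u ^ 4),
      mul_nonneg (by linarith [hul.2] : (0 : ℝ) ≤ 1 - u) (by linarith [h7.1] : (0 : ℝ) ≤ R1 + 2 * u ^ 4)]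
  · nlinarith [mul_nonneg (by linarith [hul.1] : (0 : ℝ) ≤ 1 + u) (by linarith [h8.2] : (0 : ℝ) ≤ 2 * u ^ 4 - R2),
      mul_nonneg (by linarith [hul.2] : (0 : ℝ) ≤ 1 - u) (by linarith [h7.2] : (0 : ℝ) ≤ 2 * u ^ 4 - R1)]

/-- the filter of the pairs `(k, o)` with `|2 o - k| ≤ K √k` and `k → ∞` -/
def BL_F (K : ℝ) : Filter (ℕ × ℕ) :=
  comap Prod.fst atTop ⊓ 𝓟 {p | |2 * (p.2 : ℝ) - p.1| ≤ K * Real.sqrt p.1}

theorem BL_tk (K : ℝ) : Tendsto (fun p : ℕ × ℕ => p.1) (BL_F K) atTop :=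
  tendsto_comap.mono_left inf_le_left

theorem BL_S (K : ℝ) : ∀ᶠ p in BL_F K, |2 * (p.2 : ℝ) - p.1| ≤ K * Real.sqrt p.1 :=
  (mem_principal_self _ : _ ∈ 𝓟 {p : ℕ × ℕ | |2 * (p.2 : ℝ) - p.1| ≤ K * Real.sqrt p.1}) |>
    mem_inf_of_right

/-- the main region -/
theorem BL_reg (K : ℝ) : ∀ᶠ p in BL_F K, 1 ≤ p.1 ∧ p.2 ≤ p.1 ∧ (p.1 : ℝ) ≤ 4 * p.2 ∧
    (p.1 : ℝ) ≤ 4 * ((p.1 - p.2 : ℕ) : ℝ) ∧ 1 ≤ p.2 ∧ 1 ≤ p.1 - p.2 := by
  have h1 : ∀ᶠ p in BL_F K, 4 * K ^ 2 + 1 ≤ (p.1 : ℝ) :=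
    (tendsto_natCast_atTop_atTop.comp (BL_tk K)).eventually_ge_atTop _
  filter_upwards [h1, BL_S K] with p hp hS
  obtain ⟨k, o⟩ := p
  simp only at hp hS ⊢
  have hk1 : (1 : ℝ) ≤ k := by nlinarith [sq_nonneg K]
  have hk0 : (0 : ℝ) < k := by linarith
  have hKs : K * Real.sqrt k ≤ k / 2 := by
    have h2 : 2 * K ≤ Real.sqrt k := by
      apply Real.le_sqrt_of_sq_le
      nlinarith
    have h3 : Real.sqrt k * Real.sqrt k = k := Real.mul_self_sqrt hk0.le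
    nlinarith [Real.sqrt_nonneg (k : ℝ)]
  have hS' := abs_le.mp (hS.trans hKs)
  have hok : (o : ℝ) ≤ k := by linarith [hS'.2]
  have hok' : o ≤ k := by exact_mod_cast hok
  have hsub : ((k - o : ℕ) : ℝ) = k - o := by push_cast [hok']; ring
  refine ⟨by exact_mod_cast hk1, hok', by linarith [hS'.1], by rw [hsub]; linarith [hS'.2], ?_, ?_⟩
  · have : (0 : ℝ) < o := by linarith [hS'.1]
    exact_mod_cast this
  · have : (0 : ℝ) < ((k - o : ℕ) : ℝ) := by rw [hsub]; linarith [hS'.2]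
    exact_mod_cast this

theorem BL_to (K : ℝ) : Tendsto (fun p : ℕ × ℕ => p.2) (BL_F K) atTop := by
  rw [tendsto_atTop]
  intro b
  filter_upwards [BL_reg K, (BL_tk K).eventually_ge_atTop (4 * b)] with p hp hb
  have h1 : ((4 * b : ℕ) : ℝ) ≤ 4 * p.2 := le_trans (by exact_mod_cast hb) hp.2.2.1
  have h2 : (4 * b : ℕ) ≤ 4 * p.2 := by exact_mod_cast h1
  omega

theorem BL_tm (K : ℝ) : Tendsto (fun p : ℕ × ℕ => p.1 - p.2) (BL_F K) atTop := by
  rw [tendsto_atTop]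
  intro b
  filter_upwards [BL_reg K, (BL_tk K).eventually_ge_atTop (4 * b)] with p hp hb
  have h1 : ((4 * b : ℕ) : ℝ) ≤ 4 * ((p.1 - p.2 : ℕ) : ℝ) :=
    le_trans (by exact_mod_cast hb) hp.2.2.2.1
  have h2 : (4 * b : ℕ) ≤ 4 * (p.1 - p.2) := by exact_mod_cast h1
  omega

theorem BL_P (K : ℝ) : Tendsto (fun p : ℕ × ℕ => Real.sqrt Real.pi * Stirling.stirlingSeq p.1 /
    (Stirling.stirlingSeq p.2 * Stirling.stirlingSeq (p.1 - p.2))) (BL_F K) (𝓝 1) := by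
  have h := Stirling.tendsto_stirlingSeq_sqrt_pi
  have h1 := h.comp (BL_tk K)
  have h2 := h.comp (BL_to K)
  have h3 := h.comp (BL_tm K)
  have hp : Real.sqrt Real.pi ≠ 0 := (Real.sqrt_pos.mpr Real.pi_pos).ne'
  have h4 := (tendsto_const_nhds (x := Real.sqrt Real.pi)).mul h1 |>.div (h2.mul h3)
    (mul_ne_zero hp hp)
  rw [div_self (mul_ne_zero hp hp)] at h4
  exact h4

/-- `u = (2 o - k) / k` tends to zero, and `k u ^ 4` too -/
theorem BL_u (K : ℝ) : Tendsto (fun p : ℕ × ℕ => ((2 * (p.2 : ℝ) - p.1) / p.1)) (BL_F K) (𝓝 0) := by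
  have h1 : Tendsto (fun p : ℕ × ℕ => |K| / Real.sqrt p.1) (BL_F K) (𝓝 0) := by
    apply Tendsto.const_div_atTop
    exact Real.tendsto_sqrt_atTop.comp (tendsto_natCast_atTop_atTop.comp (BL_tk K))
  rw [tendsto_zero_iff_abs_tendsto_zero]
  refine tendsto_of_tendsto_of_tendsto_of_le_of_le' tendsto_const_nhds h1
    (Eventually.of_forall fun _ => abs_nonneg _) ?_
  filter_upwards [BL_S K, BL_reg K] with p hp hr
  have hk0 : (0 : ℝ) < p.1 := by exact_mod_cast hr.1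
  have hs : 0 < Real.sqrt (p.1 : ℝ) := Real.sqrt_pos.mpr hk0
  simp only [Function.comp_apply]
  rw [abs_div, abs_of_pos hk0, div_le_div_iff₀ hk0 hs]
  calc |2 * (p.2 : ℝ) - p.1| * Real.sqrt p.1 ≤ (K * Real.sqrt p.1) * Real.sqrt p.1 := by gcongr
    _ = K * p.1 := by rw [mul_assoc, Real.mul_self_sqrt hk0.le]
    _ ≤ |K| * p.1 := by gcongr; exact le_abs_self K

theorem BL_Q (K : ℝ) : Tendsto (fun p : ℕ × ℕ => (p.1 : ℝ) /
    (2 * Real.sqrt (p.2 * (p.1 - p.2 : ℕ)))) (BL_F K) (𝓝 1) := by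
  have h1 : Tendsto (fun p : ℕ × ℕ => 1 / Real.sqrt (1 - ((2 * (p.2 : ℝ) - p.1) / p.1) ^ 2))
      (BL_F K) (𝓝 (1 / Real.sqrt (1 - 0 ^ 2))) := by
    apply Tendsto.div tendsto_const_nhds
    · exact (Real.continuous_sqrt.tendsto _).comp (tendsto_const_nhds.sub ((BL_u K).pow 2))
    · norm_num
  have h2 : (1 : ℝ) / Real.sqrt (1 - 0 ^ 2) = 1 := by norm_num
  rw [h2] at h1
  refine h1.congr' ?_
  filter_upwards [BL_reg K] with p hr
  have hk0 : (0 : ℝ) < p.1 := by exact_mod_cast hr.1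
  have hsub : ((p.1 - p.2 : ℕ) : ℝ) = p.1 - p.2 := by push_cast [hr.2.1]; ring
  have e : 1 - ((2 * (p.2 : ℝ) - p.1) / p.1) ^ 2 = (2 / p.1) ^ 2 * (p.2 * (p.1 - p.2 : ℕ)) := by
    rw [hsub]
    field_simp
    ring
  rw [e, Real.sqrt_mul (by positivity), Real.sqrt_sq (by positivity)]
  have hom : 0 < Real.sqrt ((p.2 : ℝ) * (p.1 - p.2 : ℕ)) := by
    apply Real.sqrt_pos.mpr
    have a1 : (0 : ℝ) < p.2 := by exact_mod_cast hr.2.2.2.2.1
    have a2 : (0 : ℝ) < (p.1 - p.2 : ℕ) := by exact_mod_cast hr.2.2.2.2.2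
    positivity
  field_simp

theorem BL_T (K : ℝ) : Tendsto (fun p : ℕ × ℕ =>
    (p.2 * Real.log (2 * p.2 / p.1) + (p.1 - p.2 : ℕ) * Real.log (2 * (p.1 - p.2 : ℕ) / p.1)) -
      (2 * (p.2 : ℝ) - p.1) ^ 2 / (2 * p.1)) (BL_F K) (𝓝 0) := by
  have h1 : Tendsto (fun p : ℕ × ℕ => 5 / 2 * K ^ 4 / (p.1 : ℝ)) (BL_F K) (𝓝 0) := by
    apply Tendsto.const_div_atTop
    exact tendsto_natCast_atTop_atTop.comp (BL_tk K)
  rw [tendsto_zero_iff_abs_tendsto_zero]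
  refine tendsto_of_tendsto_of_tendsto_of_le_of_le' tendsto_const_nhds h1
    (Eventually.of_forall fun _ => abs_nonneg _) ?_
  have hu : ∀ᶠ p in BL_F K, |(2 * (p.2 : ℝ) - p.1) / p.1| ≤ 1 / 2 := by
    have := (BL_u K).abs
    rw [abs_zero] at this
    exact (this.eventually (gt_mem_nhds (by norm_num : (0 : ℝ) < 1 / 2))).mono fun _ h => le_of_lt h
  filter_upwards [BL_S K, BL_reg K, hu] with p hp hr hu
  have hk0 : (0 : ℝ) < p.1 := by exact_mod_cast hr.1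
  have hsub : ((p.1 - p.2 : ℕ) : ℝ) = p.1 - p.2 := by push_cast [hr.2.1]; ring
  set u := (2 * (p.2 : ℝ) - p.1) / p.1 with hudef
  have e1 : 2 * (p.2 : ℝ) / p.1 = 1 + u := by rw [hudef]; field_simp; ring
  have e2 : 2 * ((p.1 - p.2 : ℕ) : ℝ) / p.1 = 1 - u := by rw [hudef, hsub]; field_simp; ring
  have e3 : (p.2 : ℝ) = p.1 / 2 * (1 + u) := by rw [← e1]; field_simp
  have e4 : ((p.1 - p.2 : ℕ) : ℝ) = p.1 / 2 * (1 - u) := by rw [← e2]; field_simp
  have e5 : (2 * (p.2 : ℝ) - p.1) ^ 2 / (2 * p.1) = p.1 / 2 * u ^ 2 := by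
    rw [hudef]; field_simp
  simp only [Function.comp_apply]
  rw [e1, e2, e5]
  have e6 : (p.2 : ℝ) * Real.log (1 + u) + ((p.1 - p.2 : ℕ) : ℝ) * Real.log (1 - u) -
      p.1 / 2 * u ^ 2 = p.1 / 2 * ((1 + u) * Real.log (1 + u) + (1 - u) * Real.log (1 - u) -
        u ^ 2) := by
    rw [e4]
    conv_lhs => rw [e3]
    ring
  rw [e6, abs_mul, abs_of_pos (by positivity)]
  have h5 := BL_entropy u hu
  have hx4 : (2 * (p.2 : ℝ) - p.1) ^ 4 ≤ K ^ 4 * (p.1 : ℝ) ^ 2 := by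
    have h6 : |2 * (p.2 : ℝ) - p.1| ^ 4 ≤ (K * Real.sqrt p.1) ^ 4 :=
      pow_le_pow_left₀ (abs_nonneg _) hp 4
    have h7 : |2 * (p.2 : ℝ) - p.1| ^ 4 = (2 * (p.2 : ℝ) - p.1) ^ 4 := by
      rw [show (4 : ℕ) = 2 * 2 from rfl, pow_mul, pow_mul, sq_abs]
    have h8 : (K * Real.sqrt p.1) ^ 4 = K ^ 4 * (p.1 : ℝ) ^ 2 := by
      rw [mul_pow]
      congr 1
      rw [show (4 : ℕ) = 2 * 2 from rfl, pow_mul, Real.sq_sqrt hk0.le]
    rw [h7, h8] at h6
    exact h6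
  calc (p.1 : ℝ) / 2 * |(1 + u) * Real.log (1 + u) + (1 - u) * Real.log (1 - u) - u ^ 2|
      ≤ p.1 / 2 * (5 * u ^ 4) := by gcongr
    _ = 5 / 2 * ((2 * (p.2 : ℝ) - p.1) ^ 4 / p.1 ^ 3) := by
        rw [hudef]; field_simp
    _ ≤ 5 / 2 * (K ^ 4 * (p.1 : ℝ) ^ 2 / p.1 ^ 3) := by gcongr
    _ = 5 / 2 * K ^ 4 / p.1 := by field_simp

/-- LT-BL: de Moivre-Laplace, local form -/
theorem binom_local : ∀ K eps : ℝ, 0 < eps → ∃ k0 : ℕ, ∀ k o : ℕ, k0 ≤ k →
    |2 * (o : ℝ) - k| ≤ K * Real.sqrt k →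
    |Real.sqrt (Real.pi * k / 2) * (k.choose o : ℝ) / 2 ^ k -
      Real.exp (-(2 * (o : ℝ) - k) ^ 2 / (2 * k))| ≤ eps := by
  intro K eps heps
  have hT := ((Real.continuous_exp.tendsto _).comp (BL_T K).neg)
  have hall := ((BL_P K).mul (BL_Q K)).mul hT
  rw [neg_zero, Real.exp_zero, mul_one, mul_one] at hall
  have h1 : ∀ᶠ p in BL_F K, |Real.sqrt (Real.pi * p.1 / 2) * (p.1.choose p.2 : ℝ) / 2 ^ p.1 -
      Real.exp (-(2 * (p.2 : ℝ) - p.1) ^ 2 / (2 * p.1))| ≤ eps := by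
    have h2 := (hall.sub_const 1).abs
    rw [sub_self, abs_zero] at h2
    have h3 := h2.eventually (gt_mem_nhds heps)
    filter_upwards [h3, BL_reg K] with p hp hr
    have hk0 : (0 : ℝ) < p.1 := by exact_mod_cast hr.1
    rw [BL_exact p.1 p.2 (p.1 - p.2) (by omega) hr.2.2.2.2.1 hr.2.2.2.2.2]
    simp only [Function.comp_apply] at hp
    set PQ := Real.sqrt Real.pi * Stirling.stirlingSeq p.1 /
        (Stirling.stirlingSeq p.2 * Stirling.stirlingSeq (p.1 - p.2)) *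
        ((p.1 : ℝ) / (2 * Real.sqrt (p.2 * (p.1 - p.2 : ℕ)))) with hPQ
    set X := (2 * (p.2 : ℝ) - p.1) ^ 2 / (2 * p.1) with hX
    set Y := (p.2 : ℝ) * Real.log (2 * p.2 / p.1) +
      ((p.1 - p.2 : ℕ) : ℝ) * Real.log (2 * (p.1 - p.2 : ℕ) / p.1) with hY
    have e1 : -(2 * (p.2 : ℝ) - p.1) ^ 2 / (2 * p.1) = -X := by rw [hX]; ring
    have e2 : Real.exp (-Y) = Real.exp (-(Y - X)) * Real.exp (-X) := by
      rw [← Real.exp_add]; congr 1; ring
    rw [e1, e2]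
    have e3 : PQ * (Real.exp (-(Y - X)) * Real.exp (-X)) - Real.exp (-X) =
        (PQ * Real.exp (-(Y - X)) - 1) * Real.exp (-X) := by ring
    rw [e3, abs_mul, Real.abs_exp]
    have hX0 : 0 ≤ X := by rw [hX]; positivity
    have h4 : Real.exp (-X) ≤ 1 := Real.exp_le_one_iff.mpr (by linarith)
    calc |PQ * Real.exp (-(Y - X)) - 1| * Real.exp (-X)
        ≤ |PQ * Real.exp (-(Y - X)) - 1| * 1 := by gcongr
      _ ≤ eps := by rw [mul_one]; exact hp.le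
  rw [BL_F, eventually_inf_principal, eventually_comap] at h1
  obtain ⟨k0, hk0⟩ := eventually_atTop.mp h1
  exact ⟨k0, fun k o hk hko => hk0 k hk (k, o) rfl hko⟩

theorem binom_local' : ∀ K eps : ℝ, 0 < eps → ∃ k0 : ℕ, ∀ k o : ℕ, k0 ≤ k →
    |2 * (o : ℝ) - k| ≤ K * Real.sqrt k → 0 < (k.choose o : ℝ) := by
  intro K eps _
  have h1 := (BL_reg K).mono fun p hp => hp.2.1
  rw [BL_F, eventually_inf_principal, eventually_comap] at h1
  obtain ⟨k0, hk0⟩ := eventually_atTop.mp h1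
  refine ⟨k0, fun k o hk hko => ?_⟩
  exact_mod_cast Nat.choose_pos (hk0 k hk (k, o) rfl hko)

end Pool.Agent.H499R2.LT
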