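import Pool.Agent.H499R2.LT.Defs

/-! Project LT, task A: words, graded families, hits. -/

set_option autoImplicit false

namespace Pool.Agent.H499R2.LT

open Pool.Agent.H320R2.PD Finset Filter Topology

open Pool.Agent.H499R2.ND hiding La Ea Me FC

open Pool.Agent.H499R2.CZ

open Pool.Agent.H319R2.Lln (mu)

theorem od_add (d : ℤ) (j i : ℕ) (x : ℤ) : od d (j + i) x = od d j x + od d i ((Td d)^[j] x) := by
  induction j generalizing x with
  | zero => rw [Nat.zero_add, Function.iterate_zero, id_eq, od, zero_add]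
  | succ j ih =>
    rw [show j + 1 + i = (j + i) + 1 by omega, od, od, ih, Function.iterate_succ_apply, add_assoc]

theorem lta_od_two_pow (d : ℤ) (e : ℕ) (x : ℤ) : od d e (2 ^ e * x) = 0 := by
  induction e with
  | zero => rw [od]
  | succ e ih =>
    have h1 : (2 : ℤ) ^ (e + 1) * x = 2 * (2 ^ e * x) := by ring
    have h2 : Td d (2 ^ (e + 1) * x) = 2 ^ e * x := by rw [h1, Td_two]
    rw [od, h2, ih, h1, if_pos (by omega)]
    rfl

/-- the word is the trajectory -/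
theorem word_od {d : ℤ} (hd : Odd d) {w : List ℕ} (hw : ∀ a ∈ w, 1 ≤ a) {M x : ℤ} (hM : Odd M)
    (hx : Odd x) (h : Vw d w M x) : (Td d)^[w.sum] M = x ∧ od d w.sum M = w.length := by
  refine ⟨iter_word hd w hw M x hM hx h, ?_⟩
  induction w using List.reverseRecOn generalizing M x with
  | nil => simp [od]
  | append_singleton u e ih =>
    have hu : ∀ a ∈ u, 1 ≤ a := fun a ha => hw a (by simp [ha])
    obtain ⟨M₁, hM₁, h1, h2⟩ := Vw_snoc hd hu hx h
    have h3 := ih hu hM₁ hx h2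
    have he : 1 ≤ e := hw e (by simp)
    obtain ⟨e', rfl⟩ : ∃ e', e = e' + 1 := ⟨e - 1, by omega⟩
    have h4 : Td d M = 2 ^ e' * M₁ := Td_odd hM (by rw [h1, pow_succ]; ring)
    have h5 : (Td d)^[e' + 1] M = M₁ := by rw [Function.iterate_succ_apply, h4, Td_two_pow]
    have h6 : ¬ M % 2 = 0 := by
      obtain ⟨t, ht⟩ := hM
      omega
    rw [List.sum_append, List.sum_singleton, Nat.add_comm u.sum, od_add, h5, h3, od, if_neg h6, h4,
      lta_od_two_pow, List.length_append, List.length_singleton, Nat.cast_add, Nat.cast_one]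
    ring

theorem RF_FC (d : ℤ) (F : Finset ℤ) : FC d (RF d F) := by
  rintro x ⟨a, ha, j, rfl⟩
  exact ⟨a, ha, j + 1, Function.iterate_succ_apply' _ _ _⟩

theorem RF_sub (d : ℤ) {F : Finset ℤ} {a : ℤ} (ha : a ∈ F) : a ∈ RF d F := ⟨a, ha, 0, rfl⟩

theorem lta_FC_iter {d : ℤ} {R : Set ℤ} (hR : FC d R) {y : ℤ} (hy : y ∈ R) (i : ℕ) :
    (Td d)^[i] y ∈ R := by
  induction i with
  | zero => exact hy
  | succ i ih => rw [Function.iterate_succ_apply']; exact hR _ ih

theorem lta_GF_iter {d : ℤ} {R : Set ℤ} {S : ℤ → ℤ → Set ℤ} (hS : GF d R S) (i : ℕ) :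
    ∀ (M k o : ℤ), (∀ j < i, (Td d)^[j] M ∉ R) →
      (M ∈ S k o ↔ (Td d)^[i] M ∈ S (k - i) (o - od d i M)) := by
  induction i with
  | zero =>
    intro M k o _
    rw [od, Nat.cast_zero, sub_zero, sub_zero, Function.iterate_zero, id_eq]
  | succ i ih =>
    intro M k o h
    have h0 : M ∉ R := h 0 (Nat.succ_pos i)
    have h1 : ∀ j < i, (Td d)^[j] (Td d M) ∉ R := by
      intro j hj
      have := h (j + 1) (by omega)
      rwa [Function.iterate_succ_apply] at this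
    rw [hS k o M h0, ih (Td d M) _ _ h1, Function.iterate_succ_apply, od]
    have h2 : k - 1 - (i : ℤ) = k - ((i + 1 : ℕ) : ℤ) := by push_cast; ring
    have h3 : o - (if M % 2 = 0 then 0 else 1) - od d i (Td d M) =
        o - ((if M % 2 = 0 then 0 else 1) + od d i (Td d M)) := by ring
    rw [h2, h3]

/-- graded families and words -/
theorem GF_word {d : ℤ} (hd : Odd d) {R : Set ℤ} (hR : FC d R) {S : ℤ → ℤ → Set ℤ} (hS : GF d R S)
    {w : List ℕ} (hw : ∀ a ∈ w, 1 ≤ a) {M x : ℤ} (hM : Odd M) (hx : Odd x) (h : Vw d w M x) (k o : ℤ) :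
    (M ∈ S k o → x ∈ S (k - w.sum) (o - w.length) ∪ R) ∧
    (M ∉ S k o → x ∈ (S (k - w.sum) (o - w.length))ᶜ ∪ R) := by
  obtain ⟨h1, h2⟩ := word_od hd hw hM hx h
  by_cases hc : ∀ j < w.sum, (Td d)^[j] M ∉ R
  · have h3 := lta_GF_iter hS w.sum M k o hc
    rw [h1, h2] at h3
    exact ⟨fun h4 => Or.inl (h3.1 h4), fun h4 => Or.inl fun h5 => h4 (h3.2 h5)⟩
  · push Not at hc
    obtain ⟨j, hj, hjR⟩ := hc
    have h3 := lta_FC_iter hR hjR (w.sum - j)
    rw [← Function.iterate_add_apply, Nat.sub_add_cancel hj.le, h1] at h3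
    exact ⟨fun _ => Or.inr h3, fun _ => Or.inr h3⟩

theorem lta_Hit_succ {d : ℤ} {F : Finset ℤ} {f x : ℤ} {j : ℕ} :
    Hit d F f x (j + 1) ↔ x ∉ F ∧ Hit d F f (Td d x) j := by
  unfold Hit
  rw [Function.iterate_succ_apply]
  constructor
  · rintro ⟨h1, h2, h3⟩
    refine ⟨h3 0 (Nat.succ_pos j), h1, h2, ?_⟩
    intro i hi
    have := h3 (i + 1) (by omega)
    rwa [Function.iterate_succ_apply] at this
  · rintro ⟨h0, h1, h2, h3⟩
    refine ⟨h1, h2, ?_⟩
    intro i hi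
    rcases i with _ | i
    · exact h0
    · rw [Function.iterate_succ_apply]
      exact h3 i (by omega)

theorem GF_SF (d : ℤ) (F : Finset ℤ) (f : ℤ) : GF d (RF d F) (SF d F f) := by
  intro k o x hx
  have hxF : x ∉ F := fun h => hx (RF_sub d h)
  constructor
  · rintro ⟨j, hj, hH, ho⟩
    rcases j with _ | j
    · exact absurd (by rw [← hH.1] at hH; exact hH.2.1) hxF
    · refine ⟨j, ?_, (lta_Hit_succ.1 hH).2, ?_⟩
      · push_cast at hj
        linarith
      · rw [od] at ho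
        rw [← ho]
        ring
  · rintro ⟨j, hj, hH, ho⟩
    refine ⟨j + 1, ?_, lta_Hit_succ.2 ⟨hxF, hH⟩, ?_⟩
    · push_cast
      linarith
    · rw [od, ho]
      ring

theorem AI_PF (d : ℤ) (F : Finset ℤ) (f : ℤ) : AI d (RF d F) (PF d F f) := by
  intro x hx
  have hxF : x ∉ F := fun h => hx (RF_sub d h)
  constructor
  · rintro ⟨j, hH⟩
    rcases j with _ | j
    · exact absurd (by rw [← hH.1] at hH; exact hH.2.1) hxF
    · exact ⟨j, (lta_Hit_succ.1 hH).2⟩
  · rintro ⟨j, hH⟩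
    exact ⟨j + 1, lta_Hit_succ.2 ⟨hxF, hH⟩⟩

/-- hits are unique -/
theorem Hit_unique {d : ℤ} {F : Finset ℤ} {f g x : ℤ} {i j : ℕ} (h : Hit d F f x i) (h' : Hit d F g x j) :
    f = g ∧ i = j := by
  have hij : i = j := by
    rcases lt_trichotomy i j with h1 | h1 | h1
    · exact absurd (h.1 ▸ h.2.1) (h'.2.2 i h1)
    · exact h1
    · exact absurd (h'.1 ▸ h'.2.1) (h.2.2 j h1)
  refine ⟨?_, hij⟩
  rw [← h.1, ← h'.1, hij]

theorem lta_Hit_shift {d : ℤ} {F : Finset ℤ} {f x : ℤ} {i j : ℕ} (h : Hit d F f x j) (hij : i ≤ j) :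
    Hit d F f ((Td d)^[i] x) (j - i) := by
  refine ⟨?_, h.2.1, ?_⟩
  · rw [← Function.iterate_add_apply, Nat.sub_add_cancel hij]
    exact h.1
  · intro l hl
    rw [← Function.iterate_add_apply]
    exact h.2.2 (l + i) (by omega)

/-- splitting a hit at the first visit to a larger set -/
theorem hit_split {d : ℤ} {F F' : Finset ℤ} (hFF : F ⊆ F') {f x : ℤ} {j : ℕ} (h : Hit d F f x j) :
    ∃ i ≤ j, ∃ g ∈ F', Hit d F' g x i ∧ Hit d F f g (j - i) := by
  classical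
  have hex : ∃ i, (Td d)^[i] x ∈ F' := ⟨j, by rw [h.1]; exact hFF h.2.1⟩
  have hle : Nat.find hex ≤ j := Nat.find_min' hex (by rw [h.1]; exact hFF h.2.1)
  exact ⟨Nat.find hex, hle, (Td d)^[Nat.find hex] x, Nat.find_spec hex,
    ⟨rfl, Nat.find_spec hex, fun i hi => Nat.find_min hex hi⟩, lta_Hit_shift h hle⟩

theorem hit_join {d : ℤ} {F F' : Finset ℤ} (hFF : F ⊆ F') {f g x : ℤ} {i j : ℕ} (h : Hit d F' g x i)
    (h' : Hit d F f g j) : Hit d F f x (i + j) := by
  refine ⟨?_, h'.2.1, ?_⟩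
  · rw [Nat.add_comm, Function.iterate_add_apply, h.1]
    exact h'.1
  · intro l hl
    rcases lt_or_ge l i with h1 | h1
    · exact fun h2 => h.2.2 l h1 (hFF h2)
    · have h3 := h'.2.2 (l - i) (by omega)
      rwa [← h.1, ← Function.iterate_add_apply, Nat.sub_add_cancel h1] at h3

theorem lta_RF_of_hit {d : ℤ} {F : Finset ℤ} {f M x : ℤ} {j n : ℕ} (hit : (Td d)^[n] M = x)
    (hH : Hit d F f M j) (hj : j < n) : x ∈ RF d F := by
  refine ⟨f, hH.2.1, n - j, ?_⟩
  rw [← hH.1, ← Function.iterate_add_apply, Nat.sub_add_cancel hj.le, hit]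

theorem LF_word {d : ℤ} (hd : Odd d) {F : Finset ℤ} {f s : ℤ} {w : List ℕ} (hw : ∀ a ∈ w, 1 ≤ a)
    {M x : ℤ} (hM : Odd M) (hx : Odd x) (hMS : M ∈ LF d F f s) (h : Vw d w M x) :
    x ∈ LF d F f (s - w.sum) ∪ RF d F := by
  have hit := iter_word hd w hw M x hM hx h
  obtain ⟨⟨j, hH⟩, hE⟩ := hMS
  rcases le_or_gt w.sum j with h1 | h1
  · left
    have h2 := lta_Hit_shift hH h1
    rw [hit] at h2
    refine ⟨⟨_, h2⟩, ?_⟩
    rintro ⟨j', hj', hH'⟩
    have h3 := (Hit_unique h2 hH').2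
    exact hE ⟨j, by omega, hH⟩
  · right
    exact lta_RF_of_hit hit hH h1

theorem EF_word {d : ℤ} (hd : Odd d) {F : Finset ℤ} {f s : ℤ} {w : List ℕ} (hw : ∀ a ∈ w, 1 ≤ a)
    {M x : ℤ} (hM : Odd M) (hx : Odd x) (hMS : M ∈ EF d F f s) (h : Vw d w M x) :
    x ∈ EF d F f (s - w.sum) ∪ RF d F := by
  have hit := iter_word hd w hw M x hM hx h
  obtain ⟨j, hj, hH⟩ := hMS
  rcases le_or_gt w.sum j with h1 | h1
  · left
    have h2 := lta_Hit_shift hH h1
    rw [hit] at h2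
    exact ⟨_, by omega, h2⟩
  · right
    exact lta_RF_of_hit hit hH h1

end Pool.Agent.H499R2.LT
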