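import Pool.Agent.H499R2.LT.Defs
import Pool.Agent.H319R2.GTk

/-! Project LT, task B0: finite unions of trajectories are very sparse. -/

set_option autoImplicit false

namespace Pool.Agent.H499R2.LT

open Pool.Agent.H320R2.PD Finset Filter Topology

open Pool.Agent.H499R2.ND hiding La Ea Me FC

open Pool.Agent.H499R2.CZ

open Pool.Agent.H319R2.Lln (mu)

namespace B0

theorem log3_small : Real.log 3 ≤ 1.12 := by
  have h1 := log3_le
  have h2 := Real.log_two_lt_d9
  linarith

/-- the elementary inequality behind the sparsity -/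
theorem real_ineq (B : ℕ) {t m : ℝ} (ht : 1 ≤ t) (hm0 : 0 ≤ m) (hm : m ^ 2 ≤ t) :
    t ^ B * (Real.exp (0.951 * t) * Real.exp (m * Real.log 3)) ≤
      (B.factorial * 100 ^ B * Real.exp 40) * Real.exp t := by
  have h1 : t ^ B ≤ (B.factorial * 100 ^ B) * Real.exp (0.01 * t) := by
    have h := Real.pow_div_factorial_le_exp (0.01 * t) (by positivity) B
    rw [div_le_iff₀ (by positivity)] at h
    have e : t ^ B = 100 ^ B * (0.01 * t) ^ B := by
      rw [← mul_pow]; congr 1; ring
    rw [e]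
    calc 100 ^ B * (0.01 * t) ^ B ≤ 100 ^ B * (Real.exp (0.01 * t) * B.factorial) :=
          mul_le_mul_of_nonneg_left h (by positivity)
      _ = _ := by ring
  have h2 : m * Real.log 3 ≤ 0.03 * t + 40 := by
    have h3 := log3_small
    have h4 : m * Real.log 3 ≤ m * 1.12 := mul_le_mul_of_nonneg_left h3 hm0
    nlinarith [sq_nonneg (m - 20)]
  calc t ^ B * (Real.exp (0.951 * t) * Real.exp (m * Real.log 3))
      ≤ ((B.factorial * 100 ^ B) * Real.exp (0.01 * t)) *
          (Real.exp (0.951 * t) * Real.exp (0.03 * t + 40)) := by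
        apply mul_le_mul h1 _ (by positivity) (by positivity)
        exact mul_le_mul_of_nonneg_left (Real.exp_le_exp.mpr h2) (Real.exp_pos _).le
    _ = (B.factorial * 100 ^ B) * Real.exp (0.991 * t + 40) := by
        rw [← Real.exp_add, mul_assoc, ← Real.exp_add]
        congr 2; ring
    _ ≤ (B.factorial * 100 ^ B) * Real.exp (40 + t) := by
        apply mul_le_mul_of_nonneg_left _ (by positivity)
        apply Real.exp_le_exp.mpr
        linarith
    _ = (B.factorial * 100 ^ B * Real.exp 40) * Real.exp t := by rw [Real.exp_add]; ring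

theorem T_eq (d : ℤ) : Pool.Agent.H319R2.Tk.T d = Td d := rfl

/-- counting the elements of finitely many trajectories -/
theorem count {d : ℤ} (hd : Odd d) (F : Finset ℤ) :
    ∃ K : ℝ, 0 ≤ K ∧ ∀ A : ℝ, 0 < A → 1 ≤ Real.log A → ∀ E : Finset ℤ,
      (∀ y ∈ E, A ≤ (y : ℝ) ∧ (y : ℝ) < 2 * A ∧ y ∈ RF d F) →
      (E.card : ℝ) ≤ K * Real.exp (0.951 * Real.log A) := by
  classical
  obtain ⟨B, hB, hsp⟩ := Pool.Agent.H319R2.Tk.sparse 0.951 Pool.Agent.H319R2.beta_lt (by norm_num)
  have hd2 : d % 2 = 1 := by obtain ⟨e, he⟩ := hd; omega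
  refine ⟨F.card * (B * |(d : ℝ)| ^ (1 - 0.951 : ℝ) * 2), by positivity, ?_⟩
  intro A hA hlA E hE
  have hA1 : 1 ≤ A := by
    by_contra hc
    push Not at hc
    have := Real.log_nonpos hA.le hc.le
    linarith
  have h2 : (2 * A) ^ (0.951 : ℝ) ≤ 2 * Real.exp (0.951 * Real.log A) := by
    rw [Real.mul_rpow (by norm_num) hA.le]
    have h3 : (2 : ℝ) ^ (0.951 : ℝ) ≤ 2 := by
      calc (2 : ℝ) ^ (0.951 : ℝ) ≤ 2 ^ (1 : ℝ) :=
            Real.rpow_le_rpow_of_exponent_le (by norm_num) (by norm_num)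
        _ = 2 := Real.rpow_one 2
    have h4 : A ^ (0.951 : ℝ) = Real.exp (0.951 * Real.log A) := by
      rw [Real.rpow_def_of_pos hA, mul_comm]
    rw [h4]
    exact mul_le_mul_of_nonneg_right h3 (Real.exp_pos _).le
  have hone : ∀ a ∈ F, (((E.filter fun y => ∃ j : ℕ, (Td d)^[j] a = y).card : ℕ) : ℝ) ≤
      (B * |(d : ℝ)| ^ (1 - 0.951 : ℝ) * 2) * Real.exp (0.951 * Real.log A) := by
    intro a _
    set Ea := E.filter fun y => ∃ j : ℕ, (Td d)^[j] a = y with hEa
    obtain ⟨r, hinj, hr⟩ := Pool.Agent.H319R2.G.finite_subset_path (Td d) a Ea (by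
      intro y hy
      rw [hEa, mem_filter] at hy
      exact hy.2)
    have h1 := hsp d hd2 _ (Pool.Agent.H319R2.G.tame_path (Td d) a r hinj) (2 * A) (by linarith) Ea (by
      intro y hy
      obtain ⟨i, hi, he⟩ := hr y hy
      rw [hEa, mem_filter] at hy
      obtain ⟨g1, g2, _⟩ := hE y hy.1
      refine ⟨⟨i, hi, he⟩, ?_⟩
      rw [abs_of_nonneg (by linarith)]
      exact g2.le)
    refine h1.trans ?_
    calc B * |(d : ℝ)| ^ (1 - 0.951 : ℝ) * (2 * A) ^ (0.951 : ℝ)
        ≤ B * |(d : ℝ)| ^ (1 - 0.951 : ℝ) * (2 * Real.exp (0.951 * Real.log A)) :=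
          mul_le_mul_of_nonneg_left h2 (by positivity)
      _ = _ := by ring
  have hsub : E ⊆ F.biUnion fun a => E.filter fun y => ∃ j : ℕ, (Td d)^[j] a = y := by
    intro y hy
    obtain ⟨_, _, a, ha, hj⟩ := hE y hy
    rw [mem_biUnion]
    exact ⟨a, ha, by rw [mem_filter]; exact ⟨hy, hj⟩⟩
  have h5 : (E.card : ℝ) ≤
      ∑ a ∈ F, (((E.filter fun y => ∃ j : ℕ, (Td d)^[j] a = y).card : ℕ) : ℝ) := by
    have := (card_le_card hsub).trans card_biUnion_le
    exact_mod_cast this
  refine h5.trans ((sum_le_sum hone).trans (le_of_eq ?_))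
  rw [sum_const, nsmul_eq_mul]
  ring

end B0

open B0

/-! ### Task LT-B0: sparsity of trajectories -/

theorem RF_SpW {d : ℤ} (hd : Odd d) (hd3 : IsCoprime d 3) (F : Finset ℤ) : SpW (RF d F) := by
  obtain ⟨K, hK, hcount⟩ := count hd F
  intro B
  set Q : ℝ := B.factorial * 100 ^ B * Real.exp 40 with hQ
  have hQ0 : 0 < Q := by positivity
  refine ⟨2 * K * Q, by positivity, ?_⟩
  intro A hA hlA
  have ht0 : 0 < Real.log A := by linarith
  have hexp : Real.exp (Real.log A) = A := Real.exp_log hA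
  have key : ∀ m : ℕ, (m : ℝ) ^ 2 ≤ Real.log A →
      Real.exp (0.951 * Real.log A) ≤ Q * A / (Real.log A ^ B * 3 ^ m) := by
    intro m hm
    have h6 := real_ineq B hlA (Nat.cast_nonneg m) hm
    have h5 : ((3 : ℝ) ^ m) = Real.exp (m * Real.log 3) := by
      rw [mul_comm, Real.exp_mul, Real.exp_log (by norm_num), Real.rpow_natCast]
    rw [← h5, hexp, ← hQ] at h6
    rw [le_div_iff₀ (by positivity)]
    calc Real.exp (0.951 * Real.log A) * (Real.log A ^ B * 3 ^ m)
        = Real.log A ^ B * (Real.exp (0.951 * Real.log A) * 3 ^ m) := by ring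
      _ ≤ _ := h6
  constructor
  · intro m hm u v hu
    have h1 := hcount A hA hlA (cls (RF d F) A (2 * A) m u v) (by
      intro y hy
      rw [mem_cls] at hy
      exact ⟨hy.1.1, hy.1.2, hy.2.2.1⟩)
    refine h1.trans ((mul_le_mul_of_nonneg_left (key m hm) hK).trans (le_of_eq ?_))
    field_simp
  · have h1 := hcount A hA hlA (wc (RF d F) A (2 * A) 1 0) (by
      intro y hy
      rw [mem_wc] at hy
      exact ⟨hy.1.1, hy.1.2, hy.2.1⟩)
    have h2 := key 0 (by simpa using ht0.le)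
    rw [pow_zero, mul_one] at h2
    refine h1.trans ((mul_le_mul_of_nonneg_left h2 hK).trans ?_)
    have e : 2 * K * Q / Real.log A ^ B * A = 2 * (K * (Q * A / Real.log A ^ B)) := by ring
    rw [e]
    have h3 : 0 ≤ K * (Q * A / Real.log A ^ B) := by positivity
    linarith

end Pool.Agent.H499R2.LT
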