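import Pool.Agent.H499R2.LT.Defs
import Pool.Agent.H319R2.GTk

/-! Project LT, task C0: the size along a trajectory. -/

set_option autoImplicit false

namespace Pool.Agent.H499R2.LT

open Pool.Agent.H320R2.PD Finset Filter Topology

open Pool.Agent.H499R2.ND hiding La Ea Me FC

open Pool.Agent.H499R2.CZ

open Pool.Agent.H319R2.Lln (mu)

namespace C0

theorem T_eq (d : ℤ) : Pool.Agent.H319R2.Tk.T d = Td d := rfl

theorem od_sum (d : ℤ) (j : ℕ) (x : ℤ) :
    od d j x = ∑ i ∈ Finset.range j, (if ((Td d)^[i] x) % 2 = 0 then (0 : ℤ) else 1) := by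
  induction j generalizing x with
  | zero => simp [od]
  | succ j ih =>
    rw [Finset.sum_range_succ', od, ih]
    simp only [Function.iterate_succ_apply, Function.iterate_zero, id_eq]
    exact add_comm _ _

theorem od_eq (d : ℤ) (j : ℕ) (x : ℤ) : ((Pool.Agent.H319R2.Tk.od d j x : ℕ) : ℤ) = od d j x := by
  rw [od_sum]
  unfold Pool.Agent.H319R2.Tk.od
  rw [Finset.card_filter]
  push_cast
  refine Finset.sum_congr rfl fun i _ => ?_
  rw [T_eq]
  rcases Int.emod_two_eq_zero_or_one ((Td d)^[i] x) with h | h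
  · rw [if_neg (by omega), if_pos h]
  · rw [if_pos h, if_neg (by omega)]

theorem ne_of_coprime {d : ℤ} (hd3 : IsCoprime d 3) : ¬ (3 : ℤ) ∣ d := by
  intro h
  have h1 : IsUnit (3 : ℤ) := hd3.isUnit_of_dvd' h dvd_rfl
  rw [Int.isUnit_iff] at h1
  omega

theorem Td_ne {d : ℤ} (hd : Odd d) (hd3 : IsCoprime d 3) {y : ℤ} (hy : y ≠ 0) : Td d y ≠ 0 := by
  have h3 := ne_of_coprime hd3
  obtain ⟨e, he⟩ := hd
  unfold Td
  split_ifs with h
  · omega
  · intro h0
    apply h3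
    omega

theorem iter_ne {d : ℤ} (hd : Odd d) (hd3 : IsCoprime d 3) {x : ℤ} (hx : x ≠ 0) (i : ℕ) :
    (Td d)^[i] x ≠ 0 := by
  induction i with
  | zero => simpa using hx
  | succ i ih => rw [Function.iterate_succ_apply']; exact Td_ne hd hd3 ih

/-- before the first hit all terms are distinct -/
theorem hit_inj {d : ℤ} {F : Finset ℤ} {f x : ℤ} {j : ℕ} (h : Hit d F f x j) :
    Set.InjOn (fun i => (Td d)^[i] x) (Set.Iio j) := by
  have key : ∀ i k : ℕ, i < k → k < j → (Td d)^[i] x ≠ (Td d)^[k] x := by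
    intro i k hik hkj he
    have h1 : (Td d)^[(j - k) + i] x = (Td d)^[(j - k) + k] x := by
      rw [Function.iterate_add_apply, Function.iterate_add_apply, he]
    rw [Nat.sub_add_cancel hkj.le, h.1] at h1
    exact h.2.2 ((j - k) + i) (by omega) (h1 ▸ h.2.1)
  intro i hi k hk he
  rcases lt_trichotomy i k with h1 | h1 | h1
  · exact absurd he (key i k h1 hk)
  · exact h1
  · exact absurd he.symm (key k i h1 hi)

end C0

open C0

/-! ### Task LT-C0: the size along a trajectory (`r` is the sum of `log (1 + d/(3y))` over the odd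
elements `y` above `Y`, which are distinct; use the sparsity of trajectories) -/

theorem path_log {d : ℤ} (hd : Odd d) (hd3 : IsCoprime d 3) : ∃ (C : ℝ) (Y0 : ℕ), 0 < C ∧ 1 ≤ Y0 ∧
    ∀ Y : ℕ, Y0 ≤ Y → ∀ (x f : ℤ) (j : ℕ), x ≠ 0 → Hit d (FY Y) f x j →
      f ≠ 0 ∧ |Real.log (x : ℝ) + od d j x * Real.log 3 - j * Real.log 2 - Real.log (f : ℝ)|
        ≤ C / (Y : ℝ) ^ (1 / 25 : ℝ) := by
  obtain ⟨A, hA0, hA⟩ := Pool.Agent.H319R2.Tk.rigid (24 / 25)
    (lt_of_lt_of_le Pool.Agent.H319R2.beta_lt (by norm_num)) (by norm_num)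
  have hd2 : d % 2 = 1 := by obtain ⟨e, he⟩ := hd; omega
  have hd0 : d ≠ 0 := by rintro rfl; simp at hd2
  have hdpos : (0 : ℝ) < |(d : ℝ)| := abs_pos.2 (by exact_mod_cast hd0)
  refine ⟨A * |(d : ℝ)| * |(d : ℝ)| ^ (1 / 25 : ℝ), 2 * d.natAbs + 1, by positivity, by omega, ?_⟩
  intro Y hY x f j hx h
  have hf : f ≠ 0 := by
    rw [← h.1]; exact iter_ne hd hd3 hx j
  refine ⟨hf, ?_⟩
  have hYpos : (0 : ℝ) < Y := by
    have : 0 < Y := by omega
    exact_mod_cast this
  have hcast : ((d.natAbs : ℕ) : ℝ) = |(d : ℝ)| := by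
    rw [Nat.cast_natAbs]; push_cast; rfl
  have hYd : 2 * |(d : ℝ)| + 1 ≤ (Y : ℝ) := by
    rw [← hcast]; exact_mod_cast hY
  have h1 := hA d hd2 x j (by rw [T_eq]; exact hit_inj h) (Y : ℝ) hYd (by
    intro i hi
    rw [T_eq]
    have h2 := h.2.2 i hi
    unfold FY at h2
    rw [Finset.mem_Icc] at h2
    have h3 : (Y : ℤ) ≤ |(Td d)^[i] x| := by
      by_contra h4
      push Not at h4
      apply h2
      rw [abs_lt] at h4
      constructor <;> linarith [h4.1, h4.2]
    exact_mod_cast h3)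
  rw [T_eq, h.1, Real.log_abs, Real.log_abs] at h1
  have h2 : ((Pool.Agent.H319R2.Tk.od d j x : ℕ) : ℝ) = ((od d j x : ℤ) : ℝ) := by
    rw [← od_eq]; push_cast; rfl
  rw [h2] at h1
  rw [abs_sub_comm] at h1
  have e1 : (od d j x : ℝ) * Real.log 3 - j * Real.log 2 - (Real.log (f : ℝ) - Real.log (x : ℝ)) =
      Real.log (x : ℝ) + od d j x * Real.log 3 - j * Real.log 2 - Real.log (f : ℝ) := by ring
  rw [e1] at h1
  refine h1.trans (le_of_eq ?_)
  rw [Real.div_rpow hdpos.le hYpos.le, show (1 : ℝ) - 24 / 25 = 1 / 25 by norm_num]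
  ring

end Pool.Agent.H499R2.LT
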