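import Pool.Agent.H499R2.LT.A
import Pool.Agent.H499R2.LT.C0

/-! Project LT, task C1: bounded residues. -/

set_option autoImplicit false

namespace Pool.Agent.H499R2.LT

open Pool.Agent.H320R2.PD Finset Filter Topology

open Pool.Agent.H499R2.ND hiding La Ea Me FC

open Pool.Agent.H499R2.CZ

open Pool.Agent.H319R2.Lln (mu)

theorem bres {d : ℤ} (hd : Odd d) (hd3 : IsCoprime d 3) (F : Finset ℤ) (f : ℤ) : ∃ C : ℝ, 0 < C ∧
    ∀ (x : ℤ) (j : ℕ), x ≠ 0 → Hit d F f x j →
      |Real.log (x : ℝ) + od d j x * Real.log 3 - j * Real.log 2| ≤ C := by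
  classical
  obtain ⟨C0, Y0, hC0, hY0, hpl⟩ := path_log hd hd3
  -- a large window
  let Y : ℕ := Y0 + F.sum (fun a => a.natAbs)
  have hYY0 : Y0 ≤ Y := Nat.le_add_right _ _
  have hY1 : 1 ≤ Y := le_trans hY0 hYY0
  have hFY : F ⊆ FY Y := by
    intro a ha
    have h1 : a.natAbs ≤ F.sum (fun a => a.natAbs) :=
      Finset.single_le_sum (f := fun a : ℤ => a.natAbs) (fun _ _ => Nat.zero_le _) ha
    have h2 : a.natAbs ≤ Y := le_trans h1 (Nat.le_add_left _ _)
    simp only [FY, Finset.mem_Icc]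
    omega
  let B : ℤ → ℝ := fun g => if h : ∃ j' : ℕ, Hit d F f g j' then
    |Real.log (g : ℝ) + od d h.choose g * Real.log 3 - h.choose * Real.log 2| else 0
  have hB0 : ∀ g, 0 ≤ B g := by
    intro g
    simp only [B]
    split_ifs
    · exact abs_nonneg _
    · exact le_refl _
  refine ⟨C0 + ∑ g ∈ FY Y, B g, ?_, ?_⟩
  · have := Finset.sum_nonneg (s := FY Y) (fun g _ => hB0 g)
    linarith
  · intro x j hx hh
    obtain ⟨i, hij, g, hg, h1, h2⟩ := hit_split hFY hh
    obtain ⟨_, hlog⟩ := hpl Y hYY0 x g i hx h1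
    have hod : od d j x = od d i x + od d (j - i) g := by
      have := od_add d i (j - i) x
      rw [Nat.add_sub_cancel' hij, h1.1] at this
      exact this
    have hex : ∃ j' : ℕ, Hit d F f g j' := ⟨j - i, h2⟩
    have hj' : hex.choose = j - i := (Hit_unique hex.choose_spec h2).2
    have hBg : B g = |Real.log (g : ℝ) + od d (j - i) g * Real.log 3 - ((j - i : ℕ) : ℝ) * Real.log 2| := by
      simp only [B]
      rw [dif_pos hex, hj']
    have hBle : B g ≤ ∑ g ∈ FY Y, B g :=
      Finset.single_le_sum (f := B) (fun g _ => hB0 g) hg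
    have hYp : (1 : ℝ) ≤ (Y : ℝ) ^ (1 / 25 : ℝ) := by
      apply Real.one_le_rpow
      · exact_mod_cast hY1
      · norm_num
    have hC0Y : C0 / (Y : ℝ) ^ (1 / 25 : ℝ) ≤ C0 := div_le_self hC0.le hYp
    have hsub : ((j - i : ℕ) : ℝ) = (j : ℝ) - i := by
      rw [Nat.cast_sub hij]
    have e : Real.log (x : ℝ) + od d j x * Real.log 3 - j * Real.log 2
        = (Real.log (x : ℝ) + od d i x * Real.log 3 - i * Real.log 2 - Real.log (g : ℝ))
          + (Real.log (g : ℝ) + od d (j - i) g * Real.log 3 - ((j - i : ℕ) : ℝ) * Real.log 2) := by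
      rw [hod, hsub]
      push_cast
      ring
    rw [e]
    refine le_trans (abs_add_le _ _) ?_
    rw [← hBg]
    linarith

end Pool.Agent.H499R2.LT
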