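import Pool.Agent.H499R2.LT.A

/-! Project LT: the Collatz map `C` on the integers; first hits of `C` and of the shortcut map. -/

set_option autoImplicit false

namespace Pool.Agent.H499R2.LT

open Pool.Agent.H320R2.PD Finset Filter Topology

open Pool.Agent.H499R2.ND hiding La Ea Me FC

open Pool.Agent.H499R2.CZ

/-- the Collatz map on the integers -/
def Cz (x : ℤ) : ℤ := if x % 2 = 0 then x / 2 else 3 * x + 1

/-- number of odd terms among the first `t` terms of the trajectory of `x` under `Cz` -/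
def oC : ℕ → ℤ → ℕ
  | 0, _ => 0
  | t + 1, x => (if x % 2 = 0 then 0 else 1) + oC t (Cz x)

theorem oC_le (t : ℕ) (x : ℤ) : oC t x ≤ t := by
  induction t generalizing x with
  | zero => exact le_rfl
  | succ t ih =>
    rw [oC]
    have := ih (Cz x)
    split_ifs <;> omega

/-- first hit of `F` at time `t`, with `o` odd terms before -/
def LevT (F : Finset ℤ) (t o : ℕ) (x : ℤ) : Prop :=
  Cz^[t] x ∈ F ∧ (∀ i < t, Cz^[i] x ∉ F) ∧ oC t x = o

theorem LevT_zero (F : Finset ℤ) (o : ℕ) (x : ℤ) : LevT F 0 o x ↔ x ∈ F ∧ o = 0 := by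
  unfold LevT
  simp only [Function.iterate_zero, id_eq, oC]
  constructor
  · rintro ⟨h1, _, h2⟩; exact ⟨h1, h2.symm⟩
  · rintro ⟨h1, h2⟩; exact ⟨h1, fun i hi => absurd hi (Nat.not_lt_zero i), h2.symm⟩

theorem LevT_succ (F : Finset ℤ) (t o : ℕ) (x : ℤ) : LevT F (t + 1) o x ↔
    x ∉ F ∧ ∃ o', o = (if x % 2 = 0 then 0 else 1) + o' ∧ LevT F t o' (Cz x) := by
  unfold LevT
  rw [Function.iterate_succ_apply, oC]
  constructor
  · rintro ⟨h1, h2, h3⟩
    refine ⟨h2 0 (Nat.succ_pos t), oC t (Cz x), h3.symm, h1, fun i hi => ?_, rfl⟩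
    have := h2 (i + 1) (by omega)
    rwa [Function.iterate_succ_apply] at this
  · rintro ⟨h0, o', h1, h2, h3, h4⟩
    refine ⟨h2, fun i hi => ?_, by rw [h4, h1]⟩
    rcases i with _ | i
    · exact h0
    · rw [Function.iterate_succ_apply]; exact h3 i (by omega)

theorem LevT_mem {F : Finset ℤ} {t o : ℕ} {x : ℤ} (hx : x ∈ F) : LevT F t o x ↔ t = 0 ∧ o = 0 := by
  rcases t with _ | t
  · rw [LevT_zero]; simp [hx]
  · rw [LevT_succ]
    constructor
    · rintro ⟨h, _⟩; exact absurd hx h
    · rintro ⟨h, _⟩; exact absurd h (Nat.succ_ne_zero t)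

theorem LevT_le {F : Finset ℤ} {t o : ℕ} {x : ℤ} (h : LevT F t o x) : o ≤ t := by
  rw [← h.2.2]; exact oC_le t x

/-- `e` even terms and `o` odd terms -/
def LevC (F : Finset ℤ) (e o : ℕ) (x : ℤ) : Prop := LevT F (e + o) o x

theorem LevC_even {F : Finset ℤ} {e o : ℕ} {x : ℤ} (hx : x ∉ F) (h2 : x % 2 = 0) :
    LevC F (e + 1) o x ↔ LevC F e o (x / 2) := by
  unfold LevC
  rw [show e + 1 + o = e + o + 1 by omega, LevT_succ]
  have h3 : Cz x = x / 2 := by unfold Cz; rw [if_pos h2]
  rw [h3]
  constructor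
  · rintro ⟨_, o', h, h'⟩
    rw [if_pos h2, zero_add] at h
    rw [h]; rw [← h] at h' ⊢; exact h'
  · intro h
    exact ⟨hx, o, by rw [if_pos h2, zero_add], h⟩

theorem LevC_even_zero {F : Finset ℤ} {o : ℕ} {x : ℤ} (hx : x ∉ F) (h2 : x % 2 = 0) :
    ¬ LevC F 0 o x := by
  unfold LevC
  rcases o with _ | o
  · rw [LevT_mem_iff_zero]
    exact hx
  · rw [show 0 + (o + 1) = o + 1 by omega, LevT_succ]
    rintro ⟨_, o', h, h'⟩
    rw [if_pos h2, zero_add] at h
    have := LevT_le h'
    omega
where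
  LevT_mem_iff_zero {F : Finset ℤ} {x : ℤ} : LevT F (0 + 0) 0 x ↔ x ∈ F := by
    rw [show 0 + 0 = 0 from rfl, LevT_zero]; simp

theorem LevC_odd {F : Finset ℤ} {e o : ℕ} {x : ℤ} (hx : x ∉ F) (h2 : x % 2 = 1) :
    LevC F e o x ↔ ∃ o', o = o' + 1 ∧ LevC F e o' (3 * x + 1) := by
  have h3 : Cz x = 3 * x + 1 := by unfold Cz; rw [if_neg (by omega)]
  unfold LevC
  constructor
  · intro h
    rcases ht : e + o with _ | t
    · rw [ht, LevT_zero] at h
      exact absurd h.1 hx
    · rw [ht, LevT_succ, h3] at h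
      obtain ⟨_, o', h, h'⟩ := h
      rw [if_neg (by omega)] at h
      refine ⟨o', by omega, ?_⟩
      have : t = e + o' := by omega
      rwa [this] at h'
  · rintro ⟨o', rfl, h⟩
    rw [show e + (o' + 1) = e + o' + 1 by omega, LevT_succ, h3]
    exact ⟨hx, o', by rw [if_neg (by omega)]; omega, h⟩

/-- the first hits of `F` under the Collatz map are first hits of this set under the shortcut map -/
def FF (F : Finset ℤ) : Finset ℤ := F ∪ (F.filter fun f => f % 6 = 4).image fun f => (f - 1) / 3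

theorem mem_FF {F : Finset ℤ} {g : ℤ} : g ∈ FF F ↔ g ∈ F ∨ (g % 2 = 1 ∧ 3 * g + 1 ∈ F) := by
  unfold FF
  rw [mem_union, mem_image]
  constructor
  · rintro (h | ⟨f, hf, rfl⟩)
    · exact Or.inl h
    · rw [mem_filter] at hf
      obtain ⟨h1, h2⟩ := hf
      right
      have h3 : 3 * ((f - 1) / 3) + 1 = f := by omega
      rw [h3]
      exact ⟨by omega, h1⟩
  · rintro (h | ⟨h1, h2⟩)
    · exact Or.inl h
    · right
      exact ⟨3 * g + 1, mem_filter.2 ⟨h2, by omega⟩, by omega⟩

theorem Hit_zero {d : ℤ} {F : Finset ℤ} {f x : ℤ} : Hit d F f x 0 ↔ x = f ∧ f ∈ F := by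
  unfold Hit
  simp only [Function.iterate_zero, id_eq]
  constructor
  · rintro ⟨h1, h2, _⟩; exact ⟨h1, h2⟩
  · rintro ⟨h1, h2⟩; exact ⟨h1, h2, fun i hi => absurd hi (Nat.not_lt_zero i)⟩

theorem Hit_succ' {d : ℤ} {F : Finset ℤ} {f x : ℤ} {j : ℕ} :
    Hit d F f x (j + 1) ↔ x ∉ F ∧ Hit d F f (Td d x) j := by
  unfold Hit
  rw [Function.iterate_succ_apply]
  constructor
  · rintro ⟨h1, h2, h3⟩
    refine ⟨h3 0 (Nat.succ_pos j), h1, h2, fun i hi => ?_⟩
    have := h3 (i + 1) (by omega)
    rwa [Function.iterate_succ_apply] at this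
  · rintro ⟨h0, h1, h2, h3⟩
    refine ⟨h1, h2, fun i hi => ?_⟩
    rcases i with _ | i
    · exact h0
    · rw [Function.iterate_succ_apply]; exact h3 i (by omega)

/-- first hits of the Collatz map and of the shortcut map -/
theorem levC_iff (F : Finset ℤ) (e : ℕ) : ∀ (o : ℕ) (x : ℤ), LevC F e o x ↔
    ∃ g, Hit 1 (FF F) g x e ∧ ((g ∈ F ∧ od 1 e x = o) ∨ (g ∉ F ∧ od 1 e x + 1 = o)) := by
  induction e with
  | zero =>
    intro o x
    by_cases hx : x ∈ F
    · unfold LevC
      rw [LevT_mem hx]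
      constructor
      · rintro ⟨_, h⟩
        refine ⟨x, Hit_zero.2 ⟨rfl, mem_FF.2 (Or.inl hx)⟩, Or.inl ⟨hx, ?_⟩⟩
        rw [h]; rfl
      · rintro ⟨g, hg, h⟩
        rw [Hit_zero] at hg
        rw [← hg.1] at h
        rcases h with ⟨_, h⟩ | ⟨h, _⟩
        · rw [od] at h; omega
        · exact absurd hx h
    · rcases Int.emod_two_eq_zero_or_one x with h2 | h2
      · constructor
        · intro h; exact absurd h (LevC_even_zero hx h2)
        · rintro ⟨g, hg, h⟩
          rw [Hit_zero] at hg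
          obtain ⟨rfl, hg⟩ := hg
          rw [mem_FF] at hg
          rcases hg with hg | ⟨hg, _⟩
          · exact absurd hg hx
          · omega
      · rw [LevC_odd hx h2]
        constructor
        · rintro ⟨o', rfl, h⟩
          by_cases h3 : 3 * x + 1 ∈ F
          · unfold LevC at h
            rw [LevT_mem h3] at h
            refine ⟨x, Hit_zero.2 ⟨rfl, mem_FF.2 (Or.inr ⟨h2, h3⟩)⟩, Or.inr ⟨hx, ?_⟩⟩
            rw [od]; push_cast; omega
          · exact absurd h (LevC_even_zero h3 (by omega))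
        · rintro ⟨g, hg, h⟩
          rw [Hit_zero] at hg
          obtain ⟨rfl, hg⟩ := hg
          rw [mem_FF] at hg
          rcases hg with hg | ⟨_, hg⟩
          · exact absurd hg hx
          · rcases h with ⟨h, _⟩ | ⟨_, h⟩
            · exact absurd h hx
            · rw [od] at h
              refine ⟨0, by omega, ?_⟩
              unfold LevC
              rw [LevT_mem hg]
              exact ⟨rfl, rfl⟩
  | succ e ih =>
    intro o x
    by_cases hx : x ∈ F
    · unfold LevC
      rw [LevT_mem hx]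
      constructor
      · rintro ⟨h, _⟩; omega
      · rintro ⟨g, hg, _⟩
        rw [Hit_succ'] at hg
        exact absurd (mem_FF.2 (Or.inl hx)) hg.1
    · rcases Int.emod_two_eq_zero_or_one x with h2 | h2
      · have hT : Td 1 x = x / 2 := by unfold Td; rw [if_pos h2]
        have hx' : x ∉ FF F := by
          rw [mem_FF]
          rintro (h | ⟨h, _⟩)
          · exact hx h
          · omega
        rw [LevC_even hx h2, ih]
        refine exists_congr fun g => ?_
        rw [Hit_succ', hT, od, if_pos h2, hT, zero_add]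
        constructor
        · rintro ⟨h, h'⟩; exact ⟨⟨hx', h⟩, h'⟩
        · rintro ⟨⟨_, h⟩, h'⟩; exact ⟨h, h'⟩
      · have hT : Td 1 x = (3 * x + 1) / 2 := by unfold Td; rw [if_neg (by omega)]
        rw [LevC_odd hx h2]
        by_cases h3 : 3 * x + 1 ∈ F
        · constructor
          · rintro ⟨o', _, h⟩
            unfold LevC at h
            rw [LevT_mem h3] at h
            omega
          · rintro ⟨g, hg, _⟩
            rw [Hit_succ'] at hg
            exact absurd (mem_FF.2 (Or.inr ⟨h2, h3⟩)) hg.1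
        · have hx' : x ∉ FF F := by
            rw [mem_FF]
            rintro (h | ⟨_, h⟩)
            · exact hx h
            · exact h3 h
          constructor
          · rintro ⟨o', rfl, h⟩
            rw [LevC_even h3 (by omega), ih] at h
            obtain ⟨g, hg, h⟩ := h
            refine ⟨g, Hit_succ'.2 ⟨hx', by rw [hT]; exact hg⟩, ?_⟩
            rw [od, if_neg (by omega), hT]
            push_cast
            rcases h with ⟨h, h'⟩ | ⟨h, h'⟩
            · left; exact ⟨h, by omega⟩
            · right; exact ⟨h, by omega⟩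
          · rintro ⟨g, hg, h⟩
            rw [Hit_succ', hT] at hg
            rw [od, if_neg (by omega), hT] at h
            have hnn : 0 ≤ od 1 e ((3 * x + 1) / 2) := od_nonneg 1 e _
            refine ⟨o - 1, by omega, ?_⟩
            rw [LevC_even h3 (by omega), ih]
            refine ⟨g, hg.2, ?_⟩
            rcases h with ⟨h, h'⟩ | ⟨h, h'⟩
            · left; exact ⟨h, by omega⟩
            · right; exact ⟨h, by omega⟩
where
  od_nonneg (d : ℤ) (k : ℕ) : ∀ x : ℤ, 0 ≤ od d k x := by
    induction k with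
    | zero => intro x; exact le_rfl
    | succ k ih =>
      intro x
      rw [od]
      have := ih (Td d x)
      split_ifs <;> omega

end Pool.Agent.H499R2.LT
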