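import Mathlib

/-! Project LT: cycles of the shortcut `3x+1` map on the integers contain integers prime to `3`. -/

set_option autoImplicit false

namespace Pool.Agent.H499R2.LT.CY

variable {T : ℤ → ℤ}

theorem iter_mod {α : Type*} {f : α → α} {x : α} {p : ℕ} (hp : 1 ≤ p) (h : f^[p] x = x) (i : ℕ) :
    f^[i] x = f^[i % p] x := by
  have h1 : ∀ q : ℕ, f^[p * q] x = x := by
    intro q
    induction q with
    | zero => rfl
    | succ q ih => rw [Nat.mul_succ, Nat.add_comm, Function.iterate_add_apply, ih, h]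
  conv_lhs => rw [← Nat.mod_add_div i p]
  rw [Function.iterate_add_apply, h1]

/-- a nonzero periodic point of the `3x+1` shortcut map has an odd iterate -/
theorem odd_iter {x : ℤ} (hx : x ≠ 0) {p : ℕ} (hp : 1 ≤ p)
    (hT : ∀ y : ℤ, y % 2 = 0 → T y = y / 2) (h : T^[p] x = x) : ∃ j : ℕ, T^[j] x % 2 = 1 := by
  by_contra hcon
  push Not at hcon
  have h1 : ∀ j : ℕ, 2 ^ j * T^[j] x = x := by
    intro j
    induction j with
    | zero => simp
    | succ j ih =>
      have h2 : T^[j] x % 2 = 0 := by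
        have := hcon j
        omega
      rw [Function.iterate_succ_apply', hT _ h2]
      have h3 : 2 * (T^[j] x / 2) = T^[j] x := by omega
      rw [pow_succ, mul_assoc, h3, ih]
  have h2 := h1 p
  rw [h] at h2
  have h3 : (2 : ℤ) ^ p ≥ 2 := by
    calc (2 : ℤ) ^ p ≥ 2 ^ 1 := pow_le_pow_right₀ (by norm_num) hp
      _ = 2 := by norm_num
  have h4 : ((2 : ℤ) ^ p - 1) * x = 0 := by linarith
  rcases mul_eq_zero.1 h4 with h5 | h5
  · omega
  · exact hx h5

/-- a finite cycle of nonzero integers contains an integer prime to `3` -/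
theorem prime3 {x : ℤ} (hx : x ≠ 0) {p : ℕ} (hp : 1 ≤ p)
    (hT : ∀ y : ℤ, y % 2 = 0 → T y = y / 2) (hT' : ∀ y : ℤ, y % 2 = 1 → T y = (3 * y + 1) / 2)
    (h : T^[p] x = x) : ∃ a ∈ (Finset.range p).image (fun i => T^[i] x), ¬ (3 : ℤ) ∣ a := by
  obtain ⟨j, hj⟩ := odd_iter hx hp hT h
  refine ⟨T^[j + 1] x, ?_, ?_⟩
  · rw [Finset.mem_image]
    exact ⟨(j + 1) % p, Finset.mem_range.2 (Nat.mod_lt _ hp), (iter_mod hp h (j + 1)).symm⟩
  · rw [Function.iterate_succ_apply', hT' _ hj]
    omega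

end Pool.Agent.H499R2.LT.CY
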