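import Pool.Agent.H499R2.LT.Defs
import Pool.Agent.H499R2.LT.D1
import Pool.Agent.H499R2.LT.D2

/-! Project LT, task LT-D3. -/

set_option autoImplicit false

namespace Pool.Agent.H499R2.LT

open Pool.Agent.H320R2.PD Finset Filter Topology

open Pool.Agent.H499R2.ND hiding La Ea Me FC

open Pool.Agent.H499R2.CZ

open Pool.Agent.H319R2.Lln (mu)

namespace D3Aux

/-- block bound in the form used -/
theorem block {C : ℝ} {M : ℕ → ℤ → ℝ} (hM : Rec C M) {k P Q : ℕ} (hPQ : 2 * (P + Q) ≤ k)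
    (hQ : 1 ≤ Q) (o : ℤ) (t : ℕ) :
    ∑ p ∈ Finset.Ico P (P + Q), ∑ j ∈ (Finset.range (2 * p + 1)).filter
      (fun j : ℕ => |(j : ℤ) - P| < t * Q), M (k - 2 * p) (o - j) ≤
      C * ((2 * t + 4) * Q) := by
  have hC : 0 ≤ C := (hM.1 0 0).1.trans (hM.1 0 0).2
  have h1 : ∀ κ : ℕ, ∀ p : ℕ, ∑ j ∈ (Finset.range (2 * p + 1)).filter
      (fun j : ℕ => |(j : ℤ) - P| < t * Q), M κ (o - j) ≤
      ∑ ω ∈ Finset.Ico (o - P - t * Q) (o - P - t * Q + ((2 * t * Q : ℕ) : ℤ)), M κ ω := by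
    intro κ p
    rw [← Finset.sum_image (f := fun ω => M κ ω) (g := fun j : ℕ => o - (j : ℤ))]
    · refine Finset.sum_le_sum_of_subset_of_nonneg ?_ (fun ω _ _ => (hM.1 κ ω).1)
      intro ω hω
      obtain ⟨j, hj, rfl⟩ := Finset.mem_image.1 hω
      have hj2 := (Finset.mem_filter.1 hj).2
      rw [abs_lt] at hj2
      rw [Finset.mem_Ico]
      push_cast
      constructor <;> linarith [hj2.1, hj2.2]
    · intro a _ b _ hab
      simp only at hab
      omega
  have h2 : ∑ p ∈ Finset.Ico P (P + Q),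
      ∑ ω ∈ Finset.Ico (o - P - t * Q) (o - P - t * Q + ((2 * t * Q : ℕ) : ℤ)),
        M (k - 2 * p) ω ≤
      ∑ κ ∈ Finset.Ico (k - 2 * (P + Q)) (k - 2 * (P + Q) + (2 * Q + 1)),
        ∑ ω ∈ Finset.Ico (o - P - t * Q) (o - P - t * Q + ((2 * t * Q : ℕ) : ℤ)), M κ ω := by
    rw [← Finset.sum_image (f := fun κ =>
      ∑ ω ∈ Finset.Ico (o - P - t * Q) (o - P - t * Q + ((2 * t * Q : ℕ) : ℤ)), M κ ω)
      (g := fun p : ℕ => k - 2 * p)]
    · refine Finset.sum_le_sum_of_subset_of_nonneg ?_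
        (fun κ _ _ => Finset.sum_nonneg fun ω _ => (hM.1 κ ω).1)
      intro κ hκ
      obtain ⟨p, hp, rfl⟩ := Finset.mem_image.1 hκ
      have hp2 := Finset.mem_Ico.1 hp
      rw [Finset.mem_Ico]
      omega
    · intro a ha b hb hab
      have ha2 := Finset.mem_Ico.1 ha
      have hb2 := Finset.mem_Ico.1 hb
      simp only at hab
      omega
  have h3 := hM.2.2 (k - 2 * (P + Q)) (2 * Q + 1) (o - P - t * Q) (2 * t * Q)
  refine (Finset.sum_le_sum fun p _ => h1 (k - 2 * p) p).trans (h2.trans (h3.trans ?_))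
  refine mul_le_mul_of_nonneg_left ?_ hC
  have hQR : (1 : ℝ) ≤ Q := by exact_mod_cast hQ
  push_cast
  nlinarith

/-- the weight -/
noncomputable def w (T P Q j : ℕ) : ℝ :=
  ∑ t ∈ Finset.Icc 1 T, (1 / 2 : ℝ) ^ t * (if |(j : ℤ) - P| < t * Q then 1 else 0)

theorem w_low {T P Q j m : ℕ} (hm : |(j : ℤ) - P| < ((m + 1 : ℕ) : ℤ) * Q) (hT : m + 1 ≤ T) :
    (1 / 2 : ℝ) ^ (m + 1) ≤ w T P Q j := by
  unfold w
  have h := Finset.single_le_sum (f := fun t : ℕ => (1 / 2 : ℝ) ^ t *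
    (if |(j : ℤ) - P| < t * Q then 1 else 0)) (s := Finset.Icc 1 T)
    (fun t _ => by positivity) (Finset.mem_Icc.2 ⟨by omega, hT⟩ : m + 1 ∈ Finset.Icc 1 T)
  rw [if_pos hm, mul_one] at h
  exact h

/-- the kernel is bounded by the weight -/
theorem exp_le {T P Q j p : ℕ} (hp1 : P ≤ p) (hp2 : p < P + Q) (hQ : 1 ≤ Q) (hp0 : 1 ≤ p)
    (hQQ : 2 * p ≤ Q * Q) (hT : j + P + 1 ≤ T) :
    Real.exp (-((j : ℝ) - p) ^ 2 / (2 * p)) ≤ 4 * w T P Q j := by
  obtain ⟨a, ha⟩ : ∃ a : ℕ, (a : ℤ) = |(j : ℤ) - P| := ⟨((j : ℤ) - P).natAbs, by simp⟩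
  obtain ⟨m, hm⟩ : ∃ m, m = a / Q := ⟨_, rfl⟩
  have hm1 : m * Q ≤ a := by rw [hm]; exact Nat.div_mul_le_self a Q
  have hm2 : a < (m + 1) * Q := by
    rw [hm, mul_comm]
    exact Nat.lt_mul_div_succ a (by omega)
  have haT : a ≤ j + P := by
    have : |(j : ℤ) - P| ≤ (j : ℤ) + P := by
      rw [abs_le]; constructor <;> omega
    omega
  have hmT : m + 1 ≤ T := by
    have : m ≤ a := by rw [hm]; exact Nat.div_le_self a Q
    omega
  have hw := w_low (T := T) (P := P) (Q := Q) (j := j) (m := m)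
    (by rw [← ha]; exact_mod_cast hm2) hmT
  refine le_trans ?_ (mul_le_mul_of_nonneg_left hw (by norm_num))
  have hp0R : (0 : ℝ) < p := by exact_mod_cast hp0
  rcases Nat.eq_zero_or_pos m with h0 | h0
  · rw [h0]
    have : Real.exp (-((j : ℝ) - p) ^ 2 / (2 * p)) ≤ 1 := by
      rw [Real.exp_le_one_iff]
      exact div_nonpos_of_nonpos_of_nonneg (by nlinarith [sq_nonneg ((j : ℝ) - p)]) (by positivity)
    norm_num
    linarith
  · obtain ⟨n, rfl⟩ : ∃ n, m = n + 1 := ⟨m - 1, by omega⟩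
    have h1 : (n : ℝ) * Q ≤ |(j : ℝ) - p| := by
      have h2 : (n : ℤ) * Q ≤ |(j : ℤ) - p| := by
        have h3 : ((n : ℤ) + 1) * Q ≤ |(j : ℤ) - P| := by
          rw [← ha]
          exact_mod_cast hm1
        have h4 : |(j : ℤ) - P| ≤ |(j : ℤ) - p| + |(p : ℤ) - P| := abs_sub_le _ _ _
        have h5 : |(p : ℤ) - P| ≤ Q := by
          rw [abs_le]; constructor <;> omega
        linarith
      exact_mod_cast h2
    have h6 : ((n : ℝ) * Q) ^ 2 ≤ ((j : ℝ) - p) ^ 2 := by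
      rw [← sq_abs ((j : ℝ) - p)]
      exact pow_le_pow_left₀ (by positivity) h1 2
    have h7 : (2 : ℝ) * p ≤ Q * Q := by exact_mod_cast hQQ
    have h8 : (n : ℝ) ≤ ((j : ℝ) - p) ^ 2 / (2 * p) := by
      rw [le_div_iff₀ (by positivity)]
      calc (n : ℝ) * (2 * p) ≤ (n : ℝ) ^ 2 * (Q * Q) := by
            have hn : (n : ℝ) ≤ (n : ℝ) ^ 2 := by
              rcases Nat.eq_zero_or_pos n with hn | hn
              · rw [hn]; norm_num
              · have : (1 : ℝ) ≤ n := by exact_mod_cast hn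
                nlinarith
            exact mul_le_mul hn h7 (by positivity) (by positivity)
        _ = ((n : ℝ) * Q) ^ 2 := by ring
        _ ≤ _ := h6
    have h9 : -((j : ℝ) - p) ^ 2 / (2 * p) ≤ -(n : ℝ) := by
      rw [neg_div]
      linarith
    calc Real.exp (-((j : ℝ) - p) ^ 2 / (2 * p)) ≤ Real.exp (-(n : ℝ)) := Real.exp_le_exp.2 h9
      _ = (Real.exp (-1)) ^ n := by
          rw [← Real.exp_nat_mul]
          congr 1
          ring
      _ ≤ (1 / 2 : ℝ) ^ n := by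
          refine pow_le_pow_left₀ (Real.exp_pos _).le ?_ n
          have := Real.exp_one_gt_d9
          rw [Real.exp_neg, inv_eq_one_div]
          exact one_div_le_one_div_of_le (by norm_num) (by linarith)
      _ = 4 * (1 / 2 : ℝ) ^ (n + 1 + 1) := by
          rw [pow_succ, pow_succ]; ring

theorem sum_t (T : ℕ) : ∑ t ∈ Finset.Icc 1 T, (1 / 2 : ℝ) ^ t * (2 * t + 4) ≤ 8 := by
  have h : ∑ t ∈ Finset.Icc 1 T, (1 / 2 : ℝ) ^ t * (2 * t + 4) =
      8 - (1 / 2 : ℝ) ^ T * (2 * T + 8) := by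
    induction T with
    | zero => simp
    | succ T ih =>
      rw [Finset.sum_Icc_succ_top (by omega), ih]
      push_cast
      rw [pow_succ]
      ring
  rw [h]
  have : (0 : ℝ) ≤ (1 / 2 : ℝ) ^ T * (2 * T + 8) := by positivity
  linarith

/-- sum over `p` and `j` with the weight -/
theorem total {C : ℝ} {M : ℕ → ℤ → ℝ} (hM : Rec C M) {k P Q : ℕ} (hPQ : 2 * (P + Q) ≤ k)
    (hQ : 1 ≤ Q) (o : ℤ) (T : ℕ) :
    ∑ p ∈ Finset.Ico P (P + Q), ∑ j ∈ Finset.range (2 * p + 1),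
      w T P Q j * M (k - 2 * p) (o - j) ≤ 8 * C * Q := by
  have hC : 0 ≤ C := (hM.1 0 0).1.trans (hM.1 0 0).2
  have h1 : ∀ p, ∑ j ∈ Finset.range (2 * p + 1), w T P Q j * M (k - 2 * p) (o - j) =
      ∑ t ∈ Finset.Icc 1 T, (1 / 2 : ℝ) ^ t * ∑ j ∈ (Finset.range (2 * p + 1)).filter
        (fun j : ℕ => |(j : ℤ) - P| < t * Q), M (k - 2 * p) (o - j) := by
    intro p
    unfold w
    simp only [Finset.sum_mul]
    rw [Finset.sum_comm]
    refine Finset.sum_congr rfl fun t _ => ?_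
    rw [Finset.mul_sum, Finset.sum_filter]
    refine Finset.sum_congr rfl fun j _ => ?_
    split_ifs <;> ring
  rw [Finset.sum_congr rfl (fun p _ => h1 p), Finset.sum_comm]
  calc ∑ t ∈ Finset.Icc 1 T, ∑ p ∈ Finset.Ico P (P + Q), (1 / 2 : ℝ) ^ t *
        ∑ j ∈ (Finset.range (2 * p + 1)).filter
          (fun j : ℕ => |(j : ℤ) - P| < t * Q), M (k - 2 * p) (o - j)
      ≤ ∑ t ∈ Finset.Icc 1 T, (1 / 2 : ℝ) ^ t * (C * ((2 * t + 4) * Q)) := by
        refine Finset.sum_le_sum fun t _ => ?_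
        rw [← Finset.mul_sum]
        exact mul_le_mul_of_nonneg_left (block hM hPQ hQ o t) (by positivity)
    _ = (∑ t ∈ Finset.Icc 1 T, (1 / 2 : ℝ) ^ t * (2 * t + 4)) * (C * Q) := by
        rw [Finset.sum_mul]
        refine Finset.sum_congr rfl fun t _ => ?_
        ring
    _ ≤ 8 * (C * Q) := mul_le_mul_of_nonneg_right (sum_t T) (by positivity)
    _ = 8 * C * Q := by ring

end D3Aux

theorem rec_sup {C : ℝ} {M : ℕ → ℤ → ℝ} (hM : Rec C M) : ∃ (C' : ℝ) (k0 : ℕ), 0 < C' ∧ ∀ (k : ℕ) (o : ℤ),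
    k0 ≤ k → |2 * (o : ℝ) - k| ≤ (k : ℝ) / 40 → M k o ≤ C' / Real.sqrt k := by
  have hC : 0 ≤ C := (hM.1 0 0).1.trans (hM.1 0 0).2
  obtain ⟨c, hc, hgauss⟩ := bin_gauss
  refine ⟨C + 1280 * c * C + 1, 160000, by positivity, fun k o hk ho => ?_⟩
  obtain ⟨P, hP⟩ : ∃ P, P = k / 400 := ⟨_, rfl⟩
  obtain ⟨Q, hQ⟩ : ∃ Q, Q = Nat.sqrt k := ⟨_, rfl⟩
  have hQ1 : Q * Q ≤ k := by rw [hQ]; exact Nat.sqrt_le k
  have hQ2 : k < (Q + 1) * (Q + 1) := by rw [hQ]; exact Nat.lt_succ_sqrt k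
  have hQ3 : 400 ≤ Q := by rw [hQ]; exact Nat.le_sqrt.2 (by omega)
  have hQ4 : 400 * Q ≤ k := le_trans (Nat.mul_le_mul_right Q hQ3) hQ1
  have hP1 : 400 * P ≤ k := by omega
  have hP2 : k < 400 * (P + 1) := by omega
  have hQ5 : k ≤ Q * Q + 2 * Q := by nlinarith
  have hkR : (160000 : ℝ) ≤ k := by exact_mod_cast hk
  have hk0 : (0 : ℝ) < k := by linarith
  have hP0 : 1 ≤ P := by omega
  have hPR : (0 : ℝ) < P := by exact_mod_cast hP0
  have hsP : 0 < Real.sqrt P := Real.sqrt_pos.2 hPR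
  have hsk : 0 < Real.sqrt k := Real.sqrt_pos.2 hk0
  -- the bound for one `p`
  have hone : ∀ p ∈ Finset.Ico P (P + Q), M k o ≤ C / k + 4 * c / Real.sqrt P *
      ∑ j ∈ Finset.range (2 * p + 1), D3Aux.w (k + k + 1) P Q j * M (k - 2 * p) (o - j) := by
    intro p hp
    obtain ⟨hp1, hp2⟩ := Finset.mem_Ico.1 hp
    have h1 := rec_iter hM k (2 * p) o (by omega) (by omega) ho
    have h2 : M k o ≤ C / k + ∑ j ∈ Finset.range (2 * p + 1),
        ((2 * p).choose j : ℝ) / 2 ^ (2 * p) * M (k - 2 * p) (o - j) := by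
      have := le_abs_self (M k o - ∑ j ∈ Finset.range (2 * p + 1),
        ((2 * p).choose j : ℝ) / 2 ^ (2 * p) * M (k - 2 * p) (o - j))
      linarith
    refine h2.trans (add_le_add le_rfl ?_)
    rw [Finset.mul_sum]
    refine Finset.sum_le_sum fun j hj => ?_
    have hj' : j ≤ 2 * p := by
      have := Finset.mem_range.1 hj
      omega
    have hM0 := (hM.1 (k - 2 * p) (o - j)).1
    have h3 := hgauss p (by omega) j
    have h4 := D3Aux.exp_le (T := k + k + 1) (P := P) (Q := Q) (j := j) (p := p) hp1 hp2 (by omega)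
      (by omega) (by omega) (by omega)
    have h5 : c / Real.sqrt p ≤ c / Real.sqrt P := by
      refine div_le_div_of_nonneg_left hc.le hsP ?_
      exact Real.sqrt_le_sqrt (by exact_mod_cast hp1)
    have h6 : ((2 * p).choose j : ℝ) / 2 ^ (2 * p) ≤
        4 * c / Real.sqrt P * D3Aux.w (k + k + 1) P Q j := by
      calc ((2 * p).choose j : ℝ) / 2 ^ (2 * p)
          ≤ c / Real.sqrt p * Real.exp (-((j : ℝ) - p) ^ 2 / (2 * p)) := h3
        _ ≤ c / Real.sqrt P * (4 * D3Aux.w (k + k + 1) P Q j) :=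
            mul_le_mul h5 h4 (Real.exp_pos _).le (by positivity)
        _ = _ := by ring
    calc ((2 * p).choose j : ℝ) / 2 ^ (2 * p) * M (k - 2 * p) (o - j)
        ≤ (4 * c / Real.sqrt P * D3Aux.w (k + k + 1) P Q j) * M (k - 2 * p) (o - j) :=
          mul_le_mul_of_nonneg_right h6 hM0
      _ = _ := by ring
  have hQR : (0 : ℝ) < Q := by
    have : 0 < Q := by omega
    exact_mod_cast this
  have hsum := Finset.sum_le_sum hone
  rw [Finset.sum_const, Nat.card_Ico, Finset.sum_add_distrib, Finset.sum_const, Nat.card_Ico,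
    ← Finset.mul_sum, Nat.add_sub_cancel_left, nsmul_eq_mul, nsmul_eq_mul] at hsum
  have htot := D3Aux.total hM (k := k) (P := P) (Q := Q) (by omega) (by omega) o (k + k + 1)
  have h7 : (Q : ℝ) * M k o ≤ Q * (C / k) + 4 * c / Real.sqrt P * (8 * C * Q) :=
    hsum.trans (add_le_add le_rfl (mul_le_mul_of_nonneg_left htot (by positivity)))
  have h8 : M k o ≤ C / k + 32 * c * C / Real.sqrt P := by
    have h9 : (Q : ℝ) * M k o ≤ Q * (C / k + 32 * c * C / Real.sqrt P) := by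
      calc (Q : ℝ) * M k o ≤ Q * (C / k) + 4 * c / Real.sqrt P * (8 * C * Q) := h7
        _ = _ := by ring
    exact le_of_mul_le_mul_left h9 hQR
  have h10 : Real.sqrt k ≤ 40 * Real.sqrt P := by
    have h11 : (k : ℝ) ≤ 40 ^ 2 * P := by
      have : k ≤ 1600 * P := by omega
      have h12 : (k : ℝ) ≤ 1600 * P := by exact_mod_cast this
      linarith
    calc Real.sqrt k ≤ Real.sqrt (40 ^ 2 * P) := Real.sqrt_le_sqrt h11
      _ = 40 * Real.sqrt P := by
          rw [Real.sqrt_mul (by positivity), Real.sqrt_sq (by norm_num)]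
  have h13 : 32 * c * C / Real.sqrt P ≤ 1280 * c * C / Real.sqrt k := by
    rw [div_le_div_iff₀ hsP hsk]
    have : 0 ≤ 32 * c * C := by positivity
    nlinarith
  have h14 : C / k ≤ C / Real.sqrt k := by
    refine div_le_div_of_nonneg_left hC hsk ?_
    have h15 : Real.sqrt k * Real.sqrt k = k := Real.mul_self_sqrt hk0.le
    have h16 : 1 ≤ Real.sqrt k := Real.one_le_sqrt.2 (by linarith)
    nlinarith
  calc M k o ≤ C / k + 32 * c * C / Real.sqrt P := h8
    _ ≤ C / Real.sqrt k + 1280 * c * C / Real.sqrt k := add_le_add h14 h13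
    _ ≤ C / Real.sqrt k + 1280 * c * C / Real.sqrt k + 1 / Real.sqrt k := by
        have : 0 ≤ 1 / Real.sqrt (k : ℝ) := by positivity
        linarith
    _ = (C + 1280 * c * C + 1) / Real.sqrt k := by ring

end Pool.Agent.H499R2.LT
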