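import Pool.Agent.H499R2.LT.Defs

/-! Project LT, task D5: smoothness (telescoping). -/

set_option autoImplicit false

namespace Pool.Agent.H499R2.LT

open Finset Filter Topology

private theorem tel_o {C' : ℝ} {M : ℕ → ℤ → ℝ} {k : ℕ}
    (h : ∀ o : ℤ, |2 * (o : ℝ) - k| ≤ (k : ℝ) / 80 → |M k o - M k (o - 1)| ≤ C' / k) (o : ℤ) (n : ℕ)
    (ho : |2 * (o : ℝ) - k| ≤ (k : ℝ) / 80) (hn : |2 * ((o : ℝ) + n) - k| ≤ (k : ℝ) / 80) :
    |M k (o + n) - M k o| ≤ C' / k * n := by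
  induction n with
  | zero => simp
  | succ n ih =>
    have hn' := hn
    rw [abs_le] at ho hn
    push_cast at hn
    have h1 : |2 * ((o : ℝ) + n) - k| ≤ (k : ℝ) / 80 := by
      rw [abs_le]
      have : (0 : ℝ) ≤ n := Nat.cast_nonneg n
      constructor <;> linarith [ho.1, ho.2, hn.1, hn.2]
    have h2 := ih h1
    have h3 := h (o + (n + 1 : ℕ)) (by push_cast; push_cast at hn'; exact hn')
    have e : o + ((n + 1 : ℕ) : ℤ) - 1 = o + n := by push_cast; ring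
    rw [e] at h3
    calc |M k (o + ((n + 1 : ℕ) : ℤ)) - M k o|
        = |(M k (o + ((n + 1 : ℕ) : ℤ)) - M k (o + n)) + (M k (o + n) - M k o)| := by ring_nf
      _ ≤ |M k (o + ((n + 1 : ℕ) : ℤ)) - M k (o + n)| + |M k (o + n) - M k o| := abs_add_le _ _
      _ ≤ C' / k + C' / k * n := add_le_add h3 h2
      _ = C' / k * ((n + 1 : ℕ) : ℝ) := by push_cast; ring

private theorem tel_k {C' : ℝ} (hC : 0 ≤ C') {M : ℕ → ℤ → ℝ} {k : ℕ} (hk : 1 ≤ k) {o : ℤ}
    (h : ∀ l : ℕ, k ≤ l → |2 * (o : ℝ) - l| ≤ (l : ℝ) / 80 → |M (l + 1) o - M l o| ≤ C' / l) (n : ℕ)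
    (ho : |2 * (o : ℝ) - k| ≤ (k : ℝ) / 160) (hn : 1000 * (n : ℝ) ≤ k) :
    |M (k + n) o - M k o| ≤ C' / k * n := by
  have hk0 : (0 : ℝ) < k := by exact_mod_cast hk
  induction n with
  | zero => simp
  | succ n ih =>
    push_cast at hn
    have h2 := ih (by linarith)
    have h3 := h (k + n) (by omega) (by
      rw [abs_le] at ho ⊢
      have : (0 : ℝ) ≤ n := Nat.cast_nonneg n
      push_cast
      constructor <;> linarith [ho.1, ho.2])
    have h4 : C' / ((k + n : ℕ) : ℝ) ≤ C' / k := by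
      apply div_le_div_of_nonneg_left hC hk0
      push_cast
      have : (0 : ℝ) ≤ n := Nat.cast_nonneg n
      linarith
    calc |M (k + (n + 1)) o - M k o|
        = |(M (k + n + 1) o - M (k + n) o) + (M (k + n) o - M k o)| := by
          rw [show k + (n + 1) = k + n + 1 from rfl]; ring_nf
      _ ≤ |M (k + n + 1) o - M (k + n) o| + |M (k + n) o - M k o| := abs_add_le _ _
      _ ≤ C' / k + C' / k * n := add_le_add (h3.trans h4) h2
      _ = C' / k * ((n + 1 : ℕ) : ℝ) := by push_cast; ring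

/-- smoothness, from the bound for the differences (`rec_diff`, task D4):
`rec_smooth hM := rec_smooth_of (rec_diff hM)` -/
theorem rec_smooth_of {M : ℕ → ℤ → ℝ} (hD : ∃ (C' : ℝ) (k0 : ℕ), 0 < C' ∧ ∀ (k : ℕ) (o : ℤ),
    k0 ≤ k → |2 * (o : ℝ) - k| ≤ (k : ℝ) / 80 →
      |M k o - M k (o - 1)| ≤ C' / k ∧ |M (k + 1) o - M k o| ≤ C' / k) : ∃ (C' : ℝ) (k0 : ℕ), 0 < C' ∧
    ∀ (k k' : ℕ) (o o' : ℤ), k0 ≤ k → |2 * (o : ℝ) - k| ≤ (k : ℝ) / 400 → k ≤ k' → 1000 * (k' - k : ℝ) ≤ k →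
      1000 * |(o' : ℝ) - o| ≤ k → |M k' o' - M k o| ≤ C' * ((k' - k : ℝ) + |(o' : ℝ) - o|) / k := by
  obtain ⟨C', k0, hC, H⟩ := hD
  refine ⟨C', k0 + 1, hC, fun k k' o o' hk0 ho hkk hd ho' => ?_⟩
  have hk1 : 1 ≤ k := by omega
  have hkp : (0 : ℝ) < k := by exact_mod_cast hk1
  have ho2 : |2 * (o : ℝ) - k| ≤ (k : ℝ) / 80 := ho.trans (by linarith)
  have hoo : |2 * (o' : ℝ) - k| ≤ (k : ℝ) / 160 := by
    have e : 2 * (o' : ℝ) - k = (2 * (o : ℝ) - k) + 2 * ((o' : ℝ) - o) := by ring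
    rw [e]
    refine (abs_add_le _ _).trans ?_
    rw [abs_mul, abs_of_pos (by norm_num : (0 : ℝ) < 2)]
    linarith
  have hoo2 : |2 * (o' : ℝ) - k| ≤ (k : ℝ) / 80 := hoo.trans (by linarith)
  have hdo : ∀ q : ℤ, |2 * (q : ℝ) - k| ≤ (k : ℝ) / 80 → |M k q - M k (q - 1)| ≤ C' / k :=
    fun q hq => (H k q (by omega) hq).1
  -- step in `o`
  have s1 : |M k o' - M k o| ≤ C' / k * |(o' : ℝ) - o| := by
    rcases le_total o o' with hle | hle
    · obtain ⟨n, hn⟩ := Int.eq_ofNat_of_zero_le (sub_nonneg.2 hle)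
      have e : o' = o + n := by linarith
      subst e
      have := tel_o hdo o n ho2 (by push_cast at hoo2; exact hoo2)
      push_cast
      rw [show (o : ℝ) + n - o = n by ring, abs_of_nonneg (Nat.cast_nonneg n : (0 : ℝ) ≤ n)]
      exact this
    · obtain ⟨n, hn⟩ := Int.eq_ofNat_of_zero_le (sub_nonneg.2 hle)
      have e : o = o' + n := by linarith
      subst e
      have := tel_o hdo o' n hoo2 (by push_cast at ho2; exact ho2)
      rw [abs_sub_comm (M k o'), abs_sub_comm (o' : ℝ)]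
      push_cast
      rw [show (o' : ℝ) + n - o' = n by ring, abs_of_nonneg (Nat.cast_nonneg n : (0 : ℝ) ≤ n)]
      exact this
  -- step in `k`
  have s2 : |M k' o' - M k o'| ≤ C' / k * ((k' : ℝ) - k) := by
    obtain ⟨n, rfl⟩ := Nat.exists_eq_add_of_le hkk
    have := tel_k hC.le hk1 (o := o') (M := M) (fun l hl hlo => (H l o' (by omega) hlo).2) n hoo (by
      push_cast at hd; linarith)
    push_cast
    rw [show (k : ℝ) + n - k = n by ring]
    exact this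
  calc |M k' o' - M k o| = |(M k' o' - M k o') + (M k o' - M k o)| := by ring_nf
    _ ≤ |M k' o' - M k o'| + |M k o' - M k o| := abs_add_le _ _
    _ ≤ C' / k * ((k' : ℝ) - k) + C' / k * |(o' : ℝ) - o| := add_le_add s2 s1
    _ = C' * ((k' - k : ℝ) + |(o' : ℝ) - o|) / k := by ring

end Pool.Agent.H499R2.LT
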