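import Pool.Agent.H499R2.LT.B4
import Pool.Agent.H499R2.LT.E1
import Pool.Agent.H499R2.CZ.M
import Pool.Agent.H499R2.CL.O3

/-! Project LT, task E2: the central limit theorem for exact hits. -/

set_option autoImplicit false

namespace Pool.Agent.H499R2.LT

open Pool.Agent.H320R2.PD Finset Filter Topology

open Pool.Agent.H499R2.ND hiding La Ea Me FC Bg Ea_word La_word

open Pool.Agent.H499R2.CZ

open Pool.Agent.H319R2.Lln (mu)

theorem RF_Sp {d : ℤ} (hd : Odd d) (hd3 : IsCoprime d 3) (F : Finset ℤ) : Sp (RF d F) := by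
  obtain ⟨C, hC, h⟩ := RF_SpW hd hd3 F 1
  refine ⟨C, hC, fun A hA hl m hm => ?_⟩
  have := (h A hA hl).1 m hm
  rwa [pow_one] at this

theorem late_cltF {d : ℤ} (hd : Odd d) (hd3 : IsCoprime d 3) (F : Finset ℤ) (f : ℤ) {δ : ℝ} (hδ : 0 ≤ δ)
    (hM : ∀ ε : ℝ, 0 < ε → ∃ A0 : ℝ, 0 < A0 ∧ ∀ A : ℝ, A0 ≤ A → ∀ m : ℕ, (m : ℝ) ^ 2 ≤ Real.log A →
      PB (PF d F f) A m (δ + ε)) (z : ℝ) {ε : ℝ} (hε : 0 < ε) :
    ∃ A0 : ℝ, 0 < A0 ∧ ∀ A : ℝ, A0 ≤ A → ∀ s : ℤ, Real.log A / mu + z * sg * Real.sqrt (Real.log A) ≤ s →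
      PB (LF d F f s) A 0 (δ * (1 - Phi z) + ε) := by
  classical
  have hc0 := c0_pos
  have he : 0 < ε / (8 * (δ + 1)) := by positivity
  obtain ⟨θ, hθ, hθ'⟩ := M_Phi_near (-z) he
  have h2p : 0 < min 1 (ε / 8) := by apply lt_min <;> linarith
  obtain ⟨AM, hAM, hAM'⟩ := hM _ h2p
  obtain ⟨Kt, At, hKt, hAt, htight⟩ := late_tightF hd hd3 F f (show 0 < ε / 8 by positivity)
  obtain ⟨J, hJ1, L2, hL2⟩ := key_len z Kt hθ
  obtain ⟨K0, hK0⟩ := word_clt (-z + θ) he
  obtain ⟨L3, hL3⟩ := M_large J hJ1 K0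
  obtain ⟨CR, hCR, hCR'⟩ := RF_Sp hd hd3 F
  obtain ⟨L0, hL0⟩ := M_core hd hd3 (S := LF d F f) (Q := RF d F) (CQ := CR) hCR
    (fun A hA h8 m hm => hCR' A hA (by linarith) m hm)
    (fun s w hw M x hMo hx hM0 hMS h => LF_word hd hw hMo hx hMS h)
    (δ' := δ + min 1 (ε / 8)) (η := ε / 8) (by positivity) (by positivity)
    (fun B t => t < Kt * B) (At := max At AM) (lt_max_of_lt_left hAt)
    (by
      intro A hA s m hm B hB hb
      refine htight A ((le_max_left _ _).trans hA) s ?_ m hm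
      have h1 : Kt * Real.sqrt (Real.log A) ≤ Kt * B := mul_le_mul_of_nonneg_left hB (by linarith)
      linarith [not_lt.1 hb])
    (by
      intro A hA s m hm
      exact PB_sub (fun x _ _ hx => hx.1) (hAM' A ((le_max_right _ _).trans hA) m hm))
    J (show 0 < ε / 8 by positivity)
  refine ⟨Real.exp (max (max L0 L2) L3), Real.exp_pos _, ?_⟩
  intro A hA s hs
  have hA0 : 0 < A := lt_of_lt_of_le (Real.exp_pos _) hA
  have hLA : max (max L0 L2) L3 ≤ Real.log A := by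
    rw [Real.le_log_iff_exp_le hA0]; exact hA
  obtain ⟨K, cap, hK, hPB⟩ := hL0 A hA0 (((le_max_left _ _).trans (le_max_left _ _)).trans hLA)
  have hkey := hL2 (Real.log A) (((le_max_right _ _).trans (le_max_left _ _)).trans hLA) K hK
  have hKK := hL3 (Real.log A) ((le_max_right _ _).trans hLA) K hK
  refine PB_mono hA0 ?_ (hPB s)
  refine M_arith hδ (by linarith [M_Phi_nonneg z]) hε rfl ?_ rfl rfl
  have hw := (hK0 K hKK cap).1
  rw [Phi_neg] at hθ'
  refine le_trans ?_ (hw.trans (by linarith))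
  apply sum_le_sum_of_subset_of_nonneg
  · intro w hw
    rw [mem_filter] at hw ⊢
    refine ⟨hw.1, ?_⟩
    have h1 := hw.2
    have h2 : c0 * ((w.sum : ℝ) - 2 * (K : ℝ)) ≤ c0 * ((-z + θ) * Real.sqrt (2 * K)) := by
      linarith
    have h3 := le_of_mul_le_mul_left h2 hc0
    linarith
  · intro w _ _
    exact wwt_nonneg w

theorem EF_sub_Ea (d : ℤ) (F : Finset ℤ) (f s : ℤ) : EF d F f s ⊆ Ea d (RF d F) s := by
  rintro x ⟨j, hj, h⟩
  exact ⟨j, hj, h.1 ▸ RF_sub d h.2.1⟩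

theorem early_cltF {d : ℤ} (hd : Odd d) (hd3 : IsCoprime d 3) (F : Finset ℤ) (f : ℤ) {δ : ℝ} (hδ : 0 ≤ δ)
    (hM : ∀ ε : ℝ, 0 < ε → ∃ A0 : ℝ, 0 < A0 ∧ ∀ A : ℝ, A0 ≤ A → ∀ m : ℕ, (m : ℝ) ^ 2 ≤ Real.log A →
      PB (PF d F f) A m (δ + ε)) (z : ℝ) {ε : ℝ} (hε : 0 < ε) :
    ∃ A0 : ℝ, 0 < A0 ∧ ∀ A : ℝ, A0 ≤ A → ∀ s : ℤ, (s : ℝ) ≤ Real.log A / mu + z * sg * Real.sqrt (Real.log A) →
      PB (EF d F f s) A 0 (δ * Phi z + ε) := by
  classical
  have hc0 := c0_pos
  have he : 0 < ε / (8 * (δ + 1)) := by positivity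
  obtain ⟨θ, hθ, hθ'⟩ := M_Phi_near z he
  have h2p : 0 < min 1 (ε / 8) := by apply lt_min <;> linarith
  obtain ⟨AM, hAM, hAM'⟩ := hM _ h2p
  obtain ⟨Kt, At, hKt, hAt, htight⟩ := early_tight hd hd3 (RF_FC d F) (RF_Sp hd hd3 F) (show 0 < ε / 8 by positivity)
  obtain ⟨J, hJ1, L2, hL2⟩ := key_len (-z) Kt hθ
  obtain ⟨K0, hK0⟩ := word_clt (-(z + θ)) he
  obtain ⟨L3, hL3⟩ := M_large J hJ1 K0
  obtain ⟨CR, hCR, hCR'⟩ := RF_Sp hd hd3 F
  obtain ⟨L0, hL0⟩ := M_core hd hd3 (S := EF d F f) (Q := RF d F) (CQ := CR) hCR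
    (fun A hA h8 m hm => hCR' A hA (by linarith) m hm)
    (fun s w hw M x hMo hx hM0 hMS h => EF_word hd hw hMo hx hMS h)
    (δ' := δ + min 1 (ε / 8)) (η := ε / 8) (by positivity) (by positivity)
    (fun B t => -(Kt * B) < t) (At := max At AM) (lt_max_of_lt_left hAt)
    (by
      intro A hA s m hm B hB hb
      refine PB_sub (fun x _ _ hx => EF_sub_Ea d F f s hx)
        (htight A ((le_max_left _ _).trans hA) s ?_ m hm)
      have h1 : Kt * Real.sqrt (Real.log A) ≤ Kt * B := mul_le_mul_of_nonneg_left hB (by linarith)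
      linarith [not_lt.1 hb])
    (by
      intro A hA s m hm
      refine PB_sub (fun x _ _ hx => ?_) (hAM' A ((le_max_right _ _).trans hA) m hm)
      obtain ⟨k, _, hk⟩ := hx
      exact ⟨k, hk⟩)
    J (show 0 < ε / 8 by positivity)
  refine ⟨Real.exp (max (max L0 L2) L3), Real.exp_pos _, ?_⟩
  intro A hA s hs
  have hA0 : 0 < A := lt_of_lt_of_le (Real.exp_pos _) hA
  have hLA : max (max L0 L2) L3 ≤ Real.log A := by
    rw [Real.le_log_iff_exp_le hA0]; exact hA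
  obtain ⟨K, cap, hK, hPB⟩ := hL0 A hA0 (((le_max_left _ _).trans (le_max_left _ _)).trans hLA)
  have hkey := hL2 (Real.log A) (((le_max_right _ _).trans (le_max_left _ _)).trans hLA) K hK
  have hKK := hL3 (Real.log A) ((le_max_right _ _).trans hLA) K hK
  refine PB_mono hA0 ?_ (hPB s)
  refine M_arith hδ (M_Phi_le_one z) hε rfl ?_ rfl rfl
  have hw := (hK0 K hKK cap).2
  rw [Phi_neg] at hw
  refine le_trans ?_ (hw.trans (by linarith))
  apply sum_le_sum_of_subset_of_nonneg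
  · intro w hw
    rw [mem_filter] at hw ⊢
    refine ⟨hw.1, ?_⟩
    have h1 := hw.2
    have h2 : c0 * (-((z + θ) * Real.sqrt (2 * K))) ≤ c0 * ((w.sum : ℝ) - 2 * (K : ℝ)) := by
      rw [neg_neg] at hkey
      linarith
    have h3 := le_of_mul_le_mul_left h2 hc0
    linarith
  · intro w _ _
    exact wwt_nonneg w

theorem dn_of_HD' {S : Set ℤ} {δ : ℝ} (h : HD 1 S δ) : Dn (fun n : ℕ => (n : ℤ) ∈ S) δ := by
  refine (HD_ncard (Or.inl rfl) h).congr fun N => ?_
  unfold Pool.Agent.H499R2.ND.cnt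
  congr 2
  have : {n : ℤ | 0 < 1 * n ∧ 1 * n ≤ N ∧ n ∈ S}
      = (fun n : ℕ => (n : ℤ)) '' {n : ℕ | 1 ≤ n ∧ n ≤ N ∧ (n : ℤ) ∈ S} := by
    ext x
    rw [Set.mem_image]
    constructor
    · rintro ⟨h1, h2, h3⟩
      refine ⟨x.toNat, ⟨by omega, by omega, ?_⟩, by omega⟩
      rw [Int.toNat_of_nonneg (by omega)]; exact h3
    · rintro ⟨n, ⟨h1, h2, h3⟩, rfl⟩
      exact ⟨by omega, by omega, h3⟩
  rw [this, Set.ncard_image_of_injective _ Nat.cast_injective]

theorem Td_two_pow' (d : ℤ) (e : ℕ) (x : ℤ) : (Td d)^[e] (2 ^ e * x) = x := by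
  induction e with
  | zero => simp
  | succ e ih =>
    rw [Function.iterate_succ_apply]
    have : Td d (2 ^ (e + 1) * x) = 2 ^ e * x := by
      have h : 2 ^ (e + 1) * x = 2 * (2 ^ e * x) := by ring
      rw [h]; unfold Td; rw [if_pos (by omega)]; omega
    rw [this, ih]

theorem cast_pow' (b n : ℕ) : ((2 ^ b * n : ℕ) : ℤ) = 2 ^ b * (n : ℤ) := by push_cast; ring

theorem FC_iter {d : ℤ} {R : Set ℤ} (hR : FC d R) (i : ℕ) {z : ℤ} (hz : z ∈ R) : (Td d)^[i] z ∈ R := by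
  induction i with
  | zero => exact hz
  | succ i ih => rw [Function.iterate_succ_apply']; exact hR _ ih

/-- a hit of `2^b x` at time `k` is a hit of `x` at time `k - b`, or `x` is in `RF` -/
theorem Hit_two_pow {d : ℤ} {F : Finset ℤ} {f x : ℤ} {b k : ℕ} (h : Hit d F f (2 ^ b * x) k) :
    (b ≤ k ∧ Hit d F f x (k - b)) ∨ x ∈ RF d F := by
  obtain ⟨h1, h2, h3⟩ := h
  rcases le_or_gt b k with hbk | hbk
  · left
    refine ⟨hbk, ?_, h2, fun i hi hi' => ?_⟩
    · have e : k = (k - b) + b := by omega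
      rw [e, Function.iterate_add_apply, Td_two_pow'] at h1
      exact h1
    · apply h3 (i + b) (by omega)
      rw [Function.iterate_add_apply, Td_two_pow']
      exact hi'
  · right
    refine ⟨f, h2, b - k, ?_⟩
    rw [← h1, ← Function.iterate_add_apply, show b - k + k = b by omega, Td_two_pow']

/-- a hit of `x` at time `k` is a hit of `2^b x` at time `k + b`, or `x` is in `RF` -/
theorem Hit_two_pow' {d : ℤ} {F : Finset ℤ} {f x : ℤ} {b k : ℕ} (h : Hit d F f x k) :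
    Hit d F f (2 ^ b * x) (k + b) ∨ x ∈ RF d F := by
  by_cases hx : x ∈ RF d F
  · exact Or.inr hx
  left
  obtain ⟨h1, h2, h3⟩ := h
  refine ⟨by rw [Function.iterate_add_apply, Td_two_pow']; exact h1, h2, fun i hi hi' => ?_⟩
  rcases le_or_gt b i with hbi | hbi
  · have e : i = (i - b) + b := by omega
    rw [e, Function.iterate_add_apply, Td_two_pow'] at hi'
    exact h3 (i - b) (by omega) hi'
  · apply hx
    refine ⟨_, hi', b - i, ?_⟩
    rw [← Function.iterate_add_apply, show b - i + i = b by omega, Td_two_pow']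

theorem class_PBF {d : ℤ} (hd : Odd d) (hd3 : IsCoprime d 3) (F : Finset ℤ) (f : ℤ) {δ : ℝ}
    (hδ : HD 1 (PF d F f) δ) : ∀ ε : ℝ, 0 < ε → ∃ A0 : ℝ, 0 < A0 ∧ ∀ A : ℝ,
    A0 ≤ A → ∀ m : ℕ, (m : ℝ) ^ 2 ≤ Real.log A → PB (PF d F f) A m (δ + ε) := by
  intro ε hε
  refine class_bound_AI hd hd3 (RF_FC d F) (RF_SpW hd hd3 F) (AI_PF d F f) ?_ hε
  unfold HD at hδ
  simpa only [one_mul, Set.ofPred_mem_eq] using hδ

/-- upper bound of the early event -/
theorem F_upper {d : ℤ} (hd : Odd d) (hd3 : IsCoprime d 3) (F : Finset ℤ) (f : ℤ)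
    {δ : ℝ} (hδ : HD 1 (PF d F f) δ) (x : ℝ) {ε : ℝ} (hε : 0 < ε) :
    ∀ᶠ N : ℕ in atTop, cnt (evF d F f x) N ≤ (δ * Phi x + ε) * N := by
  have hδ0 := dn_nonneg (dn_of_HD' hδ)
  have he : 0 < ε / (2 * (δ + 1)) := by positivity
  obtain ⟨θ, hθ, hθ'⟩ := M_Phi_near x he
  have h := dens_of_windows (Q := evF d F f x) (ρ := δ * Phi (x + θ)) (mul_nonneg hδ0 (M_Phi_nonneg _))
    (by
      intro b ε' hε'
      obtain ⟨A1, hA1, hA1'⟩ := early_cltF hd hd3 F f hδ0 (class_PBF hd hd3 F f hδ) (x + θ)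
        (show 0 < ε' / 2 by positivity)
      obtain ⟨A2, hA2, hA2'⟩ := O_win x hθ (E := (b + 1) * Real.log 2) (D := 0)
        (by have := Real.log_pos (by norm_num : (1 : ℝ) < 2); positivity) le_rfl
      obtain ⟨CR, hCR, hCR'⟩ := RF_Sp hd hd3 F
      refine ⟨max (max A1 A2) (Real.exp (max 1 (CR / (ε' / 2)))), lt_max_of_lt_left (lt_max_of_lt_left hA1), ?_⟩
      intro A hA
      have hA0 : 0 < A := hA1.trans_le (((le_max_left _ _).trans (le_max_left _ _)).trans hA)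
      obtain ⟨hL1, hw⟩ := hA2' A (((le_max_right _ _).trans (le_max_left _ _)).trans hA)
      have hLA : max 1 (CR / (ε' / 2)) ≤ Real.log A := by
        rw [Real.le_log_iff_exp_le hA0]; exact (le_max_right _ _).trans hA
      have hL1' : 1 ≤ Real.log A := (le_max_left _ _).trans hLA
      have hL2 : CR / (ε' / 2) ≤ Real.log A := (le_max_right _ _).trans hLA
      have hP2 : PB (RF d F) A 0 (CR / Real.log A) := hCR' A hA0 hL1' 0
        (by simpa using (by linarith : (0 : ℝ) ≤ Real.log A))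
      have hPB := hA1' A (((le_max_left _ _).trans (le_max_left _ _)).trans hA)
        ⌊Real.log A / mu + (x + θ) * sg * Real.sqrt (Real.log A)⌋ (Int.floor_le _)
      have hle : δ * Phi (x + θ) + ε' / 2 + CR / Real.log A ≤ δ * Phi (x + θ) + ε' := by
        have : CR / Real.log A ≤ ε' / 2 := by
          rw [div_le_iff₀ (by linarith)]
          rw [div_le_iff₀ (by positivity)] at hL2
          linarith
        linarith
      refine PB_sub (fun y hy1 hy2 hy => ?_) (PB_mono hA0 hle (PB_union hPB hP2))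
      obtain ⟨hy0, k, hk, hj⟩ := hy
      obtain ⟨hl1, hl2⟩ := O_log hA0 (e := b) hy1 hy2
      have hk2 := (hw _ hl1 hl2).1
      rw [add_zero] at hk2
      have hk3 : (k : ℤ) ≤ ⌊Real.log A / mu + (x + θ) * sg * Real.sqrt (Real.log A)⌋ := by
        rw [Int.le_floor]
        exact_mod_cast hk.trans hk2
      obtain ⟨n, rfl⟩ : ∃ n : ℕ, y = n := ⟨y.toNat, (Int.toNat_of_nonneg (by omega)).symm⟩
      rw [Int.toNat_natCast, cast_pow'] at hj
      rcases Hit_two_pow hj with ⟨hbk, h⟩ | h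
      · exact Or.inl ⟨k - b, by omega, h⟩
      · exact Or.inr h)
    (show 0 < ε / 2 by positivity)
  filter_upwards [h] with N hN
  refine hN.trans ?_
  apply mul_le_mul_of_nonneg_right _ (Nat.cast_nonneg N)
  have h1 : δ * Phi (x + θ) ≤ δ * (Phi x + ε / (2 * (δ + 1))) := mul_le_mul_of_nonneg_left hθ' hδ0
  have h2 : δ * (ε / (2 * (δ + 1))) ≤ ε / 2 := by
    have : δ * (ε / (2 * (δ + 1))) = ε / 2 * (δ / (δ + 1)) := by field_simp
    rw [this]
    have h3 : δ / (δ + 1) ≤ 1 := by rw [div_le_one (by positivity)]; linarith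
    nlinarith
  linarith

/-- upper bound of the late event -/
theorem F_lower {d : ℤ} (hd : Odd d) (hd3 : IsCoprime d 3) (F : Finset ℤ) (f : ℤ)
    {δ : ℝ} (hδ : HD 1 (PF d F f) δ) (x : ℝ) {ε : ℝ} (hε : 0 < ε) :
    ∀ᶠ N : ℕ in atTop, cnt (fun n => (n : ℤ) ∈ PF d F f ∧ ¬ evF d F f x n) N ≤ (δ * (1 - Phi x) + ε) * N := by
  have hδ0 := dn_nonneg (dn_of_HD' hδ)
  have he : 0 < ε / (2 * (δ + 1)) := by positivity
  obtain ⟨θ, hθ, hθ'⟩ := M_Phi_near (-x) he
  have hq : 1 - Phi (x - θ) ≤ 1 - Phi x + ε / (2 * (δ + 1)) := by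
    have e1 : Phi (-x + θ) = 1 - Phi (x - θ) := by
      rw [← Phi_neg]; congr 1; ring
    rw [e1, Phi_neg] at hθ'
    exact hθ'
  have h := dens_of_windows (Q := fun n => (n : ℤ) ∈ PF d F f ∧ ¬ evF d F f x n) (ρ := δ * (1 - Phi (x - θ)))
    (mul_nonneg hδ0 (by linarith [M_Phi_le_one (x - θ)]))
    (by
      intro b ε' hε'
      obtain ⟨A1, hA1, hA1'⟩ := late_cltF hd hd3 F f hδ0 (class_PBF hd hd3 F f hδ) (x - θ)
        (show 0 < ε' / 2 by positivity)
      obtain ⟨A2, hA2, hA2'⟩ := O_win x hθ (E := (b + 1) * Real.log 2) (D := b + 1)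
        (by have := Real.log_pos (by norm_num : (1 : ℝ) < 2); positivity) (by positivity)
      obtain ⟨CR, hCR, hCR'⟩ := RF_Sp hd hd3 F
      refine ⟨max (max A1 A2) (Real.exp (max 1 (CR / (ε' / 2)))), lt_max_of_lt_left (lt_max_of_lt_left hA1), ?_⟩
      intro A hA
      have hA0 : 0 < A := hA1.trans_le (((le_max_left _ _).trans (le_max_left _ _)).trans hA)
      obtain ⟨hL1, hw⟩ := hA2' A (((le_max_right _ _).trans (le_max_left _ _)).trans hA)
      have hLA : max 1 (CR / (ε' / 2)) ≤ Real.log A := by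
        rw [Real.le_log_iff_exp_le hA0]; exact (le_max_right _ _).trans hA
      have hL1' : 1 ≤ Real.log A := (le_max_left _ _).trans hLA
      have hL2 : CR / (ε' / 2) ≤ Real.log A := (le_max_right _ _).trans hLA
      have hP2 : PB (RF d F) A 0 (CR / Real.log A) := hCR' A hA0 hL1' 0
        (by simpa using (by linarith : (0 : ℝ) ≤ Real.log A))
      have hPB := hA1' A (((le_max_left _ _).trans (le_max_left _ _)).trans hA)
        ⌈Real.log A / mu + (x - θ) * sg * Real.sqrt (Real.log A)⌉ (Int.le_ceil _)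
      have hle : δ * (1 - Phi (x - θ)) + ε' / 2 + CR / Real.log A ≤ δ * (1 - Phi (x - θ)) + ε' := by
        have : CR / Real.log A ≤ ε' / 2 := by
          rw [div_le_iff₀ (by linarith)]
          rw [div_le_iff₀ (by positivity)] at hL2
          linarith
        linarith
      refine PB_sub (fun y hy1 hy2 hy => ?_) (PB_mono hA0 hle (PB_union hPB hP2))
      obtain ⟨hy0, hC, hE⟩ := hy
      obtain ⟨hl1, hl2⟩ := O_log hA0 (e := b) hy1 hy2
      have hk2 := (hw _ hl1 hl2).2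
      obtain ⟨n, rfl⟩ : ∃ n : ℕ, y = n := ⟨y.toNat, (Int.toNat_of_nonneg (by omega)).symm⟩
      rw [Int.toNat_natCast] at hC hE hk2
      by_cases hnR : (n : ℤ) ∈ RF d F
      · exact Or.inr hnR
      left
      rw [cast_pow'] at hC
      refine ⟨?_, ?_⟩
      · obtain ⟨k, hk⟩ := hC
        rcases Hit_two_pow hk with ⟨_, h⟩ | h
        · exact ⟨_, h⟩
        · exact absurd h hnR
      · rintro ⟨k, hk, hk'⟩
        apply hE
        refine ⟨k + b, ?_, ?_⟩
        · refine le_trans ?_ hk2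
          have h1 := Int.ceil_lt_add_one (Real.log A / mu + (x - θ) * sg * Real.sqrt (Real.log A))
          have h2 : (k : ℝ) ≤ (⌈Real.log A / mu + (x - θ) * sg * Real.sqrt (Real.log A)⌉ : ℝ) := by
            exact_mod_cast hk
          push_cast
          linarith
        · rw [cast_pow']
          rcases Hit_two_pow' (b := b) hk' with h | h
          · exact h
          · exact absurd h hnR)
    (show 0 < ε / 2 by positivity)
  filter_upwards [h] with N hN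
  refine hN.trans ?_
  apply mul_le_mul_of_nonneg_right _ (Nat.cast_nonneg N)
  have h1 : δ * (1 - Phi (x - θ)) ≤ δ * (1 - Phi x + ε / (2 * (δ + 1))) := mul_le_mul_of_nonneg_left hq hδ0
  have h2 : δ * (ε / (2 * (δ + 1))) ≤ ε / 2 := by
    have : δ * (ε / (2 * (δ + 1))) = ε / 2 * (δ / (δ + 1)) := by field_simp
    rw [this]
    have h3 : δ / (δ + 1) ≤ 1 := by rw [div_le_one (by positivity)]; linarith
    nlinarith
  linarith

/-- CENTRAL LIMIT THEOREM for exact hits -/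
theorem cltF {d : ℤ} (hd : Odd d) (hd3 : IsCoprime d 3) (F : Finset ℤ) (f : ℤ)
    {δ : ℝ} (hδ : HD 1 (PF d F f) δ) (x : ℝ) : Dn (evF d F f x) (δ * Phi x) := by
  unfold Dn
  rw [Metric.tendsto_atTop']
  intro ε hε
  have h1 := F_upper hd hd3 F f hδ x (show 0 < ε / 4 by positivity)
  have h2 := F_lower hd hd3 F f hδ x (show 0 < ε / 4 by positivity)
  have h3 : ∀ᶠ N : ℕ in atTop, δ - ε / 4 < cnt (fun n : ℕ => (n : ℤ) ∈ PF d F f) N / N :=
    (Tendsto.eventually (dn_of_HD' hδ) (lt_mem_nhds (by linarith)))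
  obtain ⟨N0, hN0⟩ := eventually_atTop.1 (h1.and (h2.and (h3.and (eventually_gt_atTop 0))))
  refine ⟨N0, fun N hN => ?_⟩
  obtain ⟨h1, h2, h3, h4⟩ := hN0 N hN.le
  have hN' : (0 : ℝ) < N := by exact_mod_cast h4
  rw [lt_div_iff₀ hN'] at h3
  have h5 : cnt (fun n : ℕ => (n : ℤ) ∈ PF d F f) N ≤ cnt (evF d F f x) N
      + cnt (fun n => (n : ℤ) ∈ PF d F f ∧ ¬ evF d F f x n) N := by
    apply cnt_or
    intro n _ _ hn
    by_cases h : evF d F f x n
    · exact Or.inl h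
    · exact Or.inr ⟨hn, h⟩
  rw [Real.dist_eq, abs_lt]
  constructor
  · rw [neg_lt_sub_iff_lt_add, ← sub_lt_iff_lt_add', lt_div_iff₀ hN']
    nlinarith
  · rw [sub_lt_iff_lt_add', div_lt_iff₀ hN']
    nlinarith

end Pool.Agent.H499R2.LT
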