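import Pool.Agent.H499R2.LT.MDefs
import Pool.Agent.H499R2.LT.B5

/-! Project LT, task ME1: window densities of graded families are almost harmonic. -/

set_option autoImplicit false

namespace Pool.Agent.H499R2.LT

open Pool.Agent.H320R2.PD Finset Filter Topology

open Pool.Agent.H499R2.ND hiding La Ea Me FC

open Pool.Agent.H499R2.CZ

open Pool.Agent.H319R2.Lln (mu)

/-- one level of a graded family -/
structure G3 (d : ℤ) (R S S0 S1 : Set ℤ) : Prop where
  two : ∀ x : ℤ, 2 * x ∉ R → (2 * x ∈ S ↔ x ∈ S0)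
  odd : ∀ n n' : ℤ, n ∉ R → Odd n → 2 * n' = 3 * n + d → (n ∈ S ↔ n' ∈ S1)

theorem GF.g3 {d : ℤ} {R : Set ℤ} {S : ℤ → ℤ → Set ℤ} (h : GF d R S) (k o : ℤ) :
    G3 d R (S k o) (S (k - 1) o) (S (k - 1) (o - 1)) := by
  constructor
  · intro x hx
    rw [h k o (2 * x) hx]
    have : Td d (2 * x) = x := by unfold Td; rw [if_pos (by omega)]; omega
    rw [this, if_pos (by omega), sub_zero]
  · intro n n' hnR hn hnn
    rw [h k o n hnR]
    have h2 : ¬ n % 2 = 0 := by obtain ⟨t, ht⟩ := hn; omega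
    have : Td d n = n' := by
      unfold Td
      rw [if_neg h2, ← hnn]
      omega
    rw [this, if_neg h2]

/-- parity decomposition, upper bound -/
theorem G3.parity_le {d : ℤ} {R S S0 S1 : Set ℤ} (h : G3 d R S S0 S1) (A : ℝ) :
    (wc S A (2 * A) 1 0).card
      ≤ (cls S A (2 * A) 0 1 0).card + (wc S0 (A / 2) (2 * (A / 2)) 1 0).card + (wc R A (2 * A) 1 0).card := by
  classical
  have hev : (wc S0 (A / 2) (2 * (A / 2)) 1 0).card
      = ((wc S0 (A / 2) (2 * (A / 2)) 1 0).image fun x => 2 * x).card := by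
    rw [card_image_of_injective]
    intro x y hxy
    simp only at hxy
    omega
  rw [hev]
  have hsub : wc S A (2 * A) 1 0 ⊆ (cls S A (2 * A) 0 1 0 ∪
      ((wc S0 (A / 2) (2 * (A / 2)) 1 0).image fun x => 2 * x)) ∪ wc R A (2 * A) 1 0 := by
    intro x hx
    rw [mem_wc] at hx
    obtain ⟨h1, h2, h3⟩ := hx
    rw [mem_union, mem_union, mem_cls, mem_image, mem_wc]
    by_cases hxR : x ∈ R
    · exact Or.inr ⟨h1, hxR, one_dvd _⟩
    · left
      rcases Int.even_or_odd x with he | ho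
      · right
        obtain ⟨y, hy⟩ := he
        refine ⟨y, ?_, by omega⟩
        rw [mem_wc]
        have hxy : (x : ℝ) = 2 * y := by rw [hy]; push_cast; ring
        refine ⟨⟨by linarith [h1.1], by linarith [h1.2]⟩, ?_, one_dvd _⟩
        have hx2 : x = 2 * y := by omega
        rw [hx2] at hxR h2
        exact (h.two _ hxR).1 h2
      · left
        exact ⟨h1, ho, h2, by simp⟩
  refine (card_le_card hsub).trans ?_
  refine (card_union_le _ _).trans ?_
  gcongr
  exact card_union_le _ _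

/-- parity decomposition, lower bound -/
theorem G3.parity_ge {d : ℤ} {R S S0 S1 : Set ℤ} (h : G3 d R S S0 S1) (A : ℝ) :
    (cls S A (2 * A) 0 1 0).card + (wc S0 (A / 2) (2 * (A / 2)) 1 0).card
      ≤ (wc S A (2 * A) 1 0).card + (wc R A (2 * A) 1 0).card := by
  classical
  have hev : (wc S0 (A / 2) (2 * (A / 2)) 1 0).card
      = ((wc S0 (A / 2) (2 * (A / 2)) 1 0).image fun x => 2 * x).card := by
    rw [card_image_of_injective]
    intro x y hxy
    simp only at hxy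
    omega
  rw [hev, ← card_union_of_disjoint]
  · refine le_trans (card_le_card ?_) (card_union_le _ _)
    intro x hx
    rw [mem_union, mem_cls, mem_image] at hx
    rw [mem_union, mem_wc, mem_wc]
    rcases hx with ⟨h1, h3, h2, _⟩ | ⟨y, hy, rfl⟩
    · exact Or.inl ⟨h1, h2, one_dvd _⟩
    · rw [mem_wc] at hy
      obtain ⟨h1, h2, h3⟩ := hy
      push_cast
      by_cases hxR : 2 * y ∈ R
      · exact Or.inr ⟨⟨by linarith [h1.1], by linarith [h1.2]⟩, hxR, one_dvd _⟩
      · exact Or.inl ⟨⟨by linarith [h1.1], by linarith [h1.2]⟩, (h.two _ hxR).2 h2, one_dvd _⟩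
  · rw [Finset.disjoint_left]
    intro x hx hx'
    rw [mem_cls] at hx
    rw [mem_image] at hx'
    obtain ⟨y, _, rfl⟩ := hx'
    have := hx.2.1
    rw [Int.odd_iff] at this
    omega

/-- the odd elements of a window and their images, upper bound -/
theorem G3.odd_le {d : ℤ} (hd : Odd d) {R S S0 S1 : Set ℤ} (h : G3 d R S S0 S1) (A : ℝ) :
    (cls S A (2 * A) 0 1 0).card
      ≤ (wc S1 (3 * A / 2 + d / 2) (2 * (3 * A / 2) + d / 2) 3 (2 * d)).card + (wc R A (2 * A) 1 0).card := by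
  classical
  apply card_le_of_exc (fun n => (3 * n + d) / 2)
  · intro n hn n' hn' heq
    have hn := Finset.mem_coe.1 hn
    have hn' := Finset.mem_coe.1 hn'
    rw [mem_cls] at hn hn'
    have hev := odd_img hd hn.2.1
    have hev' := odd_img hd hn'.2.1
    simp only at heq
    omega
  · intro n hn hnR
    rw [mem_cls] at hn
    obtain ⟨h1, h2, h3, _⟩ := hn
    have hev := odd_img hd h2
    have hR : (2 : ℝ) * (((3 * n + d) / 2 : ℤ) : ℝ) = 3 * n + d := by exact_mod_cast hev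
    have hnR' : n ∉ R := by
      intro hc
      apply hnR
      rw [mem_wc]
      exact ⟨h1, hc, one_dvd _⟩
    rw [mem_wc]
    refine ⟨⟨by linarith [h1.1], by linarith [h1.2]⟩, (h.odd _ _ hnR' h2 hev).1 h3, ?_⟩
    exact ⟨2 * n - ((3 * n + d) / 2), by omega⟩

/-- the odd elements of a window and their images, lower bound -/
theorem G3.odd_ge {d : ℤ} (hd : Odd d) {R S S0 S1 : Set ℤ} (h : G3 d R S S0 S1) (A : ℝ) :
    (wc S1 (3 * A / 2 + d / 2) (2 * (3 * A / 2) + d / 2) 3 (2 * d)).card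
      ≤ (cls S A (2 * A) 0 1 0).card + (wc R A (2 * A) 1 0).card := by
  classical
  have key : ∀ x ∈ wc S1 (3 * A / 2 + d / 2) (2 * (3 * A / 2) + d / 2) 3 (2 * d),
      ∃ n : ℤ, 2 * x = 3 * n + d ∧ Odd n ∧ A ≤ n ∧ (n : ℝ) < 2 * A ∧ (2 * x - d) / 3 = n := by
    intro x hx
    rw [mem_wc] at hx
    obtain ⟨h1, h2, t, ht⟩ := hx
    have hn : 2 * x = 3 * (2 * t + d) + d := by omega
    have hodd : Odd (2 * t + d) := (even_two_mul t).add_odd hd
    have hR : (2 : ℝ) * x = 3 * ((2 * t + d : ℤ) : ℝ) + d := by exact_mod_cast hn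
    exact ⟨2 * t + d, hn, hodd, by linarith [h1.1], by linarith [h1.2], by omega⟩
  refine le_trans ?_ (card_union_le _ _)
  apply Finset.card_le_card_of_injOn (fun x => (2 * x - d) / 3)
  · intro x hx
    have hx := Finset.mem_coe.1 hx
    obtain ⟨n, hn, hodd, hA1, hA2, he⟩ := key x hx
    rw [mem_wc] at hx
    apply Finset.mem_coe.2
    simp only
    rw [he, mem_union, mem_cls, mem_wc]
    by_cases hnR : n ∈ R
    · exact Or.inr ⟨⟨hA1, hA2⟩, hnR, one_dvd _⟩
    · exact Or.inl ⟨⟨hA1, hA2⟩, hodd, (h.odd _ _ hnR hodd hn).2 hx.2.1, by simp⟩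
  · intro x hx y hy hxy
    obtain ⟨n, hn, _, _, _, he⟩ := key x (Finset.mem_coe.1 hx)
    obtain ⟨n', hn', _, _, _, he'⟩ := key y (Finset.mem_coe.1 hy)
    simp only at hxy
    rw [he, he'] at hxy
    omega

/-- THE HARMONIC RELATION for almost invariant sets -/
theorem harm_G {d : ℤ} (hd : Odd d) (hd3 : IsCoprime d 3) {R : Set ℤ} (hR : FC d R) (hRs : SpW R) :
    ∃ K : ℝ, 0 < K ∧ ∀ F : ℤ → ℤ → Set ℤ, GF d R F → ∀ (k o : ℤ) (A : ℝ), 0 < A → 1002 ≤ Real.log A →
      |((wc (F k o) A (2 * A) 1 0).card : ℝ) - (wc (F (k - 1) o) (A / 2) (2 * (A / 2)) 1 0).card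
        - (wc (F (k - 1) (o - 1)) (3 * A / 2) (2 * (3 * A / 2)) 1 0).card / 3| ≤ K / (Real.log A) ^ 2 * A := by
  obtain ⟨K, hK, he⟩ := equi_allG hd hd3 hR hRs
  obtain ⟨C, hC, hsp⟩ := hRs 2
  refine ⟨2 * K + 2 * |(d : ℝ)| + 2 + 2 * C, by positivity, ?_⟩
  intro F hF k o A hA ht
  have hS := hF.g3 k o
  have he1 : ∀ L : ℝ, 0 < L → 1001 ≤ Real.log L → ∀ c c' : ℤ,
      ((wc (F (k - 1) (o - 1)) L (2 * L) 3 c).card : ℝ)
        ≤ (wc (F (k - 1) (o - 1)) L (2 * L) 3 c').card + K / (Real.log L) ^ 2 * L :=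
    fun L hL hL2 c c' => he F hF L hL hL2 (k - 1) (o - 1) c c'
  generalize F k o = S at hS ⊢
  generalize F (k - 1) o = S0 at hS ⊢
  generalize F (k - 1) (o - 1) = S1 at hS he1 ⊢
  have hr := (hsp A hA (by linarith)).2
  set r : ℝ := ((wc R A (2 * A) 1 0).card : ℝ) with hrdef
  have h1 : ((wc S A (2 * A) 1 0).card : ℝ)
      ≤ (cls S A (2 * A) 0 1 0).card + (wc S0 (A / 2) (2 * (A / 2)) 1 0).card + r := by
    rw [hrdef]; exact_mod_cast hS.parity_le A
  have h1' : ((cls S A (2 * A) 0 1 0).card : ℝ) + (wc S0 (A / 2) (2 * (A / 2)) 1 0).card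
      ≤ (wc S A (2 * A) 1 0).card + r := by
    rw [hrdef]; exact_mod_cast hS.parity_ge A
  have h2 : ((cls S A (2 * A) 0 1 0).card : ℝ)
      ≤ (wc S1 (3 * A / 2 + d / 2) (2 * (3 * A / 2) + d / 2) 3 (2 * d)).card + r := by
    rw [hrdef]; exact_mod_cast hS.odd_le hd A
  have h2' : ((wc S1 (3 * A / 2 + d / 2) (2 * (3 * A / 2) + d / 2) 3 (2 * d)).card : ℝ)
      ≤ (cls S A (2 * A) 0 1 0).card + r := by
    rw [hrdef]; exact_mod_cast hS.odd_ge hd A
  set L := 3 * A / 2 with hL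
  have hLpos : 0 < L := by positivity
  have hlogL : Real.log A ≤ Real.log L := Real.log_le_log hA (by rw [hL]; linarith)
  have h3 := wc_shift_le S1 L (d / 2) 3 (2 * d)
  have h4 := wc_shift_ge S1 L (d / 2) 3 (2 * d)
  have hthree : ((wc S1 L (2 * L) 1 0).card : ℝ)
      = (wc S1 L (2 * L) 3 0).card + (wc S1 L (2 * L) 3 1).card + (wc S1 L (2 * L) 3 2).card := by
    exact_mod_cast wc_three S1 L (2 * L)
  have he' : ∀ c c' : ℤ, ((wc S1 L (2 * L) 3 c).card : ℝ)
        ≤ (wc S1 L (2 * L) 3 c').card + K / (Real.log L) ^ 2 * L :=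
    fun c c' => he1 L hLpos (by linarith) c c'
  set D := K / (Real.log L) ^ 2 * L with hD
  have u0 := he' (2 * d) 0
  have u1 := he' (2 * d) 1
  have u2 := he' (2 * d) 2
  have v0 := he' 0 (2 * d)
  have v1 := he' 1 (2 * d)
  have v2 := he' 2 (2 * d)
  have hDle : D ≤ 3 / 2 * (K / (Real.log A) ^ 2 * A) := by
    rw [hD, hL]
    have htpos : 0 < Real.log A := by linarith
    have : K / (Real.log (3 * A / 2)) ^ 2 ≤ K / (Real.log A) ^ 2 := by
      apply div_le_div_of_nonneg_left hK.le (by positivity)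
      exact pow_le_pow_left₀ htpos.le hlogL 2
    calc K / (Real.log (3 * A / 2)) ^ 2 * (3 * A / 2) ≤ K / (Real.log A) ^ 2 * (3 * A / 2) :=
          mul_le_mul_of_nonneg_right this (by positivity)
      _ = _ := by ring
  have hD0 : 0 ≤ D := by positivity
  have hd2 : |(d : ℝ) / 2| = |(d : ℝ)| / 2 := by rw [abs_div, abs_of_pos (by norm_num : (0 : ℝ) < 2)]
  rw [hd2] at h3 h4
  -- the constant is absorbed
  have habs : (2 * |(d : ℝ)| + 2) / (Real.log A) ^ 2 * A ≥ |(d : ℝ)| + 1 := by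
    have htpos : 0 < Real.log A := by linarith
    have h5 : (Real.log A) ^ 2 / 2 ≤ A := by
      have := Real.pow_div_factorial_le_exp (Real.log A) htpos.le 2
      rw [Real.exp_log hA] at this
      simpa using this
    rw [ge_iff_le, div_mul_eq_mul_div, le_div_iff₀ (by positivity)]
    have : 0 ≤ |(d : ℝ)| := abs_nonneg _
    nlinarith
  have hfin : (2 * K + 2 * |(d : ℝ)| + 2 + 2 * C) / (Real.log A) ^ 2 * A
      = 2 * (K / (Real.log A) ^ 2 * A) + (2 * |(d : ℝ)| + 2) / (Real.log A) ^ 2 * A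
        + 2 * (C / (Real.log A) ^ 2 * A) := by ring
  rw [hfin]
  have h0d : 0 ≤ |(d : ℝ)| := abs_nonneg _
  have hKA : 0 ≤ K / (Real.log A) ^ 2 * A := by positivity
  rw [abs_le]
  constructor <;> linarith

theorem Fd_harmG {d : ℤ} (hd : Odd d) (hd3 : IsCoprime d 3) {R : Set ℤ} (hR : FC d R) (hRs : SpW R) :
    ∃ K : ℝ, 0 < K ∧ ∀ S : ℤ → ℤ → Set ℤ, GF d R S → ∀ (k o : ℤ) (t : ℝ), 1002 ≤ t →
      |Fd (S k o) t - (Fd (S (k - 1) o) (t - Real.log 2) + Fd (S (k - 1) (o - 1)) (t + Real.log (3 / 2))) / 2|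
        ≤ K / t ^ 2 := by
  obtain ⟨K, hK, h⟩ := harm_G hd hd3 hR hRs
  refine ⟨K, hK, fun F hF k o t ht => ?_⟩
  have he := Real.exp_pos t
  have h1 := h F hF k o (Real.exp t) he (by rw [Real.log_exp]; exact ht)
  generalize F k o = S at h1 ⊢
  generalize F (k - 1) o = S0 at h1 ⊢
  generalize F (k - 1) (o - 1) = S1 at h1 ⊢
  rw [Real.log_exp] at h1
  have e1 : Real.exp (t - Real.log 2) = Real.exp t / 2 := by
    rw [Real.exp_sub, Real.exp_log (by norm_num)]
  have e2 : Real.exp (t + Real.log (3 / 2)) = 3 * Real.exp t / 2 := by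
    rw [Real.exp_add, Real.exp_log (by norm_num)]; ring
  have w0 := Fd_win S t
  have w1 := Fd_win S0 (t - Real.log 2)
  have w2 := Fd_win S1 (t + Real.log (3 / 2))
  rw [e1] at w1
  rw [e2] at w2
  rw [← w0, ← w1, ← w2] at h1
  set A := Real.exp t with hA
  have hrel : Fd S t * (3 * A) - Fd S0 (t - Real.log 2) * (3 * (A / 2))
      - Fd S1 (t + Real.log (3 / 2)) * (3 * (3 * A / 2)) / 3
      = (Fd S t - (Fd S0 (t - Real.log 2) + Fd S1 (t + Real.log (3 / 2))) / 2) * (3 * A) := by ring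
  rw [hrel, abs_mul, abs_of_pos (by positivity : (0 : ℝ) < 3 * A)] at h1
  have hX := abs_nonneg (Fd S t - (Fd S0 (t - Real.log 2) + Fd S1 (t + Real.log (3 / 2))) / 2)
  have htpos : 0 < t := by linarith
  have hKt : 0 < K / t ^ 2 := by positivity
  by_contra hcon
  push Not at hcon
  nlinarith


end Pool.Agent.H499R2.LT
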