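import Mathlib
import Pool.Agent.H499R2.NDHarmLimit

/-! Project LT, task ME2: equidistribution modulo `m`, pure analysis (maximum principle for a vector
of almost harmonic functions, irrationality of `log 2 / log 3`). -/

set_option autoImplicit false

namespace Pool.Agent.H499R2.LT

open Finset Filter Topology

theorem ME2_per {m : ℕ} {α : Type} {f : ℤ → α} (h : ∀ k, f (k + m) = f k) {k k' : ℤ}
    (hd : (m : ℤ) ∣ k' - k) : f k' = f k := by
  obtain ⟨z, hz⟩ := hd
  have hp : Function.Periodic f (m : ℤ) := h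
  have h1 := hp.int_mul z k
  rw [Int.cast_id] at h1
  rw [← h1]
  congr 1
  have h2 := mul_comm (m : ℤ) z
  linarith

/-- small combinations with given residues -/
theorem ME2_small {m : ℕ} (hm : 1 ≤ m) (a b : ℤ) (δ : ℝ) (hδ : 0 < δ) :
    ∃ i j : ℕ, (m : ℤ) ∣ a - (i + j) ∧ (m : ℤ) ∣ b - j ∧
      |-(i : ℝ) * Real.log 2 + j * Real.log (3 / 2)| ≤ δ := by
  have ha := HL.a_pos
  have hb := HL.b_pos
  have hba := HL.b_lt_a
  have hm0 : (m : ℤ) ≠ 0 := by exact_mod_cast (by omega : m ≠ 0)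
  have hmpos : (0 : ℤ) < m := by exact_mod_cast (by omega : 0 < m)
  have hmR : (0 : ℝ) < m := by exact_mod_cast (by omega : 0 < m)
  -- residues
  obtain ⟨j₀, hj₀⟩ : ∃ j₀ : ℕ, (j₀ : ℤ) = b % m := ⟨(b % m).toNat, Int.toNat_of_nonneg (Int.emod_nonneg _ hm0)⟩
  obtain ⟨i₀, hi₀⟩ : ∃ i₀ : ℕ, (i₀ : ℤ) = (a - b) % m :=
    ⟨((a - b) % m).toNat, Int.toNat_of_nonneg (Int.emod_nonneg _ hm0)⟩
  have hj₀m : (j₀ : ℤ) < m := by rw [hj₀]; exact Int.emod_lt_of_pos _ hmpos
  have hi₀m : (i₀ : ℤ) < m := by rw [hi₀]; exact Int.emod_lt_of_pos _ hmpos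
  have hjd : (m : ℤ) ∣ b - j₀ := by rw [hj₀]; exact Int.dvd_self_sub_of_emod_eq rfl
  have hid : (m : ℤ) ∣ (a - b) - i₀ := by rw [hi₀]; exact Int.dvd_self_sub_of_emod_eq rfl
  have hj₀R : (j₀ : ℝ) < m := by exact_mod_cast hj₀m
  have hi₀R : (i₀ : ℝ) < m := by exact_mod_cast hi₀m
  have hj₀0 : (0 : ℝ) ≤ j₀ := Nat.cast_nonneg _
  have hi₀0 : (0 : ℝ) ≤ i₀ := Nat.cast_nonneg _
  obtain ⟨u, hu⟩ : ∃ u : ℝ, u = ((i₀ : ℝ) * Real.log 2 - j₀ * Real.log (3 / 2)) / m := ⟨_, rfl⟩
  have hum : u * m = (i₀ : ℝ) * Real.log 2 - j₀ * Real.log (3 / 2) := by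
    rw [hu]; field_simp
  have hu1 : -Real.log 2 ≤ u := by
    rw [hu, le_div_iff₀ hmR]
    nlinarith
  have hu2 : u ≤ Real.log 2 := by
    rw [hu, div_le_iff₀ hmR]
    nlinarith
  obtain ⟨n, hn⟩ := HL.net (δ / m) (by positivity)
  -- approximation of `u`
  obtain ⟨i', j', hij⟩ : ∃ i' j' : ℕ, |u - (-(i' : ℝ) * Real.log 2 + j' * Real.log (3 / 2))| ≤ δ / m := by
    by_cases h : u ≤ Real.log (3 / 2)
    · obtain ⟨i', j', _, h1⟩ := hn u hu1 h
      exact ⟨i', j', h1⟩
    · push Not at h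
      have h2 : Real.log 2 ≤ 2 * Real.log (3 / 2) := by
        have e : 2 * Real.log (3 / 2) = Real.log ((3 / 2) ^ 2) := by
          rw [Real.log_pow]; norm_num
        rw [e]
        exact Real.log_le_log (by norm_num) (by norm_num)
      obtain ⟨i', j', _, h1⟩ := hn (u - Real.log (3 / 2)) (by linarith) (by linarith)
      refine ⟨i', j' + 1, ?_⟩
      rw [show u - (-(i' : ℝ) * Real.log 2 + ((j' + 1 : ℕ) : ℝ) * Real.log (3 / 2)) =
        u - Real.log (3 / 2) - (-(i' : ℝ) * Real.log 2 + j' * Real.log (3 / 2)) by push_cast; ring]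
      exact h1
  refine ⟨i₀ + m * i', j₀ + m * j', ?_, ?_, ?_⟩
  · have e : a - (((i₀ + m * i' : ℕ) : ℤ) + ((j₀ + m * j' : ℕ) : ℤ)) =
        ((a - b) - i₀) + (b - j₀) - m * (i' + j') := by push_cast; ring
    rw [e]
    exact dvd_sub (dvd_add hid hjd) (dvd_mul_right _ _)
  · have e : b - ((j₀ + m * j' : ℕ) : ℤ) = (b - j₀) - m * j' := by push_cast; ring
    rw [e]
    exact dvd_sub hjd (dvd_mul_right _ _)
  · have e : -((i₀ + m * i' : ℕ) : ℝ) * Real.log 2 + ((j₀ + m * j' : ℕ) : ℝ) * Real.log (3 / 2) =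
        -((u - (-(i' : ℝ) * Real.log 2 + j' * Real.log (3 / 2))) * m) := by
      rw [sub_mul, hum]
      push_cast
      ring
    rw [e, abs_neg, abs_mul, abs_of_pos hmR]
    rw [le_div_iff₀ hmR] at hij
    exact hij

/-- near the upper limit the value propagates backwards along the steps -/
theorem ME2_propagate {F : ℤ → ℤ → ℝ → ℝ} {M t0 C : ℝ}
    (hM : ∀ δ, 0 < δ → ∃ T : ℝ, ∀ t, T ≤ t → ∀ k o, F k o t < M + δ)
    (hh : ∀ k o t, t0 ≤ t →
      |F k o t - (F (k - 1) o (t - Real.log 2) + F (k - 1) (o - 1) (t + Real.log (3 / 2))) / 2| ≤ C / t ^ 2)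
    (hC : 0 ≤ C) :
    ∀ n : ℕ, ∀ ε : ℝ, 0 < ε → ∃ δ : ℝ, 0 < δ ∧ ∃ T : ℝ, ∀ t : ℝ, T ≤ t → ∀ k o : ℤ, M - δ < F k o t →
      ∀ i j : ℕ, i + j ≤ n →
        M - ε < F (k - (i + j)) (o - j) (t + (-(i : ℝ) * Real.log 2 + j * Real.log (3 / 2))) := by
  have ha := HL.a_pos
  have hb := HL.b_pos
  intro n
  induction n with
  | zero =>
    intro ε hε
    refine ⟨ε, hε, 0, fun t _ k o hF i j hij => ?_⟩
    have h1 : i = 0 := by omega
    have h2 : j = 0 := by omega
    subst h1 h2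
    simpa using hF
  | succ n ih =>
    intro ε hε
    obtain ⟨δ', hδ', T', h'⟩ := ih ε hε
    set δ := min (δ' / 4) ε with hδdef
    have hδ : 0 < δ := by positivity
    obtain ⟨T1, hT1⟩ := hM δ hδ
    set T2 := max (max (T' + 1) (T1 + 1)) (max t0 (2 * C / δ + 1)) with hT2
    refine ⟨δ, hδ, T2, fun t ht k o hF i j hij => ?_⟩
    have e1 : T' + 1 ≤ t := (le_max_left _ _).trans ((le_max_left _ _).trans ht)
    have e2 : T1 + 1 ≤ t := (le_max_right _ _).trans ((le_max_left _ _).trans ht)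
    have e3 : t0 ≤ t := (le_max_left _ _).trans ((le_max_right _ _).trans ht)
    have e4 : 2 * C / δ + 1 ≤ t := (le_max_right _ _).trans ((le_max_right _ _).trans ht)
    have ht1 : 1 ≤ t := by
      have : 0 ≤ 2 * C / δ := by positivity
      linarith
    have hCt : C / t ^ 2 ≤ δ / 2 := by
      rw [div_le_iff₀ (by positivity)]
      have h5 : 2 * C ≤ δ * t := by
        have : 2 * C / δ ≤ t := by linarith
        rw [div_le_iff₀ hδ] at this; linarith
      have : t ≤ t ^ 2 := by nlinarith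
      nlinarith
    have hh1 := hh k o t e3
    rw [abs_le] at hh1
    have hu1 := hT1 (t - Real.log 2) (by linarith [HL.a_lt_one]) (k - 1) o
    have hu2 := hT1 (t + Real.log (3 / 2)) (by linarith) (k - 1) (o - 1)
    have hδ4 : δ ≤ δ' / 4 := min_le_left _ _
    have hv1 : M - δ' < F (k - 1) o (t - Real.log 2) := by linarith
    have hv2 : M - δ' < F (k - 1) (o - 1) (t + Real.log (3 / 2)) := by linarith
    rcases Nat.eq_zero_or_pos i with hi | hi
    · rcases Nat.eq_zero_or_pos j with hj | hj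
      · subst hi hj
        have : δ ≤ ε := min_le_right _ _
        simp only [Nat.cast_zero, neg_zero, zero_mul, add_zero, sub_zero]
        linarith
      · obtain ⟨j, rfl⟩ : ∃ j', j = j' + 1 := ⟨j - 1, by omega⟩
        have := h' (t + Real.log (3 / 2)) (by linarith) (k - 1) (o - 1) hv2 i j (by omega)
        have e5 : k - 1 - ((i : ℤ) + j) = k - (i + ((j + 1 : ℕ) : ℤ)) := by push_cast; ring
        have e6 : o - 1 - (j : ℤ) = o - ((j + 1 : ℕ) : ℤ) := by push_cast; ring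
        have e7 : t + Real.log (3 / 2) + (-(i : ℝ) * Real.log 2 + j * Real.log (3 / 2)) =
          t + (-(i : ℝ) * Real.log 2 + ((j + 1 : ℕ) : ℝ) * Real.log (3 / 2)) := by push_cast; ring
        rwa [e5, e6, e7] at this
    · obtain ⟨i, rfl⟩ : ∃ i', i = i' + 1 := ⟨i - 1, by omega⟩
      have := h' (t - Real.log 2) (by linarith [HL.a_lt_one]) (k - 1) o hv1 i j (by omega)
      have e5 : k - 1 - ((i : ℤ) + j) = k - (((i + 1 : ℕ) : ℤ) + j) := by push_cast; ring
      have e7 : t - Real.log 2 + (-(i : ℝ) * Real.log 2 + j * Real.log (3 / 2)) =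
          t + (-((i + 1 : ℕ) : ℝ) * Real.log 2 + j * Real.log (3 / 2)) := by push_cast; ring
      rwa [e5, e7] at this

theorem mod_limit {m : ℕ} (hm : 1 ≤ m) {F : ℤ → ℤ → ℝ → ℝ} (hk : ∀ k o, F (k + m) o = F k o)
    (ho : ∀ k o, F k (o + m) = F k o) {t0 L C l : ℝ} (h0 : ∀ k o t, 0 ≤ F k o t) (h1 : ∀ k o t, F k o t ≤ 1)
    (hlip : ∀ k o t s, t0 ≤ t → 0 ≤ s → s ≤ 1 → |F k o (t + s) - F k o t| ≤ L * (s + Real.exp (-t)))
    (hharm : ∀ k o t, t0 ≤ t →
      |F k o t - (F (k - 1) o (t - Real.log 2) + F (k - 1) (o - 1) (t + Real.log (3 / 2))) / 2| ≤ C / t ^ 2)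
    (htot : Tendsto (fun t => ∑ i ∈ range m, ∑ j ∈ range m, F i j t) atTop (𝓝 l)) (k o : ℤ) :
    Tendsto (F k o) atTop (𝓝 (l / m ^ 2)) := by
  have hm0 : (m : ℤ) ≠ 0 := by exact_mod_cast (by omega : m ≠ 0)
  have hmpos : (0 : ℤ) < m := by exact_mod_cast (by omega : 0 < m)
  have hmR : (0 : ℝ) < m := by exact_mod_cast (by omega : 0 < m)
  have hm2 : (0 : ℝ) < (m : ℝ) ^ 2 := by positivity
  have hm21 : (1 : ℝ) ≤ (m : ℝ) ^ 2 := by
    have : (1 : ℝ) ≤ m := by exact_mod_cast hm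
    nlinarith
  have hL0 : 0 ≤ L := by
    have h2 := hlip 0 0 (max t0 0) 0 (le_max_left _ _) le_rfl zero_le_one
    have h3 := Real.exp_pos (-(max t0 0))
    have h4 : 0 ≤ L * Real.exp (-(max t0 0)) := by
      refine le_trans (abs_nonneg _) (h2.trans (le_of_eq ?_)); rw [zero_add]
    exact nonneg_of_mul_nonneg_left h4 h3
  have hC : 0 ≤ C := by
    have h2 := hharm 0 0 (max t0 1) (le_max_left _ _)
    have h3 : (0 : ℝ) < (max t0 1) ^ 2 := by positivity
    have h4 : 0 ≤ C / (max t0 1) ^ 2 := (abs_nonneg _).trans h2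
    have h5 := mul_nonneg h4 h3.le
    rwa [div_mul_cancel₀ _ h3.ne'] at h5
  -- periodicity
  have hper : ∀ k k' o o' : ℤ, (m : ℤ) ∣ k' - k → (m : ℤ) ∣ o' - o → F k' o' = F k o := by
    intro k k' o o' h2 h3
    have e1 : F k' = F k := ME2_per (fun k => funext fun o => hk k o) h2
    have e2 : F k o' = F k o := ME2_per (ho k) h3
    rw [e1, e2]
  set S : Finset (ℕ × ℕ) := range m ×ˢ range m with hS
  have hSne : S.Nonempty := ⟨(0, 0), by rw [hS, Finset.mem_product]; simp; omega⟩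
  have hScard : (S.card : ℝ) = (m : ℝ) ^ 2 := by
    rw [hS, Finset.card_product, Finset.card_range]; push_cast; ring
  have hred : ∀ k o : ℤ, ∃ p ∈ S, F k o = F p.1 p.2 := by
    intro k o
    refine ⟨((k % m).toNat, (o % m).toNat), ?_, ?_⟩
    · rw [hS, Finset.mem_product, Finset.mem_range, Finset.mem_range]
      have a1 := Int.emod_nonneg k hm0
      have a2 := Int.emod_nonneg o hm0
      have a3 := Int.emod_lt_of_pos k hmpos
      have a4 := Int.emod_lt_of_pos o hmpos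
      constructor
      · show (k % m).toNat < m
        omega
      · show (o % m).toNat < m
        omega
    · apply hper
      · show (m : ℤ) ∣ k - ((k % m).toNat : ℤ)
        rw [Int.toNat_of_nonneg (Int.emod_nonneg k hm0)]
        exact Int.dvd_self_sub_of_emod_eq rfl
      · show (m : ℤ) ∣ o - ((o % m).toNat : ℤ)
        rw [Int.toNat_of_nonneg (Int.emod_nonneg o hm0)]
        exact Int.dvd_self_sub_of_emod_eq rfl
  have hsumS : ∀ t, ∑ i ∈ range m, ∑ j ∈ range m, F i j t = ∑ p ∈ S, F p.1 p.2 t := by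
    intro t
    rw [hS, Finset.sum_product]
  -- the maximal upper limit
  set M : ℝ := S.sup' hSne (fun p => limsup (F p.1 p.2) atTop) with hMdef
  have hM : ∀ δ, 0 < δ → ∃ T : ℝ, ∀ t, T ≤ t → ∀ k o, F k o t < M + δ := by
    intro δ hδ
    have h2 : ∀ p ∈ S, ∀ᶠ t in atTop, F p.1 p.2 t < M + δ := by
      intro p hp
      have h3 := (HL.limsup_props (F := F p.1 p.2) (h0 _ _) (h1 _ _)).1 δ hδ
      have h4 : limsup (F p.1 p.2) atTop ≤ M := Finset.le_sup' (fun p : ℕ × ℕ => limsup (F p.1 p.2) atTop) hp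
      exact h3.mono fun t ht => by linarith
    have h3 : ∀ᶠ t in atTop, ∀ p ∈ S, F p.1 p.2 t < M + δ := (Filter.eventually_all_finset S).2 h2
    obtain ⟨T, hT⟩ := eventually_atTop.1 h3
    refine ⟨T, fun t ht k o => ?_⟩
    obtain ⟨p, hp, hpe⟩ := hred k o
    rw [hpe]
    exact hT t ht p hp
  obtain ⟨p₀, hp₀, hMp⟩ := Finset.exists_mem_eq_sup' hSne (fun p : ℕ × ℕ => limsup (F p.1 p.2) atTop)
  have hfreq : ∀ δ, 0 < δ → ∃ᶠ t in atTop, M - δ < F p₀.1 p₀.2 t := by
    intro δ hδ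
    have := (HL.limsup_props (F := F p₀.1 p₀.2) (h0 _ _) (h1 _ _)).2 δ hδ
    rw [hMdef, hMp]
    exact this
  -- upper bound for `M`
  have hMle : M ≤ l / m ^ 2 := by
    rw [le_div_iff₀ hm2]
    by_contra hcon
    push Not at hcon
    set e : ℝ := (M * m ^ 2 - l) / (8 * m ^ 2) with he
    have hepos : 0 < e := by
      rw [he]; apply div_pos (by linarith) (by positivity)
    have hel : l = (M - 8 * e) * m ^ 2 := by
      rw [he]; field_simp; ring
    -- small combinations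
    obtain ⟨η, hη, hη1, hηe⟩ : ∃ η : ℝ, 0 < η ∧ η ≤ 1 ∧ L * η ≤ e := by
      refine ⟨min 1 (e / (L + 1)), by positivity, min_le_left _ _, ?_⟩
      have h2 : min 1 (e / (L + 1)) ≤ e / (L + 1) := min_le_right _ _
      calc L * min 1 (e / (L + 1)) ≤ (L + 1) * (e / (L + 1)) := by
            apply mul_le_mul (by linarith) h2 (by positivity) (by positivity)
        _ = e := by field_simp
    have hcomb : ∀ p : ℕ × ℕ, ∃ ij : ℕ × ℕ, (m : ℤ) ∣ ((p₀.1 : ℤ) - p.1) - (ij.1 + ij.2) ∧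
        (m : ℤ) ∣ ((p₀.2 : ℤ) - p.2) - ij.2 ∧
        |-(ij.1 : ℝ) * Real.log 2 + ij.2 * Real.log (3 / 2)| ≤ η := by
      intro p
      obtain ⟨i, j, h2, h3, h4⟩ := ME2_small hm ((p₀.1 : ℤ) - p.1) ((p₀.2 : ℤ) - p.2) η hη
      exact ⟨(i, j), h2, h3, h4⟩
    choose ij hij1 hij2 hij3 using hcomb
    set n : ℕ := S.sup (fun p => (ij p).1 + (ij p).2) with hn
    have hnle : ∀ p ∈ S, (ij p).1 + (ij p).2 ≤ n := fun p hp =>
      Finset.le_sup (f := fun p => (ij p).1 + (ij p).2) hp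
    obtain ⟨δ, hδ, T1, hprop⟩ := ME2_propagate hM hharm hC n e hepos
    obtain ⟨T3, hT3⟩ : ∃ T3 : ℝ, ∀ t, T3 ≤ t → L * Real.exp (1 - t) ≤ e := by
      refine ⟨max 1 (L / e + 1), fun t ht => ?_⟩
      have a1 : 1 ≤ t := (le_max_left _ _).trans ht
      have a2 : L / e + 1 ≤ t := (le_max_right _ _).trans ht
      have h2 : t - 1 + 1 ≤ Real.exp (t - 1) := Real.add_one_le_exp (t - 1)
      rw [show (1 - t) = -(t - 1) by ring, Real.exp_neg, ← div_eq_mul_inv, div_le_iff₀ (Real.exp_pos _)]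
      have a3 : L / e ≤ t - 1 := by linarith
      rw [div_le_iff₀ hepos] at a3
      nlinarith
    have hf2 := (hfreq δ hδ).and_eventually (eventually_ge_atTop
      (max T1 (max T3 (t0 + 1))))
    have hsum : ∃ᶠ t in atTop, (M - 4 * e) * m ^ 2 ≤ ∑ i ∈ range m, ∑ j ∈ range m, F i j t := by
      refine hf2.mono fun t ht => ?_
      obtain ⟨htF, htT⟩ := ht
      have e1 : T1 ≤ t := (le_max_left _ _).trans htT
      have e2 : T3 ≤ t := (le_max_left _ _).trans ((le_max_right _ _).trans htT)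
      have e3 : t0 + 1 ≤ t := (le_max_right _ _).trans ((le_max_right _ _).trans htT)
      rw [hsumS]
      have hpt : ∀ p ∈ S, M - 4 * e ≤ F p.1 p.2 t := by
        intro p hp
        have h2 := hprop t e1 p₀.1 p₀.2 htF (ij p).1 (ij p).2 (hnle p hp)
        have h3 : F ((p₀.1 : ℤ) - ((ij p).1 + (ij p).2)) ((p₀.2 : ℤ) - (ij p).2) = F p.1 p.2 := by
          apply hper
          · have := hij1 p
            rwa [show (p₀.1 : ℤ) - p.1 - ((ij p).1 + (ij p).2) =
              (p₀.1 : ℤ) - ((ij p).1 + (ij p).2) - p.1 by ring] at this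
          · have := hij2 p
            rwa [show (p₀.2 : ℤ) - p.2 - (ij p).2 = (p₀.2 : ℤ) - (ij p).2 - p.2 by ring] at this
        rw [h3] at h2
        set θ : ℝ := -((ij p).1 : ℝ) * Real.log 2 + (ij p).2 * Real.log (3 / 2) with hθ
        have hθ1 : |θ| ≤ η := hij3 p
        rw [abs_le] at hθ1
        have hclose : |F p.1 p.2 (t + θ) - F p.1 p.2 t| ≤ 2 * e := by
          rcases le_total 0 θ with h4 | h4
          · have h5 := hlip p.1 p.2 t θ (by linarith) h4 (by linarith)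
            have h6 : Real.exp (-t) ≤ Real.exp (1 - t) := Real.exp_le_exp.2 (by linarith)
            have h7 : L * (θ + Real.exp (-t)) ≤ L * (η + Real.exp (1 - t)) :=
              mul_le_mul_of_nonneg_left (by linarith) hL0
            have h8 := hT3 t e2
            rw [mul_add] at h7
            linarith
          · have h5 := hlip p.1 p.2 (t + θ) (-θ) (by linarith) (by linarith) (by linarith)
            rw [show t + θ + -θ = t by ring, abs_sub_comm] at h5
            have h6 : Real.exp (-(t + θ)) ≤ Real.exp (1 - t) := Real.exp_le_exp.2 (by linarith)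
            have h7 : L * (-θ + Real.exp (-(t + θ))) ≤ L * (η + Real.exp (1 - t)) :=
              mul_le_mul_of_nonneg_left (by linarith) hL0
            have h8 := hT3 t e2
            rw [mul_add] at h7
            linarith
        rw [abs_le] at hclose
        linarith
      calc (M - 4 * e) * m ^ 2 = ∑ p ∈ S, (M - 4 * e) := by
            rw [Finset.sum_const, nsmul_eq_mul, hScard]; ring
        _ ≤ _ := Finset.sum_le_sum hpt
    have hlt : l < (M - 4 * e) * m ^ 2 := by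
      rw [hel]
      nlinarith
    have hev : ∀ᶠ t in atTop, ∑ i ∈ range m, ∑ j ∈ range m, F i j t < (M - 4 * e) * m ^ 2 :=
      htot.eventually_lt_const hlt
    obtain ⟨t, ht1, ht2⟩ := (hsum.and_eventually hev).exists
    linarith
  -- conclusion
  obtain ⟨p, hp, hpe⟩ := hred k o
  rw [hpe, Metric.tendsto_nhds]
  intro ε hε
  set e : ℝ := ε / (m ^ 2 + 1) with he
  have hepos : 0 < e := by positivity
  have hee : e * (m ^ 2 + 1) = ε := by rw [he]; field_simp
  obtain ⟨T, hT⟩ := hM e hepos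
  have hev : ∀ᶠ t in atTop, l - e < ∑ i ∈ range m, ∑ j ∈ range m, F i j t :=
    htot.eventually_const_lt (by linarith)
  filter_upwards [eventually_ge_atTop T, hev] with t ht hlt
  have hup : ∀ k o, F k o t ≤ l / m ^ 2 + e := fun k o => by linarith [hT t ht k o]
  rw [hsumS, ← Finset.add_sum_erase S _ hp] at hlt
  have hle : ∑ q ∈ S.erase p, F q.1 q.2 t ≤ (m ^ 2 - 1) * (l / m ^ 2 + e) := by
    calc ∑ q ∈ S.erase p, F q.1 q.2 t ≤ ∑ q ∈ S.erase p, (l / m ^ 2 + e) :=
          Finset.sum_le_sum fun q _ => hup _ _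
      _ = (m ^ 2 - 1) * (l / m ^ 2 + e) := by
          rw [Finset.sum_const, nsmul_eq_mul, Finset.card_erase_of_mem hp, Nat.cast_sub
            (Finset.card_pos.2 hSne), hScard]
          norm_num
  have hl2 : l / m ^ 2 * m ^ 2 = l := by field_simp
  rw [Real.dist_eq, abs_lt]
  have hup2 := hT t ht p.1 p.2
  constructor
  · have h5 : (m ^ 2 - 1) * (l / m ^ 2 + e) = l - l / m ^ 2 + (m ^ 2 - 1) * e := by
      rw [mul_add, sub_mul, one_mul, mul_comm ((m : ℝ) ^ 2) (l / m ^ 2), hl2]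
    rw [h5] at hle
    nlinarith
  · have : e ≤ ε := by
      rw [← hee]
      nlinarith
    linarith

end Pool.Agent.H499R2.LT
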