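import Pool.Agent.H499R2.LT.MDefs

/-! Task LT-ME6: elementary properties of `CF`, `LC`, `EC` (helper747; models: helper236, helper499). -/

set_option autoImplicit false

namespace Pool.Agent.H499R2.LT

open Pool.Agent.H320R2.PD Finset Filter Topology

open Pool.Agent.H499R2.ND hiding La Ea Me FC

open Pool.Agent.H499R2.CZ

open Pool.Agent.H319R2.Lln (mu)

theorem GF_CF (d : ℤ) (F : Finset ℤ) (f : ℤ) (m : ℕ) : GF d (RF d F) (CF d F f m) := by
  intro k o x hx
  have hxF : x ∉ F := fun h => hx (RF_sub d h)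
  constructor
  · rintro ⟨j, hH, hj, ho⟩
    rcases j with _ | j
    · exact absurd (by rw [← hH.1] at hH; exact hH.2.1) hxF
    · refine ⟨j, (lta_Hit_succ.1 hH).2, ?_, ?_⟩
      · have h1 := hj.sub_right 1
        push_cast at h1
        rwa [add_sub_cancel_right] at h1
      · rw [od] at ho
        have h1 := ho.sub_right (if x % 2 = 0 then 0 else 1)
        rwa [add_sub_cancel_left] at h1
  · rintro ⟨j, hH, hj, ho⟩
    refine ⟨j + 1, lta_Hit_succ.2 ⟨hxF, hH⟩, ?_, ?_⟩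
    · have h1 := hj.add_right 1
      rw [sub_add_cancel] at h1
      push_cast
      exact h1
    · rw [od]
      have h1 := ho.add_left (if x % 2 = 0 then 0 else 1)
      rwa [add_sub_cancel] at h1

theorem me6_shift {d : ℤ} (hd : Odd d) {F : Finset ℤ} {f : ℤ} {m : ℕ} {k o : ℤ} {w : List ℕ}
    (hw : ∀ a ∈ w, 1 ≤ a) {M x : ℤ} (hM : Odd M) (hx : Odd x) (h : Vw d w M x) {j : ℕ}
    (hH : Hit d F f M j) (hj : (j : ℤ) ≡ k [ZMOD m]) (ho : od d j M ≡ o [ZMOD m])
    (h1 : w.sum ≤ j) :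
    Hit d F f x (j - w.sum) ∧ ((j - w.sum : ℕ) : ℤ) ≡ k - w.sum [ZMOD m] ∧
      od d (j - w.sum) x ≡ o - w.length [ZMOD m] := by
  obtain ⟨hit, hod⟩ := word_od hd hw hM hx h
  refine ⟨?_, ?_, ?_⟩
  · have h2 := lta_Hit_shift hH h1
    rwa [hit] at h2
  · rw [Nat.cast_sub h1]
    exact hj.sub_right _
  · have h3 := od_add d w.sum (j - w.sum) M
    rw [Nat.add_sub_cancel' h1, hit, hod] at h3
    have h4 : od d (j - w.sum) x = od d j M - w.length := by rw [h3]; ring
    rw [h4]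
    exact ho.sub_right _

theorem LC_word {d : ℤ} (hd : Odd d) {F : Finset ℤ} {f : ℤ} {m : ℕ} {s k o : ℤ} {w : List ℕ}
    (hw : ∀ a ∈ w, 1 ≤ a) {M x : ℤ} (hM : Odd M) (hx : Odd x) (hMS : M ∈ LC d F f m s k o)
    (h : Vw d w M x) : x ∈ LC d F f m (s - w.sum) (k - w.sum) (o - w.length) ∪ RF d F := by
  have hit := iter_word hd w hw M x hM hx h
  obtain ⟨j, hs, hH, hj, ho⟩ := hMS
  rcases le_or_gt w.sum j with h1 | h1
  · left
    obtain ⟨h2, h3, h4⟩ := me6_shift hd hw hM hx h hH hj ho h1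
    exact ⟨_, by rw [Nat.cast_sub h1]; linarith, h2, h3, h4⟩
  · right
    exact lta_RF_of_hit hit hH h1

theorem EC_word {d : ℤ} (hd : Odd d) {F : Finset ℤ} {f : ℤ} {m : ℕ} {s k o : ℤ} {w : List ℕ}
    (hw : ∀ a ∈ w, 1 ≤ a) {M x : ℤ} (hM : Odd M) (hx : Odd x) (hMS : M ∈ EC d F f m s k o)
    (h : Vw d w M x) : x ∈ EC d F f m (s - w.sum) (k - w.sum) (o - w.length) ∪ RF d F := by
  have hit := iter_word hd w hw M x hM hx h
  obtain ⟨j, hs, hH, hj, ho⟩ := hMS
  rcases le_or_gt w.sum j with h1 | h1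
  · left
    obtain ⟨h2, h3, h4⟩ := me6_shift hd hw hM hx h hH hj ho h1
    exact ⟨_, by rw [Nat.cast_sub h1]; linarith, h2, h3, h4⟩
  · right
    exact lta_RF_of_hit hit hH h1

open Classical in
/-- the class of the hitting time and of the number of odd terms -/
noncomputable def me6Cls (d : ℤ) (F : Finset ℤ) (f : ℤ) (m : ℕ) (x : ℤ) : ℕ × ℕ :=
  if h : x ∈ PF d F f then (((h.choose : ℤ) % m).toNat, ((od d h.choose x) % m).toNat) else (0, 0)

theorem me6_mem {d : ℤ} {F : Finset ℤ} {f : ℤ} {m : ℕ} (hm : 1 ≤ m) {i j : ℕ} (hi : i < m)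
    (hj : j < m) (x : ℤ) : x ∈ CF d F f m i j ↔ (x ∈ PF d F f ∧ me6Cls d F f m x = (i, j)) := by
  have hm0 : (m : ℤ) ≠ 0 := by exact_mod_cast (by omega : m ≠ 0)
  have key : ∀ (a : ℤ) (i : ℕ), i < m → (a ≡ i [ZMOD m] ↔ (a % m).toNat = i) := by
    intro a i hi
    have h1 := Int.emod_nonneg a hm0
    have h2 : ((i : ℤ)) % m = i := Int.emod_eq_of_lt (by positivity) (by exact_mod_cast hi)
    unfold Int.ModEq
    rw [h2]
    omega
  constructor
  · rintro ⟨t, hH, h1, h2⟩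
    have hP : x ∈ PF d F f := ⟨t, hH⟩
    refine ⟨hP, ?_⟩
    unfold me6Cls
    rw [dif_pos hP]
    have h3 := (Hit_unique hH hP.choose_spec).2
    rw [← h3, Prod.mk.injEq]
    exact ⟨(key _ _ hi).1 h1, (key _ _ hj).1 h2⟩
  · rintro ⟨hP, h1⟩
    unfold me6Cls at h1
    rw [dif_pos hP, Prod.mk.injEq] at h1
    exact ⟨hP.choose, hP.choose_spec, (key _ _ hi).2 h1.1, (key _ _ hj).2 h1.2⟩

theorem me6_G (d : ℤ) (F : Finset ℤ) (f : ℤ) {m : ℕ} (hm : 1 ≤ m) (X : ℝ) :
    ∑ i ∈ range m, ∑ j ∈ range m, G (CF d F f m i j) X = G (PF d F f) X := by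
  classical
  have hm0 : (0 : ℤ) < m := by exact_mod_cast hm
  have h1 : (pos (PF d F f) X).card = ∑ b ∈ range m ×ˢ range m,
      ((pos (PF d F f) X).filter fun x => me6Cls d F f m x = b).card := by
    apply Finset.card_eq_sum_card_fiberwise
    intro x hx
    have hx' : x ∈ pos (PF d F f) X := hx
    rw [mem_pos] at hx'
    have hP := hx'.2
    show me6Cls d F f m x ∈ ((range m ×ˢ range m : Finset (ℕ × ℕ)) : Set (ℕ × ℕ))
    rw [Finset.mem_coe, mem_product, mem_range, mem_range]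
    unfold me6Cls
    rw [dif_pos hP]
    dsimp only
    have e1 := Int.emod_nonneg (hP.choose : ℤ) hm0.ne'
    have e2 := Int.emod_lt_of_pos (hP.choose : ℤ) hm0
    have e3 := Int.emod_nonneg (od d hP.choose x) hm0.ne'
    have e4 := Int.emod_lt_of_pos (od d hP.choose x) hm0
    constructor <;> omega
  unfold G
  rw [h1, Finset.sum_product]
  push_cast
  refine Finset.sum_congr rfl fun i hi => Finset.sum_congr rfl fun j hj => ?_
  rw [mem_range] at hi hj
  congr 2
  ext x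
  rw [mem_filter, mem_pos, mem_pos, me6_mem hm hi hj]
  tauto

/-- the classes add up -/
theorem CF_sum (d : ℤ) (F : Finset ℤ) (f : ℤ) {m : ℕ} (hm : 1 ≤ m) (t : ℝ) :
    ∑ i ∈ range m, ∑ j ∈ range m, Fd (CF d F f m i j) t = Fd (PF d F f) t := by
  unfold Fd
  rw [← me6_G d F f hm, ← me6_G d F f hm]
  simp only [← Finset.sum_sub_distrib, Finset.sum_div]

/-- from windows to natural density (see `density_exists` in NDLimit.lean) -/
theorem dens_of_Fd {S : Set ℤ} {l : ℝ} (h : Tendsto (Fd S) atTop (𝓝 l)) :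
    Tendsto (fun X : ℝ => G S X / X) atTop (𝓝 (3 * l)) := by
  have hl := h
  rw [Metric.tendsto_atTop] at hl ⊢
  intro ε hε
  obtain ⟨T, hT⟩ := hl (ε / 12) (by positivity)
  -- recursion
  have hrec : ∀ X : ℝ, 0 < X → G S (2 * X) / (2 * X) - 3 * l
      = (G S X / X - 3 * l) / 2 + 3 / 2 * (Fd S (Real.log X) - l) := by
    intro X hX
    unfold Fd
    rw [Real.exp_log hX]
    field_simp
    ring
  set X0 := max (Real.exp T) 1 with hX0
  have hX0pos : 0 < X0 := by positivity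
  have hX01 : 1 ≤ X0 := le_max_right _ _
  have hstep : ∀ X : ℝ, X0 ≤ X → |G S (2 * X) / (2 * X) - 3 * l| ≤ |G S X / X - 3 * l| / 2 + ε / 8 := by
    intro X hX
    have hXpos : 0 < X := by linarith
    rw [hrec X hXpos]
    have h1 := hT (Real.log X) (by
      rw [ge_iff_le, Real.le_log_iff_exp_le hXpos]
      exact (le_max_left _ _).trans hX)
    rw [Real.dist_eq] at h1
    have h2 := abs_add_le ((G S X / X - 3 * l) / 2) (3 / 2 * (Fd S (Real.log X) - l))
    rw [abs_div, abs_mul, abs_of_pos (by norm_num : (0 : ℝ) < 2),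
      abs_of_pos (by norm_num : (0 : ℝ) < 3 / 2)] at h2
    linarith
  set M := 1 + |3 * l| with hM
  have hMpos : 0 < M := by positivity
  have hbase : ∀ X : ℝ, X0 ≤ X → |G S X / X - 3 * l| ≤ M := by
    intro X hX
    have hXpos : 0 < X := by linarith
    have h1 : G S X / X ≤ 1 := by rw [div_le_one hXpos]; exact pos_card_le S hXpos.le
    have h2 : 0 ≤ G S X / X := div_nonneg (G_nonneg S X) hXpos.le
    calc |G S X / X - 3 * l| ≤ |G S X / X| + |3 * l| := abs_sub _ _
      _ ≤ M := by rw [abs_of_nonneg h2]; linarith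
  have hiter : ∀ n : ℕ, ∀ X : ℝ, X0 * 2 ^ n ≤ X → |G S X / X - 3 * l| ≤ M / 2 ^ n + ε / 4 := by
    intro n
    induction n with
    | zero =>
      intro X hX
      have := hbase X (by simpa using hX)
      simp only [pow_zero, div_one]
      linarith
    | succ n ih =>
      intro X hX
      have hX2 : X0 * 2 ^ n ≤ X / 2 := by rw [pow_succ] at hX; linarith
      have h1 := ih (X / 2) hX2
      have h2 := hstep (X / 2) (by
        have : X0 ≤ X0 * 2 ^ n := le_mul_of_one_le_right hX0pos.le (one_le_pow₀ (by norm_num))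
        linarith)
      rw [show 2 * (X / 2) = X by ring] at h2
      have h3 : M / 2 ^ (n + 1) = M / 2 ^ n / 2 := by rw [pow_succ]; field_simp
      rw [h3]
      linarith
  obtain ⟨n, hn⟩ := pow_unbounded_of_one_lt (4 * M / ε) (by norm_num : (1 : ℝ) < 2)
  refine ⟨X0 * 2 ^ n, fun X hX => ?_⟩
  rw [Real.dist_eq]
  have h1 := hiter n X hX
  have h2 : M / 2 ^ n < ε / 4 := by
    rw [div_lt_iff₀ hε] at hn
    rw [div_lt_iff₀ (by positivity)]
    linarith
  linarith

theorem Fd_of_dens {S : Set ℤ} {l : ℝ} (h : Tendsto (fun X : ℝ => G S X / X) atTop (𝓝 l)) :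
    Tendsto (Fd S) atTop (𝓝 (l / 3)) := by
  have h1 : Tendsto (fun t : ℝ => G S (Real.exp t) / Real.exp t) atTop (𝓝 l) :=
    h.comp Real.tendsto_exp_atTop
  have h2 : Tendsto (fun t : ℝ => G S (2 * Real.exp t) / (2 * Real.exp t)) atTop (𝓝 l) :=
    h.comp (Real.tendsto_exp_atTop.const_mul_atTop (by norm_num))
  have h3 := (h2.const_mul (2 / 3)).sub (h1.const_mul (1 / 3))
  have e : 2 / 3 * l - 1 / 3 * l = l / 3 := by ring
  rw [e] at h3
  refine h3.congr fun t => ?_
  have he := Real.exp_pos t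
  unfold Fd
  field_simp

end Pool.Agent.H499R2.LT
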