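import Pool.Agent.H499R2.LT.Defs

/-! Project LT, task LT-Phi: derivative of the normal distribution function (helper204). -/

set_option autoImplicit false

namespace Pool.Agent.H499R2.LT

open Pool.Agent.H320R2.PD Finset Filter Topology

open Pool.Agent.H499R2.ND hiding La Ea Me FC

open Pool.Agent.H499R2.CZ

open Pool.Agent.H319R2.Lln (mu)

open MeasureTheory in
theorem Phi_deriv (z : ℝ) : HasDerivAt Phi (Real.exp (-z ^ 2 / 2) / Real.sqrt (2 * Real.pi)) z := by
  set f : ℝ → ℝ := ProbabilityTheory.gaussianPDFReal 0 1 with hf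
  have hfc : Continuous f := by
    rw [hf, ProbabilityTheory.gaussianPDFReal_def]
    fun_prop
  have hfi : Integrable f := ProbabilityTheory.integrable_gaussianPDFReal 0 1
  have h1 : ∀ x, Phi x = ∫ t in Set.Iic x, f t := by
    intro x
    unfold Phi
    rw [measureReal_def, ProbabilityTheory.gaussianReal_apply_eq_integral _ one_ne_zero,
      ENNReal.toReal_ofReal]
    exact setIntegral_nonneg measurableSet_Iic
      (fun t _ => ProbabilityTheory.gaussianPDFReal_nonneg 0 1 t)
  have h2 : ∀ x, Phi x = Phi 0 + ∫ t in (0 : ℝ)..x, f t := by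
    intro x
    rw [h1, h1, ← intervalIntegral.integral_Iic_sub_Iic hfi.integrableOn hfi.integrableOn]
    ring
  have h3 : Phi = fun x => Phi 0 + ∫ t in (0 : ℝ)..x, f t := funext h2
  have h4 : f z = Real.exp (-z ^ 2 / 2) / Real.sqrt (2 * Real.pi) := by
    rw [hf, ProbabilityTheory.gaussianPDFReal]
    simp
    ring
  rw [← h4, h3]
  exact (intervalIntegral.integral_hasDerivAt_right (hfc.intervalIntegrable 0 z)
    (hfc.stronglyMeasurableAtFilter _ _) hfc.continuousAt).const_add _

end Pool.Agent.H499R2.LT
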