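import Pool.Agent.H499R2.LT.F4
import Pool.Agent.H499R2.LT.F3
import Pool.Agent.H499R2.LT.Phi
import Pool.Agent.H499R2.LT.E2
import Pool.Agent.H499R2.LT.D6
import Pool.Agent.H499R2.LT.C2
import Pool.Agent.H499R2.LT.G
import Pool.Agent.H499R2.CL.M1
import Pool.Agent.H499R2.CL.J

/-! Project LT, task H1: asymptotics along sequences. -/

set_option autoImplicit false

namespace Pool.Agent.H499R2.LT

open Pool.Agent.H320R2.PD Finset Filter Topology

open Pool.Agent.H499R2.ND hiding La Ea Me FC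

open Pool.Agent.H499R2.CZ

open Pool.Agent.H319R2.Lln (mu)

theorem sg_sqrt_mu : sg * Real.sqrt mu = c0 := by
  unfold sg
  have hmu := mu_pos'
  rw [div_mul_cancel₀ _ (Real.sqrt_pos.2 hmu).ne']

/-- sequences of indices with `(2 o - k) / √k → z` -/
structure Sq (k : ℕ → ℕ) (o : ℕ → ℤ) (z : ℝ) : Prop where
  k_top : Tendsto (fun i => (k i : ℝ)) atTop atTop
  lim : Tendsto (fun i => (2 * (o i : ℝ) - k i) / Real.sqrt (k i)) atTop (𝓝 z)

/-- the height -/
noncomputable def tt (k : ℕ) (o : ℤ) : ℝ := k * Real.log 2 - o * Real.log 3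

theorem tt_eq (k : ℕ) (o : ℤ) : tt k o = k * mu - (2 * (o : ℝ) - k) * (Real.log 3 / 2) := by
  unfold tt
  have hmu : mu = Real.log 2 - Real.log 3 / 2 := by
    unfold mu
    have : Real.log (4 / 3) = 2 * Real.log 2 - Real.log 3 := by
      rw [Real.log_div (by norm_num) (by norm_num), show (4 : ℝ) = 2 ^ 2 by norm_num, Real.log_pow]
      push_cast; ring
    rw [this]
    ring
  rw [hmu]
  ring

namespace Sq

variable {k : ℕ → ℕ} {o : ℕ → ℤ} {z : ℝ}

theorem sqrt_top (h : Sq k o z) : Tendsto (fun i => Real.sqrt (k i : ℝ)) atTop atTop :=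
  Real.tendsto_sqrt_atTop.comp h.k_top

theorem inv_sqrt (h : Sq k o z) : Tendsto (fun i => (Real.sqrt (k i : ℝ))⁻¹) atTop (𝓝 0) :=
  tendsto_inv_atTop_zero.comp h.sqrt_top

theorem k_pos (h : Sq k o z) : ∀ᶠ i in atTop, (0 : ℝ) < k i := h.k_top.eventually (eventually_gt_atTop 0)

/-- `t / k → mu` -/
theorem tt_div (h : Sq k o z) (a : ℝ) : Tendsto (fun i => (tt (k i) (o i) + a) / k i) atTop (𝓝 mu) := by
  have h1 : Tendsto (fun i => mu - ((2 * (o i : ℝ) - k i) / Real.sqrt (k i)) * (Real.sqrt (k i : ℝ))⁻¹ * (Real.log 3 / 2)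
      + a * ((Real.sqrt (k i : ℝ))⁻¹ * (Real.sqrt (k i : ℝ))⁻¹)) atTop
      (𝓝 (mu - z * 0 * (Real.log 3 / 2) + a * (0 * 0))) :=
    (tendsto_const_nhds.sub ((h.lim.mul h.inv_sqrt).mul_const _)).add ((h.inv_sqrt.mul h.inv_sqrt).const_mul a)
  have h2 : mu - z * 0 * (Real.log 3 / 2) + a * (0 * 0) = mu := by ring
  rw [h2] at h1
  refine h1.congr' ?_
  filter_upwards [h.k_pos] with i hi
  have hs := Real.sqrt_pos.2 hi
  have hss := Real.mul_self_sqrt hi.le
  rw [tt_eq]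
  field_simp
  rw [Real.sq_sqrt hi.le]

theorem tt_top (h : Sq k o z) (a : ℝ) : Tendsto (fun i => tt (k i) (o i) + a) atTop atTop := by
  have hmu := mu_pos'
  have h1 := (h.tt_div a).pos_mul_atTop hmu h.k_top
  refine h1.congr' ?_
  filter_upwards [h.k_pos] with i hi
  field_simp

/-- the thresholds -/
theorem thr (h : Sq k o z) (a : ℝ) {s : ℕ → ℝ} {e : ℝ}
    (hs : Tendsto (fun i => (s i - k i) / Real.sqrt (k i)) atTop (𝓝 e)) :
    Tendsto (fun i => (s i - (tt (k i) (o i) + a) / mu) / (sg * Real.sqrt (tt (k i) (o i) + a))) atTop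
      (𝓝 (z + e / c0)) := by
  have hmu := mu_pos'
  have hc0 := c0_pos
  have hsg := sg_pos
  -- numerator / sqrt k
  have h1 : Tendsto (fun i => ((2 * (o i : ℝ) - k i) / Real.sqrt (k i)) * c0 + (s i - k i) / Real.sqrt (k i)
      - a / mu * (Real.sqrt (k i : ℝ))⁻¹) atTop (𝓝 (z * c0 + e - a / mu * 0)) :=
    ((h.lim.mul_const _).add hs).sub (h.inv_sqrt.const_mul _)
  -- denominator / sqrt k
  have h2 : Tendsto (fun i => sg * Real.sqrt ((tt (k i) (o i) + a) / k i)) atTop (𝓝 (sg * Real.sqrt mu)) :=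
    ((Real.continuous_sqrt.tendsto _).comp (h.tt_div a)).const_mul _
  rw [sg_sqrt_mu] at h2
  have h3 := h1.div h2 hc0.ne'
  have h4 : (z * c0 + e - a / mu * 0) / c0 = z + e / c0 := by field_simp; ring
  rw [h4] at h3
  refine h3.congr' ?_
  filter_upwards [h.k_pos, (h.tt_top a).eventually (eventually_gt_atTop 0)] with i hi ht
  have hs := Real.sqrt_pos.2 hi
  have hst := Real.sqrt_pos.2 ht
  simp only [Pi.div_apply]
  rw [Real.sqrt_div ht.le]
  have hnum : s i - (tt (k i) (o i) + a) / mu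
      = (2 * (o i : ℝ) - k i) * c0 + (s i - k i) - a / mu := by
    rw [tt_eq]
    unfold c0
    field_simp
    ring
  rw [hnum]
  field_simp

end Sq

/-- block length -/
noncomputable def Hb (e : ℝ) (k : ℕ) : ℕ := ⌈e * Real.sqrt k⌉₊

theorem Hb_lim {k : ℕ → ℕ} (hk : Tendsto (fun i => Real.sqrt (k i : ℝ)) atTop atTop) {e : ℝ} (he : 0 < e) :
    Tendsto (fun i => (Hb e (k i) : ℝ) / Real.sqrt (k i)) atTop (𝓝 e) := by
  have h1 : Tendsto (fun i => e + (Real.sqrt (k i : ℝ))⁻¹) atTop (𝓝 (e + 0)) :=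
    tendsto_const_nhds.add (tendsto_inv_atTop_zero.comp hk)
  rw [add_zero] at h1
  refine tendsto_of_tendsto_of_tendsto_of_le_of_le' (tendsto_const_nhds (x := e)) h1 ?_ ?_
  · filter_upwards [hk.eventually (eventually_gt_atTop 0)] with i hi
    rw [le_div_iff₀ hi]
    exact Nat.le_ceil _
  · filter_upwards [hk.eventually (eventually_gt_atTop 0)] with i hi
    rw [div_le_iff₀ hi, add_mul, inv_mul_cancel₀ hi.ne']
    unfold Hb
    exact (Nat.ceil_lt_add_one (by positivity)).le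

/-- the logarithmic sums of the block -/
theorem LS_lim {d : ℤ} (hd : Odd d) (hd3 : IsCoprime d 3) {Y : ℕ} {g : ℤ} {δ : ℝ}
    (hδ : HD 1 (PF d (FY Y) g) δ) {k : ℕ → ℕ} {o : ℕ → ℤ} {z : ℝ} (h : Sq k o z) (a : ℝ) (b : ℤ) {e : ℝ}
    (he : 0 < e) {L : ℝ} (hL : 0 < L) :
    Tendsto (fun i => LS (fun n j => Hit d (FY Y) g (n : ℤ) j) (tt (k i) (o i) + a) L ((k i : ℤ) - b)
      ((k i : ℤ) + Hb e (k i) - b)) atTop (𝓝 (δ * L * (Phi (z + e / c0) - Phi z))) := by
  have hb : Tendsto (fun i => ((k i : ℝ) - b - k i) / Real.sqrt (k i)) atTop (𝓝 0) := by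
    have : Tendsto (fun i => (-(b : ℝ)) * (Real.sqrt (k i : ℝ))⁻¹) atTop (𝓝 (-(b : ℝ) * 0)) :=
      h.inv_sqrt.const_mul _
    rw [mul_zero] at this
    refine this.congr fun i => ?_
    rw [div_eq_mul_inv]; ring
  have hb2 : Tendsto (fun i => ((k i : ℝ) + Hb e (k i) - b - k i) / Real.sqrt (k i)) atTop (𝓝 e) := by
    have := (Hb_lim h.sqrt_top he).add hb
    rw [add_zero] at this
    refine this.congr fun i => ?_
    rw [← add_div]; congr 1; ring
  have h1 := h.thr a hb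
  have h2 := h.thr a hb2
  rw [zero_div, add_zero] at h1
  refine log_sums (H := fun n j => Hit d (FY Y) g (n : ℤ) j) (fun n k k' h h' => (Hit_unique h h').2)
    (δ := δ) (fun z => cltF hd hd3 (FY Y) g hδ z) hL (h.tt_top a) (fun i => by omega) ?_ ?_
  · refine h1.congr fun i => ?_
    push_cast
    rfl
  · refine h2.congr fun i => ?_
    push_cast
    rfl

end Pool.Agent.H499R2.LT
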