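import Pool.Agent.H499R2.LT.B4
import Pool.Agent.H499R2.LT.E1

/-! Project LT, part M: residue classes of the hitting time and of the number of odd terms. -/

set_option autoImplicit false

namespace Pool.Agent.H499R2.LT

open Pool.Agent.H320R2.PD Finset Filter Topology

open Pool.Agent.H499R2.ND hiding La Ea Me FC

open Pool.Agent.H499R2.CZ

open Pool.Agent.H319R2.Lln (mu)

/-- the first hit of `F` is `f`, at a time in the class `k` mod `m`, after a number of odd terms in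
the class `o` mod `m` -/
def CF (d : ℤ) (F : Finset ℤ) (f : ℤ) (m : ℕ) (k o : ℤ) : Set ℤ :=
  {x : ℤ | ∃ j : ℕ, Hit d F f x j ∧ (j : ℤ) ≡ k [ZMOD m] ∧ od d j x ≡ o [ZMOD m]}

/-- ... at a time greater than `s` -/
def LC (d : ℤ) (F : Finset ℤ) (f : ℤ) (m : ℕ) (s k o : ℤ) : Set ℤ :=
  {x : ℤ | ∃ j : ℕ, s < (j : ℤ) ∧ Hit d F f x j ∧ (j : ℤ) ≡ k [ZMOD m] ∧ od d j x ≡ o [ZMOD m]}

/-- ... at a time at most `s` -/
def EC (d : ℤ) (F : Finset ℤ) (f : ℤ) (m : ℕ) (s k o : ℤ) : Set ℤ :=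
  {x : ℤ | ∃ j : ℕ, (j : ℤ) ≤ s ∧ Hit d F f x j ∧ (j : ℤ) ≡ k [ZMOD m] ∧ od d j x ≡ o [ZMOD m]}

end Pool.Agent.H499R2.LT
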