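import Pool.Agent.H499R2.LT.MDefs
import Pool.Agent.H499R2.CZ.M

/-! Project LT, part M: stubs. Every task goes into its own file `Pool/Agent/H499R2/LT/<ID>.lean`. -/

set_option autoImplicit false

namespace Pool.Agent.H499R2.LT

open Pool.Agent.H320R2.PD Finset Filter Topology

open Pool.Agent.H499R2.ND hiding La Ea Me FC

open Pool.Agent.H499R2.CZ

open Pool.Agent.H319R2.Lln (mu)

/-! ### Task ME1: window densities of graded families are almost harmonic (adapt `harm_AI`,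
`Fd_harm_AI` of LT/B3.lean) -/

theorem Fd_harmG {d : ℤ} (hd : Odd d) (hd3 : IsCoprime d 3) {R : Set ℤ} (hR : FC d R) (hRs : SpW R) :
    ∃ K : ℝ, 0 < K ∧ ∀ S : ℤ → ℤ → Set ℤ, GF d R S → ∀ (k o : ℤ) (t : ℝ), 1002 ≤ t →
      |Fd (S k o) t - (Fd (S (k - 1) o) (t - Real.log 2) + Fd (S (k - 1) (o - 1)) (t + Real.log (3 / 2))) / 2|
        ≤ K / t ^ 2 := by sorry

/-! ### Task ME2: equidistribution (pure analysis: maximum principle, irrationality of `log 2 / log 3`) -/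

theorem mod_limit {m : ℕ} (hm : 1 ≤ m) {F : ℤ → ℤ → ℝ → ℝ} (hk : ∀ k o, F (k + m) o = F k o)
    (ho : ∀ k o, F k (o + m) = F k o) {t0 L C l : ℝ} (h0 : ∀ k o t, 0 ≤ F k o t) (h1 : ∀ k o t, F k o t ≤ 1)
    (hlip : ∀ k o t s, t0 ≤ t → 0 ≤ s → s ≤ 1 → |F k o (t + s) - F k o t| ≤ L * (s + Real.exp (-t)))
    (hharm : ∀ k o t, t0 ≤ t →
      |F k o t - (F (k - 1) o (t - Real.log 2) + F (k - 1) (o - 1) (t + Real.log (3 / 2))) / 2| ≤ C / t ^ 2)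
    (htot : Tendsto (fun t => ∑ i ∈ range m, ∑ j ∈ range m, F i j t) atTop (𝓝 l)) (k o : ℤ) :
    Tendsto (F k o) atTop (𝓝 (l / m ^ 2)) := by sorry

/-! ### Task ME4: graded sets are equidistributed in the classes mod `3^m` (adapt `class_bound_AI` of
LT/B4.lean: the odd elements of `S k o` in a window are all elements minus the even ones, and
`2 y ∈ S k o` iff `y ∈ S (k-1) o` outside `R`) -/

theorem class_boundG {d : ℤ} (hd : Odd d) (hd3 : IsCoprime d 3) {R : Set ℤ} (hR : FC d R) (hRs : SpW R)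
    {S : ℤ → ℤ → Set ℤ} (hS : GF d R S) {k o : ℤ} {δ : ℝ}
    (hδ : Tendsto (fun X : ℝ => G (S k o) X / X) atTop (𝓝 δ))
    (hδ' : Tendsto (fun X : ℝ => G (S (k - 1) o) X / X) atTop (𝓝 δ)) {ε : ℝ} (hε : 0 < ε) :
    ∃ A0 : ℝ, 0 < A0 ∧ ∀ A : ℝ, A0 ≤ A → ∀ m : ℕ, (m : ℝ) ^ 2 ≤ Real.log A → PB (S k o) A m (δ + ε) := by sorry

/-! ### Task ME5: composition of stages, families with a second index which decreases by the length of
the word (adapt `compose` of CZ/K.lean) -/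

theorem compose2 {d : ℤ} (hd : Odd d) (hd3 : IsCoprime d 3) {N : ℕ} (hN : 20 ≤ N) {ε CQ : ℝ} (hε : 0 < ε) (hCQ : 0 ≤ CQ) :
    ∃ A1 : ℝ, 0 < A1 ∧ 1000 ≤ Real.log A1 ∧ ∀ (S : ℤ → ℤ → Set ℤ) (Q : Set ℤ) (ρ : ℝ → ℝ) (P : ℝ → Prop),
    (∀ A, 0 < A → 800 ≤ Real.log A → ∀ m : ℕ, (m : ℝ) ^ 2 ≤ Real.log A → PB Q A m (CQ / Real.log A)) →
    (∀ s b, ∀ w : List ℕ, (∀ a ∈ w, 1 ≤ a) → ∀ M x : ℤ, Odd M → Odd x → 0 < M → M ∈ S s b → Vw d w M x →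
      x ∈ S (s - w.sum) (b - w.length) ∪ Q) →
    (∀ t, 0 ≤ ρ t) →
    (∀ A, 0 < A → P A → ∀ (s b : ℤ) (m : ℕ), (m : ℝ) ^ 2 ≤ Real.log A →
      PB (S s b) A m (ρ (s - Real.log A / mu))) →
    ∀ (ks : List ℕ) (cap : ℕ), (∀ k ∈ ks, 3 * k ≤ cap) → ∀ A : ℝ, 0 < A → Gd P N A1 ks A →
      ∀ (s b : ℤ) (m : ℕ), (m : ℝ) ^ 2 ≤ Real.log A →
        PB (S s b) A m ((∑ w ∈ FW cap ks.sum, wwt w *
          ρ (s - Real.log A / mu + c0 * ((w.sum : ℝ) - 2 * (ks.sum : ℝ)))) + ks.length * ε) := by sorry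

/-! ### Task ME6: elementary properties of `CF`, `LC`, `EC` (see LT/A.lean: GF_SF, LF_word, EF_word) -/

theorem GF_CF (d : ℤ) (F : Finset ℤ) (f : ℤ) (m : ℕ) : GF d (RF d F) (CF d F f m) := by sorry

theorem LC_word {d : ℤ} (hd : Odd d) {F : Finset ℤ} {f : ℤ} {m : ℕ} {s k o : ℤ} {w : List ℕ}
    (hw : ∀ a ∈ w, 1 ≤ a) {M x : ℤ} (hM : Odd M) (hx : Odd x) (hMS : M ∈ LC d F f m s k o)
    (h : Vw d w M x) : x ∈ LC d F f m (s - w.sum) (k - w.sum) (o - w.length) ∪ RF d F := by sorry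

theorem EC_word {d : ℤ} (hd : Odd d) {F : Finset ℤ} {f : ℤ} {m : ℕ} {s k o : ℤ} {w : List ℕ}
    (hw : ∀ a ∈ w, 1 ≤ a) {M x : ℤ} (hM : Odd M) (hx : Odd x) (hMS : M ∈ EC d F f m s k o)
    (h : Vw d w M x) : x ∈ EC d F f m (s - w.sum) (k - w.sum) (o - w.length) ∪ RF d F := by sorry

/-- the classes add up -/
theorem CF_sum (d : ℤ) (F : Finset ℤ) (f : ℤ) {m : ℕ} (hm : 1 ≤ m) (t : ℝ) :
    ∑ i ∈ range m, ∑ j ∈ range m, Fd (CF d F f m i j) t = Fd (PF d F f) t := by sorry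

/-- from windows to natural density (see `density_exists` in NDLimit.lean) -/
theorem dens_of_Fd {S : Set ℤ} {l : ℝ} (h : Tendsto (Fd S) atTop (𝓝 l)) :
    Tendsto (fun X : ℝ => G S X / X) atTop (𝓝 (3 * l)) := by sorry

theorem Fd_of_dens {S : Set ℤ} {l : ℝ} (h : Tendsto (fun X : ℝ => G S X / X) atTop (𝓝 l)) :
    Tendsto (Fd S) atTop (𝓝 (l / 3)) := by sorry

end Pool.Agent.H499R2.LT
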