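import Pool.Agent.H499R2.LT.Defs

/-! Project LT: zero-one law. If the trajectories of almost all integers (on both sides) meet a finite
set, then the trajectories of all integers meet some finite set. -/

set_option autoImplicit false

namespace Pool.Agent.H499R2.LT

open Pool.Agent.H320R2.PD Finset Filter Topology

open Pool.Agent.H499R2.ND hiding La Ea Me FC

open Pool.Agent.H499R2.CZ

/-- an integer prime to 3 whose trajectory misses `F` lies on the trajectory of an element of `F` -/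
theorem Q1_hits {d : ℤ} (hd : Odd d) (hd3 : ¬ (3 : ℤ) ∣ d) {s : ℤ} (hs : s = 1 ∨ s = -1)
    (F : Finset ℤ) (h1 : Dn (fun n : ℕ => ∃ k : ℕ, (Td d)^[k] (s * (n : ℤ)) ∈ F) 1) {z : ℤ}
    (hz3 : ¬ (3 : ℤ) ∣ z) (hsz : 0 < s * z) (hU : ∀ k : ℕ, (Td d)^[k] z ∉ F) :
    ∃ f ∈ F, ∃ j : ℕ, (Td d)^[j] f = z := by
  classical
  by_contra hcon
  push Not at hcon
  obtain ⟨c, C, X0, hc, _, hX⟩ := Pool.Agent.H366R2.PDK.dens_k_log Pool.Agent.H366R2.PDK.decay
    d (Int.odd_iff.1 hd) hd3 z hz3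
  have hss : ∀ w : ℤ, s * (s * w) = w := by
    intro w
    rcases hs with rfl | rfl <;> ring
  have key : ∀ N : ℕ, max X0 1 ≤ (N : ℝ) →
      cnt (fun n : ℕ => ∃ k : ℕ, (Td d)^[k] (s * (n : ℤ)) ∈ F) N / N ≤ 1 - c := by
    intro N hN
    have hN1 : (1 : ℝ) ≤ N := (le_max_right _ _).trans hN
    obtain ⟨A, hA, hcard⟩ := hX N ((le_max_left _ _).trans hN)
    have hsgn : ∀ w ∈ A, 0 < s * w := by
      intro w hw
      obtain ⟨-, h2, -⟩ := hA w hw
      have h3 : 0 < (s * w) * (s * z) := by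
        have : (s * w) * (s * z) = (s * s) * (w * z) := by ring
        rw [this]
        rcases hs with rfl | rfl <;> simpa using h2
      exact (mul_pos_iff_of_pos_right hsz).1 h3
    rw [cnt_eq, div_le_iff₀ (by linarith)]
    have hsub : A.image (fun w => (s * w).toNat) ⊆
        (Icc 1 N) \ ((Icc 1 N).filter fun n : ℕ => ∃ k : ℕ, (Td d)^[k] (s * (n : ℤ)) ∈ F) := by
      intro n hn
      rw [mem_image] at hn
      obtain ⟨w, hw, rfl⟩ := hn
      have h4 := hsgn w hw
      obtain ⟨h5, h2, j, -, hj⟩ := hA w hw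
      have hj' : (Td d)^[j] w = z := hj
      have h6 : (((s * w).toNat : ℕ) : ℤ) = s * w := Int.toNat_of_nonneg h4.le
      have h7 : s * w ≤ N := by
        have h8 : (|w| : ℤ) ≤ (N : ℤ) := by exact_mod_cast h5
        have h9 := abs_le.1 h8
        rcases hs with rfl | rfl <;> omega
      rw [Finset.mem_sdiff, mem_Icc]
      refine ⟨⟨by omega, by omega⟩, ?_⟩
      intro hmem
      rw [mem_filter] at hmem
      obtain ⟨-, k, hk⟩ := hmem
      rw [h6, hss] at hk
      rcases le_or_gt j k with hjk | hjk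
      · apply hU (k - j)
        rw [← hj', ← Function.iterate_add_apply, Nat.sub_add_cancel hjk]
        exact hk
      · refine hcon _ hk (j - k) ?_
        rw [← Function.iterate_add_apply, Nat.sub_add_cancel hjk.le]
        exact hj'
    have hcA : (A.image (fun w => (s * w).toNat)).card = A.card := by
      apply card_image_of_injOn
      intro w hw w' hw' hww
      have h4 := hsgn w hw
      have h4' := hsgn w' hw'
      have h5 : s * w = s * w' := by
        have e1 : (((s * w).toNat : ℕ) : ℤ) = s * w := Int.toNat_of_nonneg h4.le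
        have e2 : (((s * w').toNat : ℕ) : ℤ) = s * w' := Int.toNat_of_nonneg h4'.le
        rw [← e1, ← e2]
        exact_mod_cast congrArg (fun n : ℕ => (n : ℤ)) hww
      have h6 := congrArg (fun t => s * t) h5
      simp only [hss] at h6
      exact h6
    have h8 := card_le_card hsub
    rw [hcA, card_sdiff_of_subset (filter_subset _ _), Nat.card_Icc, Nat.add_sub_cancel] at h8
    have h9 := card_filter_le (Icc 1 N) (fun n : ℕ => ∃ k : ℕ, (Td d)^[k] (s * (n : ℤ)) ∈ F)
    rw [Nat.card_Icc, Nat.add_sub_cancel] at h9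
    have h10 : ((#((Icc 1 N).filter fun n : ℕ => ∃ k : ℕ, (Td d)^[k] (s * (n : ℤ)) ∈ F) : ℕ) : ℝ)
        + A.card ≤ N := by
      have : #((Icc 1 N).filter fun n : ℕ => ∃ k : ℕ, (Td d)^[k] (s * (n : ℤ)) ∈ F) + A.card ≤ N := by
        omega
      exact_mod_cast this
    have h11 : (1 - c) * (N : ℝ) = N - c * N := by ring
    rw [h11]
    linarith
  have hlim : (1 : ℝ) ≤ 1 - c := by
    apply le_of_tendsto h1
    filter_upwards [eventually_ge_atTop (⌈max X0 1⌉₊)] with N hN
    exact key N ((Nat.le_ceil _).trans (by exact_mod_cast hN))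
  linarith

theorem Q1_Td_even {d x : ℤ} (h : x % 2 = 0) : Td d x = x / 2 := by
  unfold Td; rw [if_pos h]

theorem Q1_Td_odd {d x : ℤ} (h : ¬ x % 2 = 0) : Td d x = (3 * x + d) / 2 := by
  unfold Td; rw [if_neg h]

/-- a trajectory avoiding 0 has odd terms after any time -/
theorem Q1_odd {d : ℤ} {x : ℤ} (h0 : ∀ k : ℕ, (Td d)^[k] x ≠ 0) (N : ℕ) :
    ∃ n : ℕ, N ≤ n ∧ ¬ ((Td d)^[n] x) % 2 = 0 := by
  by_contra hcon
  push Not at hcon
  have key : ∀ b : ℕ, ∀ n : ℕ, N ≤ n → ((Td d)^[n] x).natAbs ≤ b → False := by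
    intro b
    induction b with
    | zero =>
      intro n _ hb
      exact h0 n (by omega)
    | succ b ih =>
      intro n hn hb
      refine ih (n + 1) (by omega) ?_
      have h1 := hcon n hn
      have h2 := h0 n
      rw [Function.iterate_succ_apply', Q1_Td_even h1]
      omega
  exact key _ N le_rfl le_rfl

theorem zero_one {d : ℤ} (hd : Odd d) (hd3 : ¬ (3 : ℤ) ∣ d) (F : Finset ℤ)
    (h1 : Dn (fun n : ℕ => ∃ k : ℕ, (Td d)^[k] (n : ℤ) ∈ F) 1)
    (h2 : Dn (fun n : ℕ => ∃ k : ℕ, (Td d)^[k] (-(n : ℤ)) ∈ F) 1) :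
    ∃ F' : Finset ℤ, ∀ x : ℤ, ∃ k : ℕ, (Td d)^[k] x ∈ F' := by
  classical
  have hhit : ∀ z : ℤ, ¬ (3 : ℤ) ∣ z → (∀ k : ℕ, (Td d)^[k] z ∉ F) →
      ∃ f ∈ F, ∃ j : ℕ, (Td d)^[j] f = z := by
    intro z hz3 hU
    have hz0 : z ≠ 0 := by rintro rfl; exact hz3 (dvd_zero _)
    rcases lt_or_gt_of_ne hz0 with hz | hz
    · refine Q1_hits hd hd3 (s := -1) (Or.inr rfl) F ?_ hz3 (by omega) hU
      simpa using h2
    · refine Q1_hits hd hd3 (s := 1) (Or.inl rfl) F ?_ hz3 (by omega) hU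
      simpa using h1
  refine ⟨F ∪ {0} ∪ F.biUnion (fun f =>
    if h : {y : ℤ | ∃ k : ℕ, (Td d)^[k] f = y}.Finite then h.toFinset else ∅), ?_⟩
  by_contra hcon
  push Not at hcon
  obtain ⟨x, hx⟩ := hcon
  have hxF : ∀ k : ℕ, (Td d)^[k] x ∉ F := fun k hk => hx k (by
    rw [mem_union, mem_union]; exact Or.inl (Or.inl hk))
  have hx0 : ∀ k : ℕ, (Td d)^[k] x ≠ 0 := fun k hk => hx k (by
    rw [mem_union, mem_union]; exact Or.inl (Or.inr (by rw [hk]; exact mem_singleton_self _)))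
  have hxO : ∀ k : ℕ, ∀ f ∈ F, {y : ℤ | ∃ k : ℕ, (Td d)^[k] f = y}.Finite → ∀ j : ℕ,
      (Td d)^[j] f ≠ (Td d)^[k] x := by
    intro k f hf hfin j hj
    apply hx k
    rw [mem_union]
    right
    rw [mem_biUnion]
    refine ⟨f, hf, ?_⟩
    rw [dif_pos hfin, Set.Finite.mem_toFinset]
    exact ⟨j, hj⟩
  -- a term prime to 3
  obtain ⟨k0, hk0⟩ := exists_prime3' hd hd3 _ x (hx0 0) le_rfl
  set y : ℤ := (Td d)^[k0] x with hy
  have hyit : ∀ i : ℕ, (Td d)^[i] y = (Td d)^[i + k0] x := fun i => by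
    rw [hy, ← Function.iterate_add_apply]
  have hyF : ∀ k : ℕ, (Td d)^[k] y ∉ F := fun k => by rw [hyit]; exact hxF _
  have hy0 : ∀ k : ℕ, (Td d)^[k] y ≠ 0 := fun k => by rw [hyit]; exact hx0 _
  obtain ⟨f0, hf0, j0, hj0⟩ := hhit y hk0 hyF
  have hinf : ¬ {y : ℤ | ∃ k : ℕ, (Td d)^[k] f0 = y}.Finite := fun hfin =>
    hxO k0 f0 hf0 hfin j0 hj0
  -- the trajectory of `y` is injective
  have hinj : ∀ i i' : ℕ, i < i' → (Td d)^[i] y ≠ (Td d)^[i'] y := by
    intro i i' hii heq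
    apply hinf
    have e : ∀ n : ℕ, i + j0 ≤ n → ∃ n' : ℕ, n' < i' + j0 ∧ (Td d)^[n] f0 = (Td d)^[n'] f0 := by
      intro n
      induction n using Nat.strong_induction_on with
      | _ n ih =>
        intro hn
        by_cases hlt : n < i' + j0
        · exact ⟨n, hlt, rfl⟩
        · push Not at hlt
          have e1 : (Td d)^[n] f0 = (Td d)^[n - (i' - i)] f0 := by
            have e2 : n = (n - (i' + j0)) + (i' + j0) := by omega
            have e3 : n - (i' - i) = (n - (i' + j0)) + (i + j0) := by omega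
            rw [e3]
            conv_lhs => rw [e2]
            rw [Function.iterate_add_apply, Function.iterate_add_apply _ i' j0, hj0, ← heq, ← hj0,
              ← Function.iterate_add_apply, ← Function.iterate_add_apply, add_assoc]
          obtain ⟨n', hn', e4⟩ := ih (n - (i' - i)) (by omega) (by omega)
          exact ⟨n', hn', by rw [e1, e4]⟩
    have hsub : {y : ℤ | ∃ k : ℕ, (Td d)^[k] f0 = y} ⊆
        ((range (i' + j0)).image fun n => (Td d)^[n] f0 : Finset ℤ) := by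
      rintro w ⟨n, rfl⟩
      rw [mem_coe, mem_image]
      by_cases hn : n < i' + j0
      · exact ⟨n, mem_range.2 hn, rfl⟩
      · obtain ⟨n', hn', e4⟩ := e n (by omega)
        exact ⟨n', mem_range.2 hn', e4.symm⟩
    exact (Finset.finite_toSet _).subset hsub
  -- the even predecessors
  have hzn : ∀ n : ℕ, ¬ ((Td d)^[n] y) % 2 = 0 →
      (Td d (2 * (Td d)^[n + 1] y) = (Td d)^[n + 1] y ∧ ¬ (3 : ℤ) ∣ 2 * (Td d)^[n + 1] y) ∧
      ∀ i : ℕ, (Td d)^[i] y ≠ 2 * (Td d)^[n + 1] y := by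
    intro n hn
    have e1 : Td d (2 * (Td d)^[n + 1] y) = (Td d)^[n + 1] y := by
      rw [Q1_Td_even (by omega)]; omega
    refine ⟨⟨e1, ?_⟩, ?_⟩
    · rw [Function.iterate_succ_apply', Q1_Td_odd hn]
      obtain ⟨t, ht⟩ := hd
      omega
    · intro i hi
      have e2 : (Td d)^[i + 1] y = (Td d)^[n + 1] y := by
        rw [Function.iterate_succ_apply', hi, e1]
      have e3 : i = n := by
        by_contra hne
        rcases lt_or_gt_of_ne hne with h | h
        · exact hinj (i + 1) (n + 1) (by omega) e2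
        · exact hinj (n + 1) (i + 1) (by omega) e2.symm
      subst e3
      apply hn
      rw [hi]
      omega
  have hhz : ∀ n : ℕ, ¬ ((Td d)^[n] y) % 2 = 0 →
      ∃ f ∈ F, ∃ j : ℕ, (Td d)^[j] f = 2 * (Td d)^[n + 1] y := by
    intro n hn
    obtain ⟨⟨e1, e2⟩, -⟩ := hzn n hn
    by_cases hzF : 2 * (Td d)^[n + 1] y ∈ F
    · exact ⟨_, hzF, 0, rfl⟩
    · apply hhit _ e2
      intro k
      cases k with
      | zero => exact hzF
      | succ k =>
        rw [Function.iterate_succ_apply, e1, ← Function.iterate_add_apply]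
        exact hyF _
  have hOdd : {n : ℕ | ¬ ((Td d)^[n] y) % 2 = 0}.Infinite := by
    rw [Set.infinite_iff_exists_gt]
    intro N
    obtain ⟨n, hn, hn'⟩ := Q1_odd hy0 (N + 1)
    exact ⟨n, hn', by omega⟩
  choose! g hgF hg using hhz
  obtain ⟨n, hn, m, hm, hnm, hgnm⟩ := hOdd.exists_ne_map_eq_of_mapsTo
    (t := (F : Set ℤ)) (f := g) (fun n hn => hgF n hn) F.finite_toSet
  obtain ⟨i, hi⟩ := hg n hn
  obtain ⟨j, hj⟩ := hg m hm
  -- the later one lies on the trajectory of `y`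
  have fin : ∀ (n m i j : ℕ) (f : ℤ), ¬ ((Td d)^[n] y) % 2 = 0 → ¬ ((Td d)^[m] y) % 2 = 0 →
      (Td d)^[i] f = 2 * (Td d)^[n + 1] y → (Td d)^[j] f = 2 * (Td d)^[m + 1] y → i < j → False := by
    intro n m i j f hn hm hi hj hij
    obtain ⟨⟨e1, -⟩, -⟩ := hzn n hn
    obtain ⟨-, e2⟩ := hzn m hm
    apply e2 ((j - i - 1) + (n + 1))
    rw [Function.iterate_add_apply, ← e1, ← hi, ← Function.iterate_succ_apply' (Td d) i,
      ← Function.iterate_add_apply, ← hj]
    congr 1
    omega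
  rcases lt_trichotomy i j with hij | hij | hij
  · exact fin n m i j (g n) hn hm hi (by rw [hgnm]; exact hj) hij
  · subst hij
    rw [hgnm, hj] at hi
    have e3 : (Td d)^[m + 1] y = (Td d)^[n + 1] y := by omega
    rcases lt_or_gt_of_ne hnm with h | h
    · exact hinj (n + 1) (m + 1) (by omega) e3.symm
    · exact hinj (m + 1) (n + 1) (by omega) e3
  · exact fin m n j i (g n) hm hn (by rw [hgnm]; exact hj) hi hij

end Pool.Agent.H499R2.LT
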