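import Pool.Agent.H499R2.LT.R1
import Pool.Agent.H499R2.LT.CC

/-! Project LT: final forms for the Collatz map on the integers. -/

set_option autoImplicit false

namespace Pool.Agent.H499R2.LT

open Pool.Agent.H320R2.PD Finset Filter Topology

open Pool.Agent.H499R2.ND hiding La Ea Me FC

open Pool.Agent.H499R2.CZ

open Pool.Agent.H319R2.Lln (mu)

theorem hit_sideF {d : ℤ} (hd : Odd d) {s : ℤ} (hs : s = 1 ∨ s = -1) (F : Finset ℤ) (f x : ℤ) (k : ℕ) :
    Hit (s * d) (F.image (fun a => s * a)) (s * f) x k ↔ Hit d F f (s * x) k := by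
  unfold Hit
  have e1 : ∀ i, (Td (s * d))^[i] x ∈ F.image (fun a => s * a) ↔ (Td d)^[i] (s * x) ∈ F :=
    fun i => hit_side hd hs F i x
  have e2 : (Td (s * d))^[k] x = s * f ↔ (Td d)^[k] (s * x) = f := by
    rw [Td_side hd hs]
    constructor
    · intro h
      have h2 := congrArg (fun z => s * z) h
      simp only [ss hs] at h2
      exact h2
    · intro h; rw [h]
  rw [e2, mem_side hs]
  simp only [e1]

/-- number of integers of the sign of `s` with first hit `f` after `k` steps, `o` odd terms -/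
noncomputable def NNs (d s : ℤ) (F : Finset ℤ) (f : ℤ) (k : ℕ) (o : ℤ) : ℝ :=
  ({x : ℤ | 0 < s * x ∧ x ∈ SF d F f k o}.ncard : ℝ)

theorem sf_side {d : ℤ} (hd : Odd d) {s : ℤ} (hs : s = 1 ∨ s = -1) (F : Finset ℤ) (f : ℤ) (k : ℕ) (o x : ℤ) :
    (0 < x ∧ x ∈ SF (s * d) (F.image (fun a => s * a)) (s * f) k o) ↔
      (0 < s * (s * x) ∧ s * x ∈ SF d F f k o) := by
  rw [ss hs]
  apply and_congr_right
  intro _
  unfold SF
  rw [Set.mem_ofPred_eq, Set.mem_ofPred_eq]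
  refine exists_congr fun j => ?_
  rw [hit_sideF hd hs, od_side hd hs]

theorem NNs_eq {d : ℤ} (hd : Odd d) {s : ℤ} (hs : s = 1 ∨ s = -1) (F : Finset ℤ) (f : ℤ) (k : ℕ) (o : ℤ) :
    NNs d s F f k o = NN (s * d) (F.image (fun a => s * a)) (s * f) k o := by
  unfold NNs NN
  have h1 : {x : ℤ | 0 < s * x ∧ x ∈ SF d F f k o} = (fun x => s * x) ''
      {x : ℤ | 0 < x ∧ x ∈ SF (s * d) (F.image (fun a => s * a)) (s * f) k o} := by
    ext y
    rw [Set.mem_image]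
    constructor
    · intro hy
      refine ⟨s * y, ?_, ss hs y⟩
      rw [Set.mem_ofPred_eq, sf_side hd hs, ss hs, ss hs]
      exact hy
    · rintro ⟨x, hx, rfl⟩
      rw [Set.mem_ofPred_eq, sf_side hd hs] at hx
      exact hx
  have hinj : Function.Injective (fun x : ℤ => s * x) := by
    intro x y h
    have h2 := congrArg (fun z => s * z) h
    simp only [ss hs] at h2
    exact h2
  rw [h1, Set.ncard_image_of_injective _ hinj]

theorem NNs_finite {d : ℤ} (hd : Odd d) (hd3 : ¬ (3 : ℤ) ∣ d) {s : ℤ} (hs : s = 1 ∨ s = -1) (F : Finset ℤ)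
    (f : ℤ) (k : ℕ) (o : ℤ) : {x : ℤ | 0 < s * x ∧ x ∈ SF d F f k o}.Finite := by
  have hd' : Odd (s * d) := side_odd hd hs
  have hd3' : IsCoprime (s * d) 3 := side_cop (cop_of_not_dvd hd3) hs
  have h := (SF_finite hd' hd3' (F.image (fun a => s * a)) (s * f) k o).image (fun x => s * x)
  refine h.subset fun y hy => ?_
  rw [Set.mem_image]
  refine ⟨s * y, ?_, ss hs y⟩
  rw [Set.mem_ofPred_eq, sf_side hd hs, ss hs, ss hs]
  exact hy

/-- density and local limit theorem for the first hits in `f`, both signs -/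
theorem laws_f {d : ℤ} (hd : Odd d) (hd3 : ¬ (3 : ℤ) ∣ d) {s : ℤ} (hs : s = 1 ∨ s = -1) (F : Finset ℤ) (f : ℤ) :
    ∃ l u : ℝ, 0 ≤ l ∧ 0 ≤ u ∧ (0 < u ↔ 0 < l) ∧
    Dn (fun n : ℕ => s * (n : ℤ) ∈ PF d F f) l ∧
    ∀ K ε : ℝ, 0 < ε → ∃ k0 : ℕ, ∀ (k : ℕ) (o : ℤ), k0 ≤ k → |2 * (o : ℝ) - k| ≤ K * Real.sqrt k →
      |Real.sqrt k * (NNs d s F f k o * (3 : ℝ) ^ o / 2 ^ k)
        - u * Real.exp (-(2 * (o : ℝ) - k) ^ 2 / (2 * k))| ≤ ε := by
  have hd' : Odd (s * d) := side_odd hd hs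
  have hd3' : IsCoprime (s * d) 3 := side_cop (cop_of_not_dvd hd3) hs
  obtain ⟨l, hl⟩ := hd_exists hd' hd3' (F.image (fun a => s * a)) (s * f)
  obtain ⟨u, hu0, hul, hloc⟩ := local_f hd' hd3' (F.image (fun a => s * a)) (s * f) hl
  refine ⟨l, u, hd_nonneg hl, hu0, hul, ?_, ?_⟩
  · refine Dn_iff (fun n _ => ?_) (dn_PF hl)
    unfold PF
    rw [Set.mem_ofPred_eq, Set.mem_ofPred_eq]
    exact exists_congr fun j => hit_sideF hd hs F f n j
  · intro K ε hε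
    obtain ⟨k0, hk0⟩ := hloc K ε hε
    refine ⟨k0, fun k o hk ho => ?_⟩
    rw [NNs_eq hd hs]
    exact hk0 k o hk ho

/-- shift of the second index -/
theorem llt_shift {N : ℕ → ℤ → ℝ} {u : ℝ} (hu : 0 ≤ u)
    (h : ∀ K ε : ℝ, 0 < ε → ∃ k0 : ℕ, ∀ (k : ℕ) (o : ℤ), k0 ≤ k → |2 * (o : ℝ) - k| ≤ K * Real.sqrt k →
      |Real.sqrt k * (N k o * (3 : ℝ) ^ o / 2 ^ k)
        - u * Real.exp (-(2 * (o : ℝ) - k) ^ 2 / (2 * k))| ≤ ε) :
    ∀ K ε : ℝ, 0 < ε → ∃ k0 : ℕ, ∀ (k : ℕ) (o : ℤ), k0 ≤ k → |2 * (o : ℝ) - k| ≤ K * Real.sqrt k →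
      |Real.sqrt k * (N k (o - 1) * (3 : ℝ) ^ o / 2 ^ k)
        - 3 * u * Real.exp (-(2 * (o : ℝ) - k) ^ 2 / (2 * k))| ≤ ε := by
  intro K ε hε
  obtain ⟨k1, hk1⟩ := h (K + 2) (ε / 6) (by positivity)
  -- the difference of the exponentials
  set D : ℝ := 6 * (u + 1) * (2 * |K| + 2) / ε with hD
  have hD0 : 0 < D := by positivity
  obtain ⟨k2, hk2⟩ := exists_nat_gt (D ^ 2)
  refine ⟨max (max k1 k2) 1, fun k o hk ho => ?_⟩
  have hkk1 : k1 ≤ k := ((le_max_left _ _).trans (le_max_left _ _)).trans hk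
  have hkk2 : k2 ≤ k := ((le_max_right _ _).trans (le_max_left _ _)).trans hk
  have hk0 : 1 ≤ k := (le_max_right _ _).trans hk
  have hkR : (1 : ℝ) ≤ k := by exact_mod_cast hk0
  have hsk : 1 ≤ Real.sqrt k := by rw [Real.one_le_sqrt]; exact hkR
  have hsk2 : Real.sqrt k * Real.sqrt k = k := Real.mul_self_sqrt (by linarith)
  have hDk : D ≤ Real.sqrt k := by
    apply Real.le_sqrt_of_sq_le
    have : (k2 : ℝ) ≤ k := by exact_mod_cast hkk2
    linarith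
  have h1 := hk1 k (o - 1) hkk1 (by
    push_cast
    rw [abs_le] at ho ⊢
    constructor <;> nlinarith [ho.1, ho.2])
  push_cast at h1
  set E := Real.exp (-(2 * (o : ℝ) - k) ^ 2 / (2 * k)) with hE
  set E' := Real.exp (-(2 * ((o : ℝ) - 1) - k) ^ 2 / (2 * k)) with hE'
  have hEE : |E' - E| ≤ (2 * |K| + 2) / Real.sqrt k := by
    have habs0 : ∀ a b : ℝ, a ≤ 0 → b ≤ 0 → b ≤ a → |Real.exp a - Real.exp b| ≤ |a - b| := by
      intro a b ha hb hab
      rw [abs_of_nonneg (sub_nonneg.2 (Real.exp_le_exp.2 hab)), abs_of_nonneg (sub_nonneg.2 hab)]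
      have h3 : Real.exp b = Real.exp a * Real.exp (b - a) := by rw [← Real.exp_add]; congr 1; ring
      rw [h3]
      have h4 := Real.add_one_le_exp (b - a)
      have h5 : Real.exp a ≤ 1 := Real.exp_le_one_iff.2 ha
      have h6 := Real.exp_pos a
      nlinarith
    have habs : ∀ a b : ℝ, a ≤ 0 → b ≤ 0 → |Real.exp a - Real.exp b| ≤ |a - b| := by
      intro a b ha hb
      rcases le_total b a with hab | hab
      · exact habs0 a b ha hb hab
      · rw [abs_sub_comm, abs_sub_comm a b]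
        exact habs0 b a hb ha hab
    refine (habs _ _ ?_ ?_).trans ?_
    · apply div_nonpos_of_nonpos_of_nonneg
      · nlinarith [sq_nonneg (2 * ((o : ℝ) - 1) - k)]
      · positivity
    · apply div_nonpos_of_nonpos_of_nonneg
      · nlinarith [sq_nonneg (2 * (o : ℝ) - k)]
      · positivity
    · have e1 : -(2 * ((o : ℝ) - 1) - k) ^ 2 / (2 * k) - -(2 * (o : ℝ) - k) ^ 2 / (2 * k)
          = (2 * (2 * (o : ℝ) - k) - 2) / k := by
        field_simp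
        ring
      rw [e1, abs_div, abs_of_pos (by linarith : (0 : ℝ) < k), div_le_div_iff₀ (by linarith) (by linarith)]
      have h3 : |2 * (2 * (o : ℝ) - k) - 2| ≤ (2 * |K| + 2) * Real.sqrt k := by
        have h4 : |2 * (o : ℝ) - k| ≤ |K| * Real.sqrt k :=
          ho.trans (mul_le_mul_of_nonneg_right (le_abs_self K) (Real.sqrt_nonneg _))
        rw [abs_le] at h4 ⊢
        constructor <;> nlinarith [h4.1, h4.2]
      calc |2 * (2 * (o : ℝ) - k) - 2| * Real.sqrt k ≤ ((2 * |K| + 2) * Real.sqrt k) * Real.sqrt k :=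
            mul_le_mul_of_nonneg_right h3 (Real.sqrt_nonneg _)
        _ = (2 * |K| + 2) * k := by rw [mul_assoc, hsk2]
  have h5 : Real.sqrt k * (N k (o - 1) * (3 : ℝ) ^ o / 2 ^ k) - 3 * u * E
      = 3 * (Real.sqrt k * (N k (o - 1) * (3 : ℝ) ^ (o - 1) / 2 ^ k) - u * E') + 3 * u * (E' - E) := by
    have : (3 : ℝ) ^ o = 3 * (3 : ℝ) ^ (o - 1) := by
      rw [zpow_sub_one₀ (by norm_num)]; ring
    rw [this]; ring
  rw [h5]
  refine (abs_add_le _ _).trans ?_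
  rw [abs_mul, abs_mul, abs_of_pos (by norm_num : (0 : ℝ) < 3), abs_of_nonneg (by positivity : (0 : ℝ) ≤ 3 * u)]
  have h6 : 3 * u * |E' - E| ≤ ε / 2 := by
    calc 3 * u * |E' - E| ≤ 3 * u * ((2 * |K| + 2) / Real.sqrt k) :=
          mul_le_mul_of_nonneg_left hEE (by positivity)
      _ ≤ 3 * u * ((2 * |K| + 2) / D) := by
          apply mul_le_mul_of_nonneg_left _ (by positivity)
          exact div_le_div_of_nonneg_left (by positivity) hD0 hDk
      _ = ε / 2 * (u / (u + 1)) := by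
          rw [hD]
          field_simp
          ring
      _ ≤ ε / 2 * 1 := by
          apply mul_le_mul_of_nonneg_left _ (by positivity)
          rw [div_le_one (by positivity)]
          linarith
      _ = ε / 2 := by ring
  linarith

theorem llt_add {N N' : ℕ → ℤ → ℝ} {u u' : ℝ}
    (h : ∀ K ε : ℝ, 0 < ε → ∃ k0 : ℕ, ∀ (k : ℕ) (o : ℤ), k0 ≤ k → |2 * (o : ℝ) - k| ≤ K * Real.sqrt k →
      |Real.sqrt k * (N k o * (3 : ℝ) ^ o / 2 ^ k)
        - u * Real.exp (-(2 * (o : ℝ) - k) ^ 2 / (2 * k))| ≤ ε)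
    (h' : ∀ K ε : ℝ, 0 < ε → ∃ k0 : ℕ, ∀ (k : ℕ) (o : ℤ), k0 ≤ k → |2 * (o : ℝ) - k| ≤ K * Real.sqrt k →
      |Real.sqrt k * (N' k o * (3 : ℝ) ^ o / 2 ^ k)
        - u' * Real.exp (-(2 * (o : ℝ) - k) ^ 2 / (2 * k))| ≤ ε) :
    ∀ K ε : ℝ, 0 < ε → ∃ k0 : ℕ, ∀ (k : ℕ) (o : ℤ), k0 ≤ k → |2 * (o : ℝ) - k| ≤ K * Real.sqrt k →
      |Real.sqrt k * ((N k o + N' k o) * (3 : ℝ) ^ o / 2 ^ k)
        - (u + u') * Real.exp (-(2 * (o : ℝ) - k) ^ 2 / (2 * k))| ≤ ε := by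
  intro K ε hε
  obtain ⟨k1, hk1⟩ := h K (ε / 2) (by positivity)
  obtain ⟨k2, hk2⟩ := h' K (ε / 2) (by positivity)
  refine ⟨max k1 k2, fun k o hk ho => ?_⟩
  have h1 := hk1 k o ((le_max_left _ _).trans hk) ho
  have h2 := hk2 k o ((le_max_right _ _).trans hk) ho
  have h3 : Real.sqrt k * ((N k o + N' k o) * (3 : ℝ) ^ o / 2 ^ k)
        - (u + u') * Real.exp (-(2 * (o : ℝ) - k) ^ 2 / (2 * k))
      = (Real.sqrt k * (N k o * (3 : ℝ) ^ o / 2 ^ k)
        - u * Real.exp (-(2 * (o : ℝ) - k) ^ 2 / (2 * k)))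
        + (Real.sqrt k * (N' k o * (3 : ℝ) ^ o / 2 ^ k)
        - u' * Real.exp (-(2 * (o : ℝ) - k) ^ 2 / (2 * k))) := by ring
  rw [h3]
  refine (abs_add_le _ _).trans ?_
  linarith

theorem llt_zero : ∀ K ε : ℝ, 0 < ε → ∃ k0 : ℕ, ∀ (k : ℕ) (o : ℤ), k0 ≤ k → |2 * (o : ℝ) - k| ≤ K * Real.sqrt k →
      |Real.sqrt k * ((0 : ℝ) * (3 : ℝ) ^ o / 2 ^ k)
        - 0 * Real.exp (-(2 * (o : ℝ) - k) ^ 2 / (2 * k))| ≤ ε := by
  intro K ε hε
  refine ⟨0, fun k o _ _ => ?_⟩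
  simp [hε.le]

theorem llt_sum {ι : Type*} (A : Finset ι) (N : ι → ℕ → ℤ → ℝ) (u : ι → ℝ)
    (h : ∀ i ∈ A, ∀ K ε : ℝ, 0 < ε → ∃ k0 : ℕ, ∀ (k : ℕ) (o : ℤ), k0 ≤ k → |2 * (o : ℝ) - k| ≤ K * Real.sqrt k →
      |Real.sqrt k * (N i k o * (3 : ℝ) ^ o / 2 ^ k)
        - u i * Real.exp (-(2 * (o : ℝ) - k) ^ 2 / (2 * k))| ≤ ε) :
    ∀ K ε : ℝ, 0 < ε → ∃ k0 : ℕ, ∀ (k : ℕ) (o : ℤ), k0 ≤ k → |2 * (o : ℝ) - k| ≤ K * Real.sqrt k →
      |Real.sqrt k * ((∑ i ∈ A, N i k o) * (3 : ℝ) ^ o / 2 ^ k)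
        - (∑ i ∈ A, u i) * Real.exp (-(2 * (o : ℝ) - k) ^ 2 / (2 * k))| ≤ ε := by
  classical
  induction A using Finset.induction_on with
  | empty => simpa using llt_zero
  | insert a A ha ih =>
    have h1 := ih (fun i hi => h i (mem_insert_of_mem hi))
    have h2 := llt_add (h a (mem_insert_self a A)) h1
    simpa [sum_insert ha] using h2

/-- the level sets of the Collatz map on the integers of the sign of `s` -/
def LevCs (s : ℤ) (F : Finset ℤ) (e o : ℕ) : Set ℤ := {x : ℤ | 0 < s * x ∧ LevC F e o x}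

theorem levCs_ncard {s : ℤ} (hs : s = 1 ∨ s = -1) (F : Finset ℤ) (e o : ℕ) :
    ((LevCs s F e o).ncard : ℝ) = ∑ g ∈ (FF F).filter (fun g => g ∈ F), NNs 1 s (FF F) g e o
      + ∑ g ∈ (FF F).filter (fun g => g ∉ F), NNs 1 s (FF F) g e (o - 1) := by
  classical
  have h13 : ¬ (3 : ℤ) ∣ 1 := by omega
  have hfin := fun (g : ℤ) (o : ℤ) => NNs_finite odd_one h13 hs (FF F) g e o
  have h1 : LevCs s F e o = (((((FF F).filter (fun g => g ∈ F)).biUnion fun g => (hfin g o).toFinset) ∪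
      (((FF F).filter (fun g => g ∉ F)).biUnion fun g => (hfin g (o - 1)).toFinset) : Finset ℤ) : Set ℤ) := by
    ext x
    rw [mem_coe, mem_union, mem_biUnion, mem_biUnion]
    unfold LevCs
    rw [Set.mem_ofPred_eq, levC_iff]
    constructor
    · rintro ⟨hx, g, hg, h⟩
      rcases h with ⟨h, h'⟩ | ⟨h, h'⟩
      · left
        refine ⟨g, mem_filter.2 ⟨hg.2.1, h⟩, ?_⟩
        rw [Set.Finite.mem_toFinset]
        exact ⟨hx, e, rfl, hg, h'⟩
      · right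
        refine ⟨g, mem_filter.2 ⟨hg.2.1, h⟩, ?_⟩
        rw [Set.Finite.mem_toFinset]
        exact ⟨hx, e, rfl, hg, by omega⟩
    · rintro (⟨g, hg, h⟩ | ⟨g, hg, h⟩)
      · rw [Set.Finite.mem_toFinset] at h
        obtain ⟨hx, j, hj, hh, ho⟩ := h
        have hj' : j = e := by exact_mod_cast hj
        subst hj'
        exact ⟨hx, g, hh, Or.inl ⟨(mem_filter.1 hg).2, ho⟩⟩
      · rw [Set.Finite.mem_toFinset] at h
        obtain ⟨hx, j, hj, hh, ho⟩ := h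
        have hj' : j = e := by exact_mod_cast hj
        subst hj'
        exact ⟨hx, g, hh, Or.inr ⟨(mem_filter.1 hg).2, by omega⟩⟩
  have hdis : ∀ (o o' g g' : ℤ), g ≠ g' → Disjoint (hfin g o).toFinset (hfin g' o').toFinset := by
    intro o o' g g' hgg
    rw [Finset.disjoint_left]
    intro x hx hx'
    rw [Set.Finite.mem_toFinset] at hx hx'
    obtain ⟨_, j, _, hh, _⟩ := hx
    obtain ⟨_, j', _, hh', _⟩ := hx'
    exact hgg (Hit_unique hh hh').1
  rw [h1, Set.ncard_coe_finset, card_union_of_disjoint, card_biUnion, card_biUnion]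
  · push_cast
    congr 1
    · apply sum_congr rfl
      intro g _
      unfold NNs
      rw [Set.ncard_eq_toFinset_card _ (hfin g o)]
    · apply sum_congr rfl
      intro g _
      unfold NNs
      rw [Set.ncard_eq_toFinset_card _ (hfin g (o - 1))]
  · intro g _ g' _ hgg
    exact hdis _ _ _ _ hgg
  · intro g _ g' _ hgg
    exact hdis _ _ _ _ hgg
  · rw [disjoint_biUnion_left]
    intro g hg
    rw [disjoint_biUnion_right]
    intro g' hg'
    apply hdis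
    rintro rfl
    exact (mem_filter.1 hg').2 (mem_filter.1 hg).2

end Pool.Agent.H499R2.LT
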