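import Pool.Agent.H499R2.LT.R5
import Pool.Agent.H499R2.NDLln3

/-! Project LT: equidistribution without time bound; forms for natural numbers. -/

set_option autoImplicit false

namespace Pool.Agent.H499R2.LT

open Pool.Agent.H320R2.PD Finset Filter Topology

open Pool.Agent.H499R2.ND hiding La Ea Me FC Bg Ea_word La_word

open Pool.Agent.H499R2.CZ

open Pool.Agent.H319R2.Lln (mu)

/-- EQUIDISTRIBUTION modulo `m` of the hitting time and of the number of odd terms, both signs -/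
theorem equi_side {d : ℤ} (hd : Odd d) (hd3 : ¬ (3 : ℤ) ∣ d) {s : ℤ} (hs : s = 1 ∨ s = -1) (F : Finset ℤ)
    {δ : ℝ} (hδ : Dn (fun n : ℕ => ∃ k : ℕ, (Td d)^[k] (s * n) ∈ F) δ) (m : ℕ) (κ ω : ℤ) (hm : 1 ≤ m) :
    Dn (fun n : ℕ => ∃ j : ℕ,
      ((Td d)^[j] (s * n) ∈ F ∧ ∀ i < j, (Td d)^[i] (s * n) ∉ F) ∧
      (j : ℤ) ≡ κ [ZMOD m] ∧ od d j (s * n) ≡ ω [ZMOD m]) (δ / m ^ 2) := by
  have hd' : Odd (s * d) := side_odd hd hs
  have hd3' : IsCoprime (s * d) 3 := side_cop (cop_of_not_dvd hd3) hs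
  choose l hl using fun f => hd_exists hd' hd3' (F.image (fun a => s * a)) (s * f)
  have hdens : ∀ f, Dn (fun n : ℕ => s * (n : ℤ) ∈ PF d F f) (l f) := by
    intro f
    refine Dn_iff (fun n _ => ?_) (dn_PF (hl f))
    unfold PF
    rw [Set.mem_ofPred_eq, Set.mem_ofPred_eq]
    exact exists_congr fun j => hit_sideF hd hs F f n j
  have hδs : δ = ∑ f ∈ F, l f := by
    refine tendsto_nhds_unique hδ ?_
    refine Dn_iff (fun n _ => ?_) (Dn_sum F (fun g n => s * (n : ℤ) ∈ PF d F g) l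
      (fun g _ => hdens g) ?_)
    · constructor
      · rintro ⟨g, hg, j, hj⟩
        exact ⟨j, hj.1 ▸ hg⟩
      · rintro ⟨k, hk⟩
        obtain ⟨j, _, f, hf⟩ := hit_iff hk
        exact ⟨f, hf.2.1, j, hf⟩
    · rintro n f _ g _ ⟨j, hj⟩ ⟨j', hj'⟩
      exact (Hit_unique hj hj').1
  have hf : ∀ f, Dn (fun n : ℕ => ∃ j : ℕ, Hit d F f (s * n) j ∧ (j : ℤ) ≡ κ [ZMOD m] ∧
      od d j (s * n) ≡ ω [ZMOD m]) (l f / m ^ 2) := by
    intro f
    have h1 := dn_of_G (CF_dens hd' hd3' (F.image (fun a => s * a)) (s * f) (hl f) hm κ ω)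
    refine Dn_iff (fun n _ => ?_) h1
    unfold CF
    rw [Set.mem_ofPred_eq]
    refine exists_congr fun j => ?_
    rw [hit_sideF hd hs, od_side hd hs]
  have h1 := Dn_sum F _ (fun f => l f / m ^ 2) (fun f _ => hf f) (by
    rintro n f _ g _ ⟨j, hj, _⟩ ⟨j', hj', _⟩
    exact (Hit_unique hj hj').1)
  rw [← sum_div, ← hδs] at h1
  refine Dn_iff (fun n _ => ?_) h1
  constructor
  · rintro ⟨f, hf, j, hj2, hj3, hj4⟩
    exact ⟨j, ⟨hj2.1 ▸ hf, hj2.2.2⟩, hj3, hj4⟩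
  · rintro ⟨j, ⟨hj2, hj2'⟩, hj3, hj4⟩
    exact ⟨_, hj2, j, ⟨rfl, hj2, hj2'⟩, hj3, hj4⟩

theorem Td_nat (i n : ℕ) : (Td 1)^[i] (n : ℤ) = ((Tn^[i] n : ℕ) : ℤ) := T_cast i n

/-- number of odd terms, natural numbers -/
def odn (k n : ℕ) : ℕ := ((Finset.range k).filter fun i => Tn^[i] n % 2 = 1).card

theorem od_nat (k n : ℕ) : od 1 k (n : ℤ) = (odn k n : ℤ) := by
  induction k with
  | zero => rfl
  | succ k ih =>
    rw [od_add, ih]
    unfold odn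
    rw [Finset.range_add_one, Finset.filter_insert, Td_nat, od, od, add_zero]
    rcases Nat.mod_two_eq_zero_or_one (Tn^[k] n) with h | h
    · have h' : ((Tn^[k] n : ℕ) : ℤ) % 2 = 0 := by omega
      rw [if_pos h', if_neg (by omega)]
      simp
    · have h' : ¬ ((Tn^[k] n : ℕ) : ℤ) % 2 = 0 := by omega
      rw [if_neg h', if_pos h, Finset.card_insert_of_notMem (by simp)]
      push_cast
      ring

/-- the law of the total stopping time (shortcut map) -/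
theorem law_one : ∃ δ : ℝ, 0 < δ ∧ δ ≤ 1 ∧ (δ = 1 ↔ ∀ n : ℕ, 1 ≤ n → ∃ k : ℕ, Tn^[k] n = 1) ∧
    Dn (fun n => ∃ k : ℕ, Tn^[k] n = 1) δ ∧
    ∀ (m : ℕ) (a b : ℤ), 1 ≤ m →
      Dn (fun n => ∃ k : ℕ, (Tn^[k] n = 1 ∧ ∀ i < k, Tn^[i] n ≠ 1) ∧
        (k : ℤ) ≡ a [ZMOD m] ∧ (odn k n : ℤ) ≡ b [ZMOD m]) (δ / m ^ 2) ∧
      ∀ x : ℝ, Dn (fun n => ∃ k : ℕ, (k : ℝ) ≤ 2 / Real.log (4 / 3) * Real.log n
          + x * (Real.log 3 * Real.sqrt (2 * Real.log n / Real.log (4 / 3) ^ 3)) ∧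
        (Tn^[k] n = 1 ∧ ∀ i < k, Tn^[i] n ≠ 1) ∧
        (k : ℤ) ≡ a [ZMOD m] ∧ (odn k n : ℤ) ≡ b [ZMOD m])
        (δ * ProbabilityTheory.cdf (ProbabilityTheory.gaussianReal 0 1) x / m ^ 2) := by
  obtain ⟨δ, h0, h1, h2, h3⟩ := Bas_density
  obtain ⟨δ', _, _, hδ', hlaw⟩ := joint_side (d := 1) odd_one (by omega) (Or.inl rfl : (1 : ℤ) = 1 ∨ _) {1}
  have hiff : ∀ (n k : ℕ), (Td 1)^[k] (1 * (n : ℤ)) ∈ ({1} : Finset ℤ) ↔ Tn^[k] n = 1 := by
    intro n k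
    rw [one_mul, Td_nat, Finset.mem_singleton]
    exact_mod_cast Iff.rfl
  have hB : Dn Bas δ' := Dn_iff (fun n _ => exists_congr fun k => hiff n k) hδ'
  have e : δ' = δ := tendsto_nhds_unique hB h3
  refine ⟨δ, h0, h1, h2, h3, fun m a b hm => ⟨?_, fun x => ?_⟩⟩
  · have h4 := equi_side (d := 1) odd_one (by omega) (Or.inl rfl : (1 : ℤ) = 1 ∨ _) {1} hδ' m a b hm
    rw [e] at h4
    refine Dn_iff (fun n _ => ?_) h4
    refine exists_congr fun k => ?_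
    simp only [hiff]
    rw [one_mul, od_nat]
  · have h4 := hlaw x m a b hm
    have e2 : δ' / (m : ℝ) ^ 2 * Pool.Agent.H499R2.ND.Phi x
        = δ * ProbabilityTheory.cdf (ProbabilityTheory.gaussianReal 0 1) x / m ^ 2 := by
      rw [← phi_cdf, e]; ring
    rw [e2] at h4
    refine Dn_iff (fun n hn => ?_) h4
    refine exists_congr fun k => ?_
    rw [tb2 x n hn]
    simp only [hiff]
    rw [one_mul, od_nat]

theorem Cz_one (n : ℕ) : Cz (n : ℤ) = ((CC n : ℕ) : ℤ) := by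
  unfold Cz CC
  rcases Nat.mod_two_eq_zero_or_one n with h | h
  · have h' : (n : ℤ) % 2 = 0 := by omega
    rw [if_pos h', if_pos h]; push_cast; rfl
  · have h' : ¬ (n : ℤ) % 2 = 0 := by omega
    rw [if_neg h', if_neg (by omega)]; push_cast; rfl

theorem Cz_nat (i n : ℕ) : Cz^[i] (n : ℤ) = ((CC^[i] n : ℕ) : ℤ) := by
  induction i with
  | zero => rfl
  | succ i ih =>
    rw [Function.iterate_succ_apply', Function.iterate_succ_apply', ih, Cz_one]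

/-- number of odd terms of the Collatz trajectory -/
def ocn (k n : ℕ) : ℕ := ((Finset.range k).filter fun i => CC^[i] n % 2 = 1).card

theorem oC_succ (t : ℕ) (x : ℤ) : oC (t + 1) x = oC t x + (if Cz^[t] x % 2 = 0 then 0 else 1) := by
  induction t generalizing x with
  | zero => rw [oC, oC, oC]; simp
  | succ t ih =>
    rw [oC, ih, oC, Function.iterate_succ_apply]
    ring

theorem oC_nat (k n : ℕ) : oC k (n : ℤ) = ocn k n := by
  induction k with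
  | zero => rfl
  | succ k ih =>
    rw [oC_succ, ih, Cz_nat]
    unfold ocn
    rw [Finset.range_add_one, Finset.filter_insert]
    rcases Nat.mod_two_eq_zero_or_one (CC^[k] n) with h | h
    · have h' : ((CC^[k] n : ℕ) : ℤ) % 2 = 0 := by omega
      rw [if_pos h', if_neg (by omega)]
      simp
    · have h' : ¬ ((CC^[k] n : ℕ) : ℤ) % 2 = 0 := by omega
      rw [if_neg h', if_pos h, Finset.card_insert_of_notMem (by simp)]

/-- the law of the total stopping time (Collatz map) -/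
theorem law_oneC : ∃ δ : ℝ, 0 < δ ∧ δ ≤ 1 ∧ (δ = 1 ↔ ∀ n : ℕ, 1 ≤ n → ∃ k : ℕ, CC^[k] n = 1) ∧
    Dn (fun n => ∃ k : ℕ, CC^[k] n = 1) δ ∧
    ∀ (m : ℕ) (a b : ℤ), 1 ≤ m →
      ∀ x : ℝ, Dn (fun n => ∃ k : ℕ, (k : ℝ) ≤ 3 / Real.log (4 / 3) * Real.log n
          + x * (Real.log 6 * Real.sqrt (2 * Real.log n / Real.log (4 / 3) ^ 3)) ∧
        (CC^[k] n = 1 ∧ ∀ i < k, CC^[i] n ≠ 1) ∧
        (k : ℤ) ≡ a [ZMOD m] ∧ (ocn k n : ℤ) ≡ b [ZMOD m])
        (δ * ProbabilityTheory.cdf (ProbabilityTheory.gaussianReal 0 1) x / m ^ 2) := by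
  obtain ⟨δ, h0, h1, h2, h3⟩ := Bas_density
  obtain ⟨δ', _, _, hδ', hlaw⟩ := jointC (Or.inl rfl : (1 : ℤ) = 1 ∨ _) {1}
  have hiff : ∀ (n k : ℕ), Cz^[k] (1 * (n : ℤ)) ∈ ({1} : Finset ℤ) ↔ CC^[k] n = 1 := by
    intro n k
    rw [one_mul, Cz_nat, Finset.mem_singleton]
    exact_mod_cast Iff.rfl
  have hB : Dn (fun n => ∃ k : ℕ, CC^[k] n = 1) δ' := Dn_iff (fun n _ => exists_congr fun k => hiff n k) hδ'
  have hB' : Dn (fun n => ∃ k : ℕ, CC^[k] n = 1) δ := Dn_iff (fun n _ => BasC n) h3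
  have e : δ' = δ := tendsto_nhds_unique hB hB'
  refine ⟨δ, h0, h1, ?_, hB', fun m a b hm x => ?_⟩
  · rw [h2]
    exact forall₂_congr fun n _ => BasC n
  · have h4 := hlaw x m (a - b) b hm
    have e2 : δ' / (m : ℝ) ^ 2 * Pool.Agent.H499R2.ND.Phi x
        = δ * ProbabilityTheory.cdf (ProbabilityTheory.gaussianReal 0 1) x / m ^ 2 := by
      rw [← phi_cdf, e]; ring
    rw [e2] at h4
    refine Dn_iff (fun n hn => ?_) h4
    rw [tb_eq x n hn]
    have hlev : ∀ e o : ℕ, LevC {1} e o (1 * (n : ℤ)) ↔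
        (CC^[e + o] n = 1 ∧ ∀ i < e + o, CC^[i] n ≠ 1) ∧ ocn (e + o) n = o := by
      intro e o
      unfold LevC LevT
      simp only [hiff]
      rw [one_mul, oC_nat]
      tauto
    constructor
    · rintro ⟨e, o, g1, g2, g3, g4⟩
      obtain ⟨g5, g6⟩ := (hlev e o).1 g2
      refine ⟨e + o, g1, g5, ?_, ?_⟩
      · have := g3.add g4
        rw [sub_add_cancel] at this
        push_cast
        exact this
      · rw [g6]; exact g4
    · rintro ⟨k, g1, g2, g3, g4⟩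
      have hle : ocn k n ≤ k := by rw [← oC_nat]; exact oC_le k n
      refine ⟨k - ocn k n, ocn k n, ?_, (hlev _ _).2 ?_, ?_, g4⟩
      · rw [Nat.sub_add_cancel hle]; exact g1
      · rw [Nat.sub_add_cancel hle]; exact ⟨g2, rfl⟩
      · rw [Nat.cast_sub hle]
        exact g3.sub g4

end Pool.Agent.H499R2.LT
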