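import Pool.Agent.H499R2.LT.Defs

/-! Project LT: stubs. Every task goes into its own file `Pool/Agent/H499R2/LT/<ID>.lean`. -/

set_option autoImplicit false

namespace Pool.Agent.H499R2.LT

open Pool.Agent.H320R2.PD Finset Filter Topology

open Pool.Agent.H499R2.ND hiding La Ea Me FC

open Pool.Agent.H499R2.CZ

open Pool.Agent.H319R2.Lln (mu)

/-! ### Task LT-A: words and graded families -/

theorem od_add (d : ℤ) (j i : ℕ) (x : ℤ) : od d (j + i) x = od d j x + od d i ((Td d)^[j] x) := by sorry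

/-- the word is the trajectory -/
theorem word_od {d : ℤ} (hd : Odd d) {w : List ℕ} (hw : ∀ a ∈ w, 1 ≤ a) {M x : ℤ} (hM : Odd M)
    (hx : Odd x) (h : Vw d w M x) : (Td d)^[w.sum] M = x ∧ od d w.sum M = w.length := by sorry

theorem RF_FC (d : ℤ) (F : Finset ℤ) : FC d (RF d F) := by sorry

theorem RF_sub (d : ℤ) {F : Finset ℤ} {a : ℤ} (ha : a ∈ F) : a ∈ RF d F := by sorry

/-- graded families and words -/
theorem GF_word {d : ℤ} (hd : Odd d) {R : Set ℤ} (hR : FC d R) {S : ℤ → ℤ → Set ℤ} (hS : GF d R S)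
    {w : List ℕ} (hw : ∀ a ∈ w, 1 ≤ a) {M x : ℤ} (hM : Odd M) (hx : Odd x) (h : Vw d w M x) (k o : ℤ) :
    (M ∈ S k o → x ∈ S (k - w.sum) (o - w.length) ∪ R) ∧
    (M ∉ S k o → x ∈ (S (k - w.sum) (o - w.length))ᶜ ∪ R) := by sorry

theorem GF_SF (d : ℤ) (F : Finset ℤ) (f : ℤ) : GF d (RF d F) (SF d F f) := by sorry

theorem AI_PF (d : ℤ) (F : Finset ℤ) (f : ℤ) : AI d (RF d F) (PF d F f) := by sorry

/-- hits are unique -/
theorem Hit_unique {d : ℤ} {F : Finset ℤ} {f g x : ℤ} {i j : ℕ} (h : Hit d F f x i) (h' : Hit d F g x j) :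
    f = g ∧ i = j := by sorry

/-- splitting a hit at the first visit to a larger set -/
theorem hit_split {d : ℤ} {F F' : Finset ℤ} (hFF : F ⊆ F') {f x : ℤ} {j : ℕ} (h : Hit d F f x j) :
    ∃ i ≤ j, ∃ g ∈ F', Hit d F' g x i ∧ Hit d F f g (j - i) := by sorry

theorem hit_join {d : ℤ} {F F' : Finset ℤ} (hFF : F ⊆ F') {f g x : ℤ} {i j : ℕ} (h : Hit d F' g x i)
    (h' : Hit d F f g j) : Hit d F f x (i + j) := by sorry

theorem LF_word {d : ℤ} (hd : Odd d) {F : Finset ℤ} {f s : ℤ} {w : List ℕ} (hw : ∀ a ∈ w, 1 ≤ a)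
    {M x : ℤ} (hM : Odd M) (hx : Odd x) (hMS : M ∈ LF d F f s) (h : Vw d w M x) :
    x ∈ LF d F f (s - w.sum) ∪ RF d F := by sorry

theorem EF_word {d : ℤ} (hd : Odd d) {F : Finset ℤ} {f s : ℤ} {w : List ℕ} (hw : ∀ a ∈ w, 1 ≤ a)
    {M x : ℤ} (hM : Odd M) (hx : Odd x) (hMS : M ∈ EF d F f s) (h : Vw d w M x) :
    x ∈ EF d F f (s - w.sum) ∪ RF d F := by sorry

/-! ### Task LT-B0: sparsity of trajectories -/

theorem RF_SpW {d : ℤ} (hd : Odd d) (hd3 : IsCoprime d 3) (F : Finset ℤ) : SpW (RF d F) := by sorry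

/-! ### Task LT-B1: equidistribution of graded families, odd integers (adapt `equi_odd`) -/

theorem equi_oddG (B : ℕ) {d : ℤ} (hd : Odd d) (hd3 : IsCoprime d 3) {R : Set ℤ} (hR : FC d R) (hRs : SpW R) :
    ∃ C : ℝ, 0 < C ∧ ∀ S : ℤ → ℤ → Set ℤ, GF d R S → ∀ A : ℝ, 0 < A → 1000 ≤ Real.log A → ∀ m : ℕ,
      (m : ℝ) ^ 2 ≤ Real.log A → ∀ k o c c' : ℤ,
      ((cls (S k o) A (2 * A) m 1 c).card : ℝ)
        ≤ (cls (S k o) A (2 * A) m 1 c').card + C / (Real.log A) ^ B * (A / (2 * 3 ^ m)) := by sorry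

/-! ### Task LT-B2: equidistribution mod 3 of graded families (adapt `equi_all`) -/

theorem equi_allG {d : ℤ} (hd : Odd d) (hd3 : IsCoprime d 3) {R : Set ℤ} (hR : FC d R) (hRs : SpW R) :
    ∃ K : ℝ, 0 < K ∧ ∀ S : ℤ → ℤ → Set ℤ, GF d R S → ∀ A : ℝ, 0 < A → 1001 ≤ Real.log A →
      ∀ k o c c' : ℤ, ((wc (S k o) A (2 * A) 3 c).card : ℝ)
        ≤ (wc (S k o) A (2 * A) 3 c').card + K / (Real.log A) ^ 2 * A := by sorry

/-! ### Task LT-B3: almost invariant sets have a natural density (adapt `harm`, `Fd_harm`,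
`Fd_tendsto`, `density_exists`) -/

theorem density_AI {d : ℤ} (hd : Odd d) (hd3 : IsCoprime d 3) {R : Set ℤ} (hR : FC d R) (hRs : SpW R)
    {S : Set ℤ} (hS : AI d R S) :
    ∃ l : ℝ, Tendsto (fun X : ℝ => G S X / X) atTop (𝓝 l) := by sorry

/-! ### Task LT-B4: almost invariant sets in classes mod `3^m` (adapt CZ-I / CL/I.lean) -/

theorem class_bound_AI {d : ℤ} (hd : Odd d) (hd3 : IsCoprime d 3) {R : Set ℤ} (hR : FC d R) (hRs : SpW R)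
    {S : Set ℤ} (hS : AI d R S) {δ : ℝ}
    (hδ : Tendsto (fun X : ℝ => G S X / X) atTop (𝓝 δ)) {ε : ℝ} (hε : 0 < ε) :
    ∃ A0 : ℝ, 0 < A0 ∧ ∀ A : ℝ, A0 ≤ A → ∀ m : ℕ, (m : ℝ) ^ 2 ≤ Real.log A → PB S A m (δ + ε) := by sorry

/-! ### Task LT-C0: the size along a trajectory (`r` is the sum of `log (1 + d/(3y))` over the odd
elements `y` above `Y`, which are distinct; use the sparsity of trajectories) -/

theorem path_log {d : ℤ} (hd : Odd d) (hd3 : IsCoprime d 3) : ∃ (C : ℝ) (Y0 : ℕ), 0 < C ∧ 1 ≤ Y0 ∧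
    ∀ Y : ℕ, Y0 ≤ Y → ∀ (x f : ℤ) (j : ℕ), x ≠ 0 → Hit d (FY Y) f x j →
      f ≠ 0 ∧ |Real.log (x : ℝ) + od d j x * Real.log 3 - j * Real.log 2 - Real.log (f : ℝ)|
        ≤ C / (Y : ℝ) ^ (1 / 25 : ℝ) := by sorry

/-! ### Task LT-C1: bounded residues (uses C0 and `hit_split`) -/

theorem bres {d : ℤ} (hd : Odd d) (hd3 : IsCoprime d 3) (F : Finset ℤ) (f : ℤ) : ∃ C : ℝ, 0 < C ∧
    ∀ (x : ℤ) (j : ℕ), x ≠ 0 → Hit d F f x j →
      |Real.log (x : ℝ) + od d j x * Real.log 3 - j * Real.log 2| ≤ C := by sorry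

/-! ### Task LT-C2: the recursion (uses `equi_allG`, `bres`, `GF_SF`, `RF_SpW`) -/

theorem MM_rec {d : ℤ} (hd : Odd d) (hd3 : IsCoprime d 3) (F : Finset ℤ) (f : ℤ) :
    ∃ C : ℝ, 0 < C ∧ Rec C (MM d F f) := by sorry

/-! ### Tasks LT-D: analysis of the recursion. D1: binomial coefficients -/

theorem bin_sup : ∃ c : ℝ, 0 < c ∧ ∀ n : ℕ, 1 ≤ n → ∀ j : ℕ, (n.choose j : ℝ) / 2 ^ n ≤ c / Real.sqrt n := by sorry

/-- Gaussian upper bound, for the numbers of steps `n = 2 p` -/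
theorem bin_gauss : ∃ c : ℝ, 0 < c ∧ ∀ p : ℕ, 1 ≤ p → ∀ j : ℕ,
    ((2 * p).choose j : ℝ) / 2 ^ (2 * p) ≤ c / Real.sqrt p * Real.exp (-((j : ℝ) - p) ^ 2 / (2 * p)) := by sorry

/-- total variation of the binomial distribution -/
theorem bin_var : ∃ c : ℝ, 0 < c ∧ ∀ n : ℕ, 1 ≤ n →
    ∑ j ∈ Finset.range (n + 2), |(n.choose j : ℝ) / 2 ^ n - (if j = 0 then 0 else (n.choose (j - 1) : ℝ) / 2 ^ n)|
      ≤ c / Real.sqrt n := by sorry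

/-! D2: iteration -/

theorem rec_iter {C : ℝ} {M : ℕ → ℤ → ℝ} (hM : Rec C M) (k n : ℕ) (o : ℤ) (hk : 100 ≤ k) (hn : 100 * n ≤ k)
    (ho : |2 * (o : ℝ) - k| ≤ (k : ℝ) / 40) :
    |M k o - ∑ j ∈ Finset.range (n + 1), (n.choose j : ℝ) / 2 ^ n * M (k - n) (o - j)| ≤ C / k := by sorry

/-! D3: upper bound (uses D1, D2 and the block bound: average over `n = 2 p`,
`p ∈ [k / 400, k / 400 + √k)`; blocks of `o` of length about `√k`) -/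

theorem rec_sup {C : ℝ} {M : ℕ → ℤ → ℝ} (hM : Rec C M) : ∃ (C' : ℝ) (k0 : ℕ), 0 < C' ∧ ∀ (k : ℕ) (o : ℤ),
    k0 ≤ k → |2 * (o : ℝ) - k| ≤ (k : ℝ) / 40 → M k o ≤ C' / Real.sqrt k := by sorry

/-! D4: differences (uses D1, D2, D3 with `n = k / 200`) -/

theorem rec_diff {C : ℝ} {M : ℕ → ℤ → ℝ} (hM : Rec C M) : ∃ (C' : ℝ) (k0 : ℕ), 0 < C' ∧ ∀ (k : ℕ) (o : ℤ),
    k0 ≤ k → |2 * (o : ℝ) - k| ≤ (k : ℝ) / 80 →
      |M k o - M k (o - 1)| ≤ C' / k ∧ |M (k + 1) o - M k o| ≤ C' / k := by sorry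

/-! D5: smoothness (uses D4) -/

theorem rec_smooth {C : ℝ} {M : ℕ → ℤ → ℝ} (hM : Rec C M) : ∃ (C' : ℝ) (k0 : ℕ), 0 < C' ∧
    ∀ (k k' : ℕ) (o o' : ℤ), k0 ≤ k → |2 * (o : ℝ) - k| ≤ (k : ℝ) / 400 → k ≤ k' → 1000 * (k' - k : ℝ) ≤ k →
      1000 * |(o' : ℝ) - o| ≤ k → |M k' o' - M k o| ≤ C' * ((k' - k : ℝ) + |(o' : ℝ) - o|) / k := by sorry

/-! ### Task LT-E: central limit theorem for exact hits -/

theorem late_tightF {d : ℤ} (hd : Odd d) (hd3 : IsCoprime d 3) (F : Finset ℤ) (f : ℤ)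
    {η : ℝ} (hη : 0 < η) : ∃ K A0 : ℝ, 1 ≤ K ∧ 0 < A0 ∧
    ∀ A : ℝ, A0 ≤ A → ∀ s : ℤ, Real.log A / mu + K * Real.sqrt (Real.log A) ≤ s → ∀ m : ℕ,
      (m : ℝ) ^ 2 ≤ Real.log A → PB (LF d F f s) A m η := by sorry

theorem cltF {d : ℤ} (hd : Odd d) (hd3 : IsCoprime d 3) (F : Finset ℤ) (f : ℤ)
    {δ : ℝ} (hδ : HD 1 (PF d F f) δ) (x : ℝ) : Dn (evF d F f x) (δ * Phi x) := by sorry

/-! ### Task LT-F3: logarithmic sums (pure analysis) -/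

theorem log_sums {H : ℕ → ℕ → Prop} (hu : ∀ n k k', H n k → H n k' → k = k') {δ : ℝ}
    (hH : ∀ z : ℝ, Dn (fun n => ∃ k : ℕ, (k : ℝ) ≤ Real.log n / mu + z * sg * Real.sqrt (Real.log n) ∧ H n k)
      (δ * Phi z)) {L : ℝ} (hL : 0 < L) {t : ℕ → ℝ} (ht : Tendsto t atTop atTop) {s1 s2 : ℕ → ℤ}
    {z1 z2 : ℝ} (hs : ∀ i, s1 i ≤ s2 i)
    (h1 : Tendsto (fun i => ((s1 i : ℝ) - t i / mu) / (sg * Real.sqrt (t i))) atTop (𝓝 z1))
    (h2 : Tendsto (fun i => ((s2 i : ℝ) - t i / mu) / (sg * Real.sqrt (t i))) atTop (𝓝 z2)) :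
    Tendsto (fun i => LS H (t i) L (s1 i) (s2 i)) atTop (𝓝 (δ * L * (Phi z2 - Phi z1))) := by sorry

/-! ### Task LT-G: positivity -/

theorem PF_pos {d : ℤ} (hd : Odd d) (hd3 : ¬ (3 : ℤ) ∣ d) {a : ℤ} (ha : 0 < a) (ha3 : ¬ (3 : ℤ) ∣ a) {l : ℝ}
    (hl : HD 1 (PF d {a} a) l) : 0 < l := by sorry

/-! ### Task LT-Phi: derivative of the normal distribution function -/

theorem Phi_deriv (z : ℝ) : HasDerivAt Phi (Real.exp (-z ^ 2 / 2) / Real.sqrt (2 * Real.pi)) z := by sorry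

end Pool.Agent.H499R2.LT
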